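import Pool.Agent.H628R4.TP.Defs

set_option autoImplicit false

/-! Functional equations of Bernstein-Sato type for `F + y t`. -/

namespace Pool.Agent.W206.CU

open MvPolynomial
open Pool.Agent.H628R4.TP (weylS IsBFunction IsBernsteinSatoOf)

/-- The operator-valued functions of `s ∈ ℕ` which are polynomials in `s` with coefficients in the
Weyl algebra. -/
noncomputable def fam (σ : Type) : Subalgebra ℂ (ℕ → Module.End ℂ (MvPolynomial σ ℂ)) :=
  Algebra.adjoin ℂ
    ({P | ∃ Q ∈ weylS σ, P = fun _ => Q} ∪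
      {fun s : ℕ => (s : ℂ) • (1 : Module.End ℂ (MvPolynomial σ ℂ))})

theorem fam_const {σ : Type} {Q : Module.End ℂ (MvPolynomial σ ℂ)} (hQ : Q ∈ weylS σ) :
    (fun _ : ℕ => Q) ∈ fam σ :=
  Algebra.subset_adjoin (Or.inl ⟨Q, hQ, rfl⟩)

theorem fam_nat (σ : Type) :
    (fun s : ℕ => (s : ℂ) • (1 : Module.End ℂ (MvPolynomial σ ℂ))) ∈ fam σ :=
  Algebra.subset_adjoin (Or.inr rfl)

theorem fam_pow_nat (σ : Type) (m : ℕ) :
    (fun s : ℕ => ((s : ℂ) ^ m) • (1 : Module.End ℂ (MvPolynomial σ ℂ))) ∈ fam σ := by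
  have h := (fam σ).pow_mem (fam_nat σ) m
  convert h using 1
  funext s
  simp [smul_pow]

theorem fam_poly (σ : Type) (b : Polynomial ℂ) :
    (fun s : ℕ => (b.eval (s : ℂ)) • (1 : Module.End ℂ (MvPolynomial σ ℂ))) ∈ fam σ := by
  induction b using Polynomial.induction_on' with
  | add p q hp hq =>
    have h := (fam σ).add_mem hp hq
    convert h using 1
    funext s
    simp [add_smul]
  | monomial n a =>
    have h := (fam σ).smul_mem (fam_pow_nat σ n) a
    convert h using 1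
    funext s
    simp [smul_smul]

theorem mem_closure_form {σ : Type} {P : ℕ → Module.End ℂ (MvPolynomial σ ℂ)}
    (hP : P ∈ Submonoid.closure
      ({P : ℕ → Module.End ℂ (MvPolynomial σ ℂ) | ∃ Q ∈ weylS σ, P = fun _ => Q} ∪
      {fun s : ℕ => (s : ℂ) • (1 : Module.End ℂ (MvPolynomial σ ℂ))})) :
    ∃ m : ℕ, ∃ Q ∈ weylS σ, P = fun s : ℕ => ((s : ℂ) ^ m) • Q := by
  induction hP using Submonoid.closure_induction with
  | mem x hx =>
    rcases hx with ⟨Q, hQ, rfl⟩ | hx
    · exact ⟨0, Q, hQ, by simp⟩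
    · refine ⟨1, 1, (weylS σ).one_mem, ?_⟩
      rw [Set.mem_singleton_iff] at hx
      rw [hx]
      simp
  | one => exact ⟨0, 1, (weylS σ).one_mem, by funext s; simp⟩
  | mul x y hx hy ihx ihy =>
    obtain ⟨m, Q, hQ, rfl⟩ := ihx
    obtain ⟨n, R, hR, rfl⟩ := ihy
    refine ⟨m + n, Q * R, (weylS σ).mul_mem hQ hR, ?_⟩
    funext s
    simp [pow_add, smul_smul, mul_comm]

/-- Every member of `fam σ` is given by a finitely supported family of coefficients. -/
theorem exists_of_mem_fam {σ : Type} {P : ℕ → Module.End ℂ (MvPolynomial σ ℂ)} (hP : P ∈ fam σ) :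
    ∃ c : ℕ →₀ weylS σ, ∀ s : ℕ, P s =
      c.sum fun m Q => ((s : ℂ) ^ m) • (Q : Module.End ℂ (MvPolynomial σ ℂ)) := by
  have h1 : P ∈ Subalgebra.toSubmodule (fam σ) := hP
  rw [fam, Algebra.adjoin_eq_span] at h1
  induction h1 using Submodule.span_induction with
  | mem x hx =>
    obtain ⟨m, Q, hQ, rfl⟩ := mem_closure_form hx
    exact ⟨Finsupp.single m ⟨Q, hQ⟩, fun s => by simp⟩
  | zero => exact ⟨0, fun s => by simp⟩
  | add x y hx hy ihx ihy =>
    obtain ⟨c, hc⟩ := ihx (by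
      have : x ∈ Subalgebra.toSubmodule (fam σ) := by
        rw [fam, Algebra.adjoin_eq_span]; exact hx
      exact this)
    obtain ⟨d, hd⟩ := ihy (by
      have : y ∈ Subalgebra.toSubmodule (fam σ) := by
        rw [fam, Algebra.adjoin_eq_span]; exact hy
      exact this)
    refine ⟨c + d, fun s => ?_⟩
    rw [Pi.add_apply, hc, hd, Finsupp.sum_add_index']
    · simp
    · intro m a b
      simp [smul_add]
  | smul a x hx ihx =>
    obtain ⟨c, hc⟩ := ihx (by
      have : x ∈ Subalgebra.toSubmodule (fam σ) := by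
        rw [fam, Algebra.adjoin_eq_span]; exact hx
      exact this)
    refine ⟨a • c, fun s => ?_⟩
    rw [Pi.smul_apply, hc, Finsupp.sum_smul_index', Finsupp.smul_sum]
    · refine Finsupp.sum_congr fun m _ => ?_
      simp [smul_smul, mul_comm]
    · intro m
      simp

theorem mem_fam_of_finsupp {σ : Type} (c : ℕ →₀ weylS σ) :
    (fun s : ℕ => c.sum fun m Q => ((s : ℂ) ^ m) • (Q : Module.End ℂ (MvPolynomial σ ℂ))) ∈
      fam σ := by
  have h : (fun s : ℕ => c.sum fun m Q => ((s : ℂ) ^ m) • (Q : Module.End ℂ (MvPolynomial σ ℂ))) =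
      ∑ m ∈ c.support, (fun s : ℕ => ((s : ℂ) ^ m) • (1 : Module.End ℂ (MvPolynomial σ ℂ))) *
        (fun _ => (c m : Module.End ℂ (MvPolynomial σ ℂ))) := by
    funext s
    simp [Finsupp.sum]
  rw [h]
  exact (fam σ).sum_mem fun m _ => (fam σ).mul_mem (fam_pow_nat σ m) (fam_const (c m).2)

theorem isBFunction_iff {σ : Type} (f : MvPolynomial σ ℂ) (b : Polynomial ℂ) :
    IsBFunction f b ↔ ∃ P ∈ fam σ, ∀ s : ℕ, C (b.eval (s : ℂ)) * f ^ s = P s (f ^ (s + 1)) := by
  constructor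
  · rintro ⟨c, hc⟩
    refine ⟨_, mem_fam_of_finsupp c, fun s => ?_⟩
    rw [hc s]
    simp [Finsupp.sum]
  · rintro ⟨P, hP, h⟩
    obtain ⟨c, hc⟩ := exists_of_mem_fam hP
    refine ⟨c, fun s => ?_⟩
    rw [h s, hc s]
    simp [Finsupp.sum]

/-! ### The ideal of `b`-functions -/

theorem isBFunction_mul {σ : Type} {f : MvPolynomial σ ℂ} {b : Polynomial ℂ}
    (h : IsBFunction f b) (q : Polynomial ℂ) : IsBFunction f (b * q) := by
  rw [isBFunction_iff] at h ⊢
  obtain ⟨P, hP, h⟩ := h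
  refine ⟨_, (fam σ).mul_mem (fam_poly σ q) hP, fun s => ?_⟩
  simp only [Pi.mul_apply, Module.End.mul_apply, LinearMap.smul_apply, Module.End.one_apply,
    ← h s, Polynomial.eval_mul, map_mul, MvPolynomial.smul_eq_C_mul]
  ring

theorem isBFunction_sub {σ : Type} {f : MvPolynomial σ ℂ} {b b' : Polynomial ℂ}
    (h : IsBFunction f b) (h' : IsBFunction f b') : IsBFunction f (b - b') := by
  rw [isBFunction_iff] at h h' ⊢
  obtain ⟨P, hP, h⟩ := h
  obtain ⟨P', hP', h'⟩ := h'
  refine ⟨_, (fam σ).sub_mem hP hP', fun s => ?_⟩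
  simp only [Pi.sub_apply, LinearMap.sub_apply, ← h s, ← h' s, Polynomial.eval_sub, map_sub]
  ring

theorem isBFunction_monic {σ : Type} {f : MvPolynomial σ ℂ} {b : Polynomial ℂ}
    (h : IsBFunction f b) (hb : b ≠ 0) :
    ∃ b' : Polynomial ℂ, b'.Monic ∧ IsBFunction f b' ∧ b'.natDegree = b.natDegree := by
  refine ⟨b * Polynomial.C (b.leadingCoeff⁻¹), ?_, isBFunction_mul h _, ?_⟩
  · exact Polynomial.monic_mul_leadingCoeff_inv hb
  · exact Polynomial.natDegree_mul_leadingCoeff_inv b hb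

theorem isBernsteinSatoOf_dvd {σ : Type} {f : MvPolynomial σ ℂ} {b b' : Polynomial ℂ}
    (h : IsBernsteinSatoOf f b) (h' : IsBFunction f b') : b ∣ b' := by
  obtain ⟨hm, hb, hmin⟩ := h
  rw [← Polynomial.modByMonic_eq_zero_iff_dvd hm]
  by_contra hne
  have h1 : IsBFunction f (b' %ₘ b) := by
    have h2 : b' %ₘ b = b' - b * (b' /ₘ b) := by
      rw [Polynomial.modByMonic_eq_sub_mul_div]
    rw [h2]
    exact isBFunction_sub h' (isBFunction_mul hb _)
  obtain ⟨c, hc, hcb, hcd⟩ := isBFunction_monic h1 hne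
  have h3 := hmin c hc hcb
  have h4 : (b' %ₘ b).natDegree < b.natDegree := by
    apply Polynomial.natDegree_modByMonic_lt _ hm
    rintro rfl
    apply hne
    exact Polynomial.modByMonic_one _
  omega

theorem exists_isBernsteinSatoOf {σ : Type} {f : MvPolynomial σ ℂ} {b : Polynomial ℂ}
    (h : IsBFunction f b) (hb : b ≠ 0) : ∃ b', IsBernsteinSatoOf f b' := by
  classical
  obtain ⟨b0, hb0, hb0', _⟩ := isBFunction_monic h hb
  have hex : ∃ n, ∃ b' : Polynomial ℂ, b'.Monic ∧ IsBFunction f b' ∧ b'.natDegree = n :=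
    ⟨_, b0, hb0, hb0', rfl⟩
  obtain ⟨b', h1, h2, h3⟩ := Nat.find_spec hex
  refine ⟨b', h1, h2, fun c hc hc' => ?_⟩
  rw [h3]
  exact Nat.find_min' hex ⟨c, hc, hc', rfl⟩

/-! ### Extending operators to more variables -/

theorem weylS_mulLeft {σ : Type} (a : MvPolynomial σ ℂ) : LinearMap.mulLeft ℂ a ∈ weylS σ := by
  induction a using MvPolynomial.induction_on with
  | C c =>
    have h : LinearMap.mulLeft ℂ (C c : MvPolynomial σ ℂ) =
        c • (1 : Module.End ℂ (MvPolynomial σ ℂ)) := by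
      apply LinearMap.ext
      intro x
      simp [MvPolynomial.smul_eq_C_mul]
    rw [h]
    exact (weylS σ).smul_mem (weylS σ).one_mem c
  | add p q hp hq =>
    have h : LinearMap.mulLeft ℂ (p + q) = LinearMap.mulLeft ℂ p + LinearMap.mulLeft ℂ q := by
      apply LinearMap.ext
      intro x
      simp [add_mul]
    rw [h]
    exact (weylS σ).add_mem hp hq
  | mul_X p i hp =>
    have h : LinearMap.mulLeft ℂ (p * X i) =
        LinearMap.mulLeft ℂ p * LinearMap.mulLeft ℂ (X i : MvPolynomial σ ℂ) := by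
      apply LinearMap.ext
      intro x
      simp
    rw [h]
    exact (weylS σ).mul_mem hp (Algebra.subset_adjoin (Or.inl ⟨i, rfl⟩))

theorem weylS_pderiv {σ : Type} (i : σ) :
    ((pderiv i : Derivation ℂ (MvPolynomial σ ℂ) (MvPolynomial σ ℂ)) :
      MvPolynomial σ ℂ →ₗ[ℂ] MvPolynomial σ ℂ) ∈ weylS σ :=
  Algebra.subset_adjoin (Or.inr ⟨i, rfl⟩)

theorem derivation_sum_apply {ι R A : Type} [CommRing R] [CommRing A] [Algebra R A]
    (s : Finset ι) (D : ι → Derivation R A A) (x : A) : (∑ i ∈ s, D i) x = ∑ i ∈ s, D i x := by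
  classical
  induction s using Finset.induction_on with
  | empty => simp
  | insert a s ha ih => rw [Finset.sum_insert ha, Finset.sum_insert ha, Derivation.add_apply, ih]

/-- Every derivation of the polynomial ring belongs to the Weyl algebra. -/
theorem weylS_derivation {σ : Type} [Finite σ]
    (D : Derivation ℂ (MvPolynomial σ ℂ) (MvPolynomial σ ℂ)) :
    (D : MvPolynomial σ ℂ →ₗ[ℂ] MvPolynomial σ ℂ) ∈ weylS σ := by
  classical
  cases nonempty_fintype σ
  have h : (D : MvPolynomial σ ℂ →ₗ[ℂ] MvPolynomial σ ℂ) =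
      ∑ i, LinearMap.mulLeft ℂ (D (X i)) *
        ((pderiv i : Derivation ℂ (MvPolynomial σ ℂ) (MvPolynomial σ ℂ)) :
          MvPolynomial σ ℂ →ₗ[ℂ] MvPolynomial σ ℂ) := by
    have h1 : D = ∑ i, D (X i) •
        (pderiv i : Derivation ℂ (MvPolynomial σ ℂ) (MvPolynomial σ ℂ)) := by
      apply MvPolynomial.derivation_ext
      intro j
      simp only [derivation_sum_apply, Derivation.smul_apply, smul_eq_mul]
      rw [Finset.sum_eq_single j]
      · simp
      · intro i _ hij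
        rw [MvPolynomial.pderiv_X_of_ne hij.symm]
        simp
      · simp
    apply LinearMap.ext
    intro x
    rw [Derivation.coeFn_coe]
    conv_lhs => rw [h1]
    simp [LinearMap.sum_apply, derivation_sum_apply]
  rw [h]
  exact (weylS σ).sum_mem fun i _ => (weylS σ).mul_mem (weylS_mulLeft _) (weylS_pderiv i)

theorem weylS_ext {σ : Type} (ρ : Type) {Q : Module.End ℂ (MvPolynomial σ ℂ)} (hQ : Q ∈ weylS σ) :
    ∃ Q' ∈ weylS (σ ⊕ ρ), ∀ (h : MvPolynomial σ ℂ) (m : MvPolynomial (σ ⊕ ρ) ℂ),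
      (∀ i : σ, pderiv (Sum.inl i) m = 0) →
      Q' (rename Sum.inl h * m) = rename Sum.inl (Q h) * m := by
  induction hQ using Algebra.adjoin_induction with
  | mem x hx =>
    rcases hx with ⟨i, rfl⟩ | ⟨i, rfl⟩
    · refine ⟨LinearMap.mulLeft ℂ (X (Sum.inl i)), weylS_mulLeft _, fun h m hm => ?_⟩
      simp [mul_assoc]
    · refine ⟨_, weylS_pderiv (Sum.inl i), fun h m hm => ?_⟩
      simp only [Derivation.coeFn_coe, Derivation.leibniz, hm i, smul_eq_mul, mul_zero, zero_add]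
      rw [MvPolynomial.pderiv_rename (fun a b hab => Sum.inl_injective hab), mul_comm]
  | algebraMap r =>
    refine ⟨algebraMap ℂ _ r, (weylS _).algebraMap_mem r, fun h m hm => ?_⟩
    simp [Module.algebraMap_end_apply]
  | add x y hx hy ihx ihy =>
    obtain ⟨x', hx', h1⟩ := ihx
    obtain ⟨y', hy', h2⟩ := ihy
    refine ⟨x' + y', (weylS _).add_mem hx' hy', fun h m hm => ?_⟩
    rw [LinearMap.add_apply, h1 h m hm, h2 h m hm, LinearMap.add_apply, map_add, add_mul]
  | mul x y hx hy ihx ihy =>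
    obtain ⟨x', hx', h1⟩ := ihx
    obtain ⟨y', hy', h2⟩ := ihy
    refine ⟨x' * y', (weylS _).mul_mem hx' hy', fun h m hm => ?_⟩
    rw [Module.End.mul_apply, h2 h m hm, h1 _ m hm, Module.End.mul_apply]

/-! ### Conjugation by algebra isomorphisms -/

theorem weylS_conj {σ τ : Type} [Finite σ] [Finite τ]
    (e : MvPolynomial σ ℂ ≃ₐ[ℂ] MvPolynomial τ ℂ)
    {Q : Module.End ℂ (MvPolynomial σ ℂ)} (hQ : Q ∈ weylS σ) :
    (e.toLinearEquiv.toLinearMap ∘ₗ Q ∘ₗ e.symm.toLinearEquiv.toLinearMap :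
      Module.End ℂ (MvPolynomial τ ℂ)) ∈ weylS τ := by
  induction hQ using Algebra.adjoin_induction with
  | mem x hx =>
    rcases hx with ⟨i, rfl⟩ | ⟨i, rfl⟩
    · have h : (e.toLinearEquiv.toLinearMap ∘ₗ LinearMap.mulLeft ℂ (X i : MvPolynomial σ ℂ) ∘ₗ
          e.symm.toLinearEquiv.toLinearMap : Module.End ℂ (MvPolynomial τ ℂ)) =
          LinearMap.mulLeft ℂ (e (X i)) := by
        apply LinearMap.ext
        intro x
        simp
      rw [h]
      exact weylS_mulLeft _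
    · let D : Derivation ℂ (MvPolynomial τ ℂ) (MvPolynomial τ ℂ) :=
        Derivation.mk' (e.toLinearEquiv.toLinearMap ∘ₗ
          ((pderiv i : Derivation ℂ (MvPolynomial σ ℂ) (MvPolynomial σ ℂ)) :
          MvPolynomial σ ℂ →ₗ[ℂ] MvPolynomial σ ℂ) ∘ₗ
          e.symm.toLinearEquiv.toLinearMap) (by
            intro a b
            simp [Derivation.leibniz])
      exact weylS_derivation D
  | algebraMap r =>
    have h : (e.toLinearEquiv.toLinearMap ∘ₗ
        (algebraMap ℂ (Module.End ℂ (MvPolynomial σ ℂ)) r) ∘ₗ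
          e.symm.toLinearEquiv.toLinearMap : Module.End ℂ (MvPolynomial τ ℂ)) =
        algebraMap ℂ _ r := by
      apply LinearMap.ext
      intro x
      simp [Module.algebraMap_end_apply]
    rw [h]
    exact (weylS _).algebraMap_mem r
  | add x y hx hy ihx ihy =>
    have h : (e.toLinearEquiv.toLinearMap ∘ₗ (x + y) ∘ₗ
          e.symm.toLinearEquiv.toLinearMap : Module.End ℂ (MvPolynomial τ ℂ)) =
        (e.toLinearEquiv.toLinearMap ∘ₗ x ∘ₗ e.symm.toLinearEquiv.toLinearMap) +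
        (e.toLinearEquiv.toLinearMap ∘ₗ y ∘ₗ e.symm.toLinearEquiv.toLinearMap) := by
      apply LinearMap.ext
      intro z
      simp
    rw [h]
    exact (weylS _).add_mem ihx ihy
  | mul x y hx hy ihx ihy =>
    have h : (e.toLinearEquiv.toLinearMap ∘ₗ (x * y) ∘ₗ
          e.symm.toLinearEquiv.toLinearMap : Module.End ℂ (MvPolynomial τ ℂ)) =
        (e.toLinearEquiv.toLinearMap ∘ₗ x ∘ₗ e.symm.toLinearEquiv.toLinearMap) *
        (e.toLinearEquiv.toLinearMap ∘ₗ y ∘ₗ e.symm.toLinearEquiv.toLinearMap) := by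
      apply LinearMap.ext
      intro z
      simp [Module.End.mul_apply]
    rw [h]
    exact (weylS _).mul_mem ihx ihy

theorem fam_conj {σ τ : Type} [Finite σ] [Finite τ]
    (e : MvPolynomial σ ℂ ≃ₐ[ℂ] MvPolynomial τ ℂ)
    {P : ℕ → Module.End ℂ (MvPolynomial σ ℂ)} (hP : P ∈ fam σ) :
    (fun s => (e.toLinearEquiv.toLinearMap ∘ₗ P s ∘ₗ e.symm.toLinearEquiv.toLinearMap :
      Module.End ℂ (MvPolynomial τ ℂ))) ∈ fam τ := by
  obtain ⟨c, hc⟩ := exists_of_mem_fam hP
  have h : (fun s => (e.toLinearEquiv.toLinearMap ∘ₗ P s ∘ₗ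
      e.symm.toLinearEquiv.toLinearMap : Module.End ℂ (MvPolynomial τ ℂ))) =
      ∑ m ∈ c.support, (fun s : ℕ => ((s : ℂ) ^ m) • (1 : Module.End ℂ (MvPolynomial τ ℂ))) *
        (fun _ => (e.toLinearEquiv.toLinearMap ∘ₗ (c m : Module.End ℂ (MvPolynomial σ ℂ)) ∘ₗ
          e.symm.toLinearEquiv.toLinearMap : Module.End ℂ (MvPolynomial τ ℂ))) := by
    funext s
    apply LinearMap.ext
    intro x
    simp [hc, Finsupp.sum]
  rw [h]
  exact (fam τ).sum_mem fun m _ =>
    (fam τ).mul_mem (fam_pow_nat τ m) (fam_const (weylS_conj e (c m).2))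

end Pool.Agent.W206.CU
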