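import Pool.Agent.W206.CU.BF

set_option autoImplicit false

/-! Functional equations of Bernstein-Sato type for `F + y t`: the step. -/

namespace Pool.Agent.W206.CU

open MvPolynomial
open Pool.Agent.H628R4.TP (weylS IsBFunction IsBernsteinSatoOf)

/-- `P(M) F ^ M = M B(M - 1) F ^ (M - 1)` for all `M ∈ ℕ`. -/
def BS1 {σ : Type} (F : MvPolynomial σ ℂ) (B : Polynomial ℂ) : Prop :=
  ∃ P ∈ fam σ, ∀ M : ℕ, P M (F ^ M) = C ((M : ℂ) * B.eval ((M : ℂ) - 1)) * F ^ (M - 1)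

theorem bs1_iso {σ τ : Type} [Finite σ] [Finite τ]
    (e : MvPolynomial σ ℂ ≃ₐ[ℂ] MvPolynomial τ ℂ) {F : MvPolynomial σ ℂ} {B : Polynomial ℂ}
    (h : BS1 F B) : BS1 (e F) B := by
  obtain ⟨P, hP, h⟩ := h
  refine ⟨_, fam_conj e hP, fun M => ?_⟩
  simp only [LinearMap.comp_apply, LinearEquiv.coe_coe, AlgEquiv.toLinearEquiv_apply, map_pow,
    AlgEquiv.symm_apply_apply]
  rw [h M, map_mul, map_pow, ← MvPolynomial.algebraMap_eq, AlgEquiv.commutes,
    MvPolynomial.algebraMap_eq]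

theorem fam_sub_one {σ : Type} {P : ℕ → Module.End ℂ (MvPolynomial σ ℂ)} (hP : P ∈ fam σ) :
    ∃ P' ∈ fam σ, ∀ M : ℕ, P' (M + 1) = P M := by
  obtain ⟨c, hc⟩ := exists_of_mem_fam hP
  refine ⟨∑ m ∈ c.support,
    (fun s : ℕ => (((Polynomial.X - 1 : Polynomial ℂ) ^ m).eval (s : ℂ)) •
      (1 : Module.End ℂ (MvPolynomial σ ℂ))) *
        (fun _ => (c m : Module.End ℂ (MvPolynomial σ ℂ))), ?_, fun M => ?_⟩
  · exact (fam σ).sum_mem fun m _ => (fam σ).mul_mem (fam_poly σ _) (fam_const (c m).2)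
  · rw [hc]
    simp [Finsupp.sum]

theorem fam_succ {σ : Type} {P : ℕ → Module.End ℂ (MvPolynomial σ ℂ)} (hP : P ∈ fam σ) :
    (fun M => P (M + 1)) ∈ fam σ := by
  obtain ⟨c, hc⟩ := exists_of_mem_fam hP
  have h : (fun M => P (M + 1)) = ∑ m ∈ c.support,
    (fun s : ℕ => (((Polynomial.X + 1 : Polynomial ℂ) ^ m).eval (s : ℂ)) •
      (1 : Module.End ℂ (MvPolynomial σ ℂ))) *
        (fun _ => (c m : Module.End ℂ (MvPolynomial σ ℂ))) := by
    funext M
    rw [hc]
    simp [Finsupp.sum]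
  rw [h]
  exact (fam σ).sum_mem fun m _ => (fam σ).mul_mem (fam_poly σ _) (fam_const (c m).2)

theorem fam_ext {σ : Type} (ρ : Type) {P : ℕ → Module.End ℂ (MvPolynomial σ ℂ)}
    (hP : P ∈ fam σ) :
    ∃ P' ∈ fam (σ ⊕ ρ), ∀ (s : ℕ) (h : MvPolynomial σ ℂ) (m : MvPolynomial (σ ⊕ ρ) ℂ),
      (∀ i : σ, pderiv (Sum.inl i) m = 0) →
      P' s (rename Sum.inl h * m) = rename Sum.inl (P s h) * m := by
  induction hP using Algebra.adjoin_induction with
  | mem x hx =>
    rcases hx with ⟨Q, hQ, rfl⟩ | hx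
    · obtain ⟨Q', hQ', h⟩ := weylS_ext ρ hQ
      exact ⟨_, fam_const hQ', fun s => h⟩
    · rw [Set.mem_singleton_iff] at hx
      subst hx
      refine ⟨_, fam_nat _, fun s h m _ => ?_⟩
      simp
  | algebraMap r =>
    refine ⟨algebraMap ℂ _ r, (fam _).algebraMap_mem r, fun s h m hm => ?_⟩
    simp [Module.algebraMap_end_apply]
  | add x y hx hy ihx ihy =>
    obtain ⟨x', hx', h1⟩ := ihx
    obtain ⟨y', hy', h2⟩ := ihy
    refine ⟨x' + y', (fam _).add_mem hx' hy', fun s h m hm => ?_⟩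
    rw [Pi.add_apply, LinearMap.add_apply, h1 s h m hm, h2 s h m hm, Pi.add_apply,
      LinearMap.add_apply, map_add, add_mul]
  | mul x y hx hy ihx ihy =>
    obtain ⟨x', hx', h1⟩ := ihx
    obtain ⟨y', hy', h2⟩ := ihy
    refine ⟨x' * y', (fam _).mul_mem hx' hy', fun s h m hm => ?_⟩
    rw [Pi.mul_apply, Module.End.mul_apply, h2 s h m hm, h1 s _ m hm, Pi.mul_apply,
      Module.End.mul_apply]

theorem pderiv_rename_of_not {σ τ R : Type} [CommRing R] (g : σ → τ) (j : τ)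
    (hj : ∀ i, g i ≠ j) (F : MvPolynomial σ R) : pderiv j (rename g F) = 0 := by
  induction F using MvPolynomial.induction_on with
  | C a => simp
  | add p q hp hq => rw [map_add, map_add, hp, hq, add_zero]
  | mul_X p i hp =>
    rw [map_mul, rename_X, Derivation.leibniz, hp, pderiv_X_of_ne (fun h => hj i h)]
    simp

/-- The first step: the functional equation of `u f`. -/
theorem bs1_start {σ : Type} {f : MvPolynomial σ ℂ} {b : Polynomial ℂ} (h : IsBFunction f b) :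
    BS1 (X (Sum.inr ()) * rename Sum.inl f : MvPolynomial (σ ⊕ Unit) ℂ) b := by
  rw [isBFunction_iff] at h
  obtain ⟨P, hP, h⟩ := h
  obtain ⟨P', hP', h'⟩ := fam_ext Unit hP
  obtain ⟨P'', hP'', h''⟩ := fam_sub_one hP'
  refine ⟨P'' * fun _ => ((pderiv (Sum.inr ()) : Derivation ℂ (MvPolynomial (σ ⊕ Unit) ℂ)
      (MvPolynomial (σ ⊕ Unit) ℂ)) : MvPolynomial (σ ⊕ Unit) ℂ →ₗ[ℂ] MvPolynomial (σ ⊕ Unit) ℂ),
    (fam _).mul_mem hP'' (fam_const (weylS_pderiv _)), fun M => ?_⟩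
  rw [Pi.mul_apply, Module.End.mul_apply, Derivation.coeFn_coe]
  rcases M with _ | M
  · simp
  · rw [h'']
    have h1 : pderiv (Sum.inr ()) (X (Sum.inr ()) * rename Sum.inl f : MvPolynomial (σ ⊕ Unit) ℂ)
        = rename Sum.inl f := by
      rw [Derivation.leibniz, pderiv_rename_of_not Sum.inl (Sum.inr ()) (by simp)]
      simp
    have h2 : pderiv (Sum.inr ()) ((X (Sum.inr ()) * rename Sum.inl f :
        MvPolynomial (σ ⊕ Unit) ℂ) ^ (M + 1)) =
        ((M : ℂ) + 1) • (rename Sum.inl (f ^ (M + 1)) * X (Sum.inr ()) ^ M) := by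
      rw [Derivation.leibniz_pow, h1, MvPolynomial.smul_eq_C_mul]
      simp only [Nat.add_sub_cancel, smul_eq_mul, nsmul_eq_mul, map_pow, map_add, map_one,
        map_natCast, Nat.cast_add, Nat.cast_one]
      ring
    rw [h2, map_smul, h', ← h M]
    · simp only [MvPolynomial.smul_eq_C_mul, map_mul, rename_C, map_pow, map_add, map_one,
        map_natCast, Nat.cast_add, Nat.cast_one, Nat.add_sub_cancel, add_sub_cancel_right]
      ring
    · intro i
      rw [Derivation.leibniz_pow, pderiv_X_of_ne (by simp)]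
      simp

/-! ### The step -/

section step

variable {σ : Type}

theorem pderiv_inl_w (i : σ) (k : ℕ) :
    pderiv (Sum.inl i) ((X (Sum.inr 0) * X (Sum.inr 1) : MvPolynomial (σ ⊕ Fin 2) ℂ) ^ k) = 0 := by
  rw [Derivation.leibniz_pow, Derivation.leibniz, pderiv_X_of_ne (by simp),
    pderiv_X_of_ne (by simp)]
  simp

/-- The Euler operator `t ∂_t`. -/
noncomputable def theta (σ : Type) : Module.End ℂ (MvPolynomial (σ ⊕ Fin 2) ℂ) :=
  LinearMap.mulLeft ℂ (X (Sum.inr 1)) *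
    ((pderiv (Sum.inr 1) : Derivation ℂ (MvPolynomial (σ ⊕ Fin 2) ℂ)
      (MvPolynomial (σ ⊕ Fin 2) ℂ)) :
      MvPolynomial (σ ⊕ Fin 2) ℂ →ₗ[ℂ] MvPolynomial (σ ⊕ Fin 2) ℂ)

theorem theta_mem : theta σ ∈ weylS (σ ⊕ Fin 2) :=
  (weylS _).mul_mem (weylS_mulLeft _) (weylS_pderiv _)

theorem pderiv_t (h : MvPolynomial σ ℂ) (k : ℕ) :
    pderiv (Sum.inr 1) (rename Sum.inl h * (X (Sum.inr 0) * X (Sum.inr 1)) ^ k :
      MvPolynomial (σ ⊕ Fin 2) ℂ) =
      (k : ℂ) • (rename Sum.inl h * (X (Sum.inr 0) * (X (Sum.inr 0) * X (Sum.inr 1)) ^ (k - 1))) := by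
  rw [Derivation.leibniz, pderiv_rename_of_not Sum.inl (Sum.inr 1) (by simp),
    Derivation.leibniz_pow, Derivation.leibniz, pderiv_X_self, pderiv_X_of_ne (by simp)]
  simp only [smul_eq_mul, mul_one, mul_zero, add_zero, nsmul_eq_mul,
    MvPolynomial.smul_eq_C_mul, map_natCast]
  ring

theorem theta_apply (h : MvPolynomial σ ℂ) (k : ℕ) :
    theta σ (rename Sum.inl h * (X (Sum.inr 0) * X (Sum.inr 1)) ^ k) =
      (k : ℂ) • (rename Sum.inl h * (X (Sum.inr 0) * X (Sum.inr 1)) ^ k) := by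
  rw [theta, Module.End.mul_apply, Derivation.coeFn_coe, pderiv_t, LinearMap.mulLeft_apply]
  rcases k with _ | k
  · simp
  · simp only [MvPolynomial.smul_eq_C_mul, Nat.add_sub_cancel]
    ring

theorem pderiv_yt (h : MvPolynomial σ ℂ) (k : ℕ) :
    pderiv (Sum.inr 0) (pderiv (Sum.inr 1)
      (rename Sum.inl h * (X (Sum.inr 0) * X (Sum.inr 1)) ^ k :
      MvPolynomial (σ ⊕ Fin 2) ℂ)) =
      ((k : ℂ) ^ 2) • (rename Sum.inl h * (X (Sum.inr 0) * X (Sum.inr 1)) ^ (k - 1)) := by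
  rw [pderiv_t, Derivation.map_smul, Derivation.leibniz,
    pderiv_rename_of_not Sum.inl (Sum.inr 0) (by simp),
    Derivation.leibniz, Derivation.leibniz_pow, Derivation.leibniz, pderiv_X_self,
    pderiv_X_of_ne (by simp)]
  rcases k with _ | k
  · simp
  · rcases k with _ | k
    · simp
    · simp only [smul_eq_mul, mul_one, mul_zero, zero_add, add_zero, nsmul_eq_mul,
        MvPolynomial.smul_eq_C_mul, map_natCast, Nat.add_sub_cancel, map_pow, Nat.cast_add,
        Nat.cast_one, map_add, map_one]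
      ring

theorem fam_subst {P : ℕ → Module.End ℂ (MvPolynomial σ ℂ)} (hP : P ∈ fam σ) :
    ∃ P' ∈ fam (σ ⊕ Fin 2), ∀ (M k : ℕ) (h : MvPolynomial σ ℂ),
      P' (M + k) (rename Sum.inl h * (X (Sum.inr 0) * X (Sum.inr 1)) ^ k) =
        rename Sum.inl (P M h) * (X (Sum.inr 0) * X (Sum.inr 1)) ^ k := by
  induction hP using Algebra.adjoin_induction with
  | mem x hx =>
    rcases hx with ⟨Q, hQ, rfl⟩ | hx
    · obtain ⟨Q', hQ', h⟩ := weylS_ext (Fin 2) hQ
      exact ⟨_, fam_const hQ', fun M k g => h g _ fun i => pderiv_inl_w i k⟩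
    · rw [Set.mem_singleton_iff] at hx
      subst hx
      refine ⟨(fun s : ℕ => (s : ℂ) • (1 : Module.End ℂ (MvPolynomial (σ ⊕ Fin 2) ℂ))) -
        fun _ => theta σ, (fam _).sub_mem (fam_nat _) (fam_const theta_mem), fun M k h => ?_⟩
      rw [Pi.sub_apply, LinearMap.sub_apply, theta_apply]
      simp only [LinearMap.smul_apply, Module.End.one_apply, Nat.cast_add, map_smul,
        MvPolynomial.smul_eq_C_mul, map_add, map_natCast, map_mul, rename_C]
      ring
  | algebraMap r =>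
    refine ⟨algebraMap ℂ _ r, (fam _).algebraMap_mem r, fun M k h => ?_⟩
    simp [Module.algebraMap_end_apply]
  | add x y hx hy ihx ihy =>
    obtain ⟨x', hx', h1⟩ := ihx
    obtain ⟨y', hy', h2⟩ := ihy
    refine ⟨x' + y', (fam _).add_mem hx' hy', fun M k h => ?_⟩
    rw [Pi.add_apply, LinearMap.add_apply, h1, h2, Pi.add_apply,
      LinearMap.add_apply, map_add, add_mul]
  | mul x y hx hy ihx ihy =>
    obtain ⟨x', hx', h1⟩ := ihx
    obtain ⟨y', hy', h2⟩ := ihy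
    refine ⟨x' * y', (fam _).mul_mem hx' hy', fun M k h => ?_⟩
    rw [Pi.mul_apply, Module.End.mul_apply, h2, h1, Pi.mul_apply, Module.End.mul_apply]

/-- The difference quotient `(B(M) - B(M - 1 - θ)) / (θ + 1)`. -/
theorem exists_quot (σ : Type) (B : Polynomial ℂ) :
    ∃ R ∈ fam (σ ⊕ Fin 2), ∀ (M j : ℕ) (h : MvPolynomial σ ℂ),
      R M (rename Sum.inl h * (X (Sum.inr 0) * X (Sum.inr 1)) ^ j) =
        (((j : ℂ) + 1)⁻¹ * (B.eval (M : ℂ) - B.eval ((M : ℂ) - 1 - j))) •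
          (rename Sum.inl h * (X (Sum.inr 0) * X (Sum.inr 1)) ^ j) := by
  induction B using Polynomial.induction_on with
  | C a => exact ⟨0, (fam _).zero_mem, fun M j h => by simp⟩
  | add p q hp hq =>
    obtain ⟨x', hx', h1⟩ := hp
    obtain ⟨y', hy', h2⟩ := hq
    refine ⟨x' + y', (fam _).add_mem hx' hy', fun M k h => ?_⟩
    rw [Pi.add_apply, LinearMap.add_apply, h1, h2, ← add_smul]
    congr 1
    simp only [Polynomial.eval_add]
    ring
  | monomial n a hn =>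
    obtain ⟨R, hR, h1⟩ := hn
    refine ⟨((fun s : ℕ => (s : ℂ) • (1 : Module.End ℂ (MvPolynomial (σ ⊕ Fin 2) ℂ))) - 1 -
        fun _ => theta σ) * R + (fun s : ℕ => ((Polynomial.C a * Polynomial.X ^ n).eval (s : ℂ)) •
        (1 : Module.End ℂ (MvPolynomial (σ ⊕ Fin 2) ℂ))), ?_, fun M j h => ?_⟩
    · exact (fam _).add_mem ((fam _).mul_mem ((fam _).sub_mem ((fam _).sub_mem (fam_nat _)
        (fam _).one_mem) (fam_const theta_mem)) hR) (fam_poly _ _)
    · have hj : ((j : ℂ) + 1) ≠ 0 := by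
        have : ((j + 1 : ℕ) : ℂ) ≠ 0 := by
          exact_mod_cast Nat.succ_ne_zero j
        simpa using this
      simp only [Pi.add_apply, Pi.mul_apply, Pi.sub_apply, Pi.one_apply, LinearMap.add_apply,
        Module.End.mul_apply, LinearMap.sub_apply, h1, map_smul, theta_apply,
        LinearMap.smul_apply, Module.End.one_apply]
      generalize (rename Sum.inl h * (X (Sum.inr 0) * X (Sum.inr 1)) ^ j :
        MvPolynomial (σ ⊕ Fin 2) ℂ) = v
      have e1 : ∀ z : ℂ, (Polynomial.C a * Polynomial.X ^ (n + 1)).eval z =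
          z * (Polynomial.C a * Polynomial.X ^ n).eval z := by
        intro z
        simp only [Polynomial.eval_mul, Polynomial.eval_C, Polynomial.eval_pow, Polynomial.eval_X]
        ring
      rw [e1, e1]
      generalize (Polynomial.C a * Polynomial.X ^ n).eval (M : ℂ) = p1
      generalize (Polynomial.C a * Polynomial.X ^ n).eval ((M : ℂ) - 1 - j) = p2
      match_scalars
      field_simp
      ring

/-- The operator `∂_y ∂_t`. -/
noncomputable def lap (σ : Type) : Module.End ℂ (MvPolynomial (σ ⊕ Fin 2) ℂ) :=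
  ((pderiv (Sum.inr 0) : Derivation ℂ (MvPolynomial (σ ⊕ Fin 2) ℂ)
      (MvPolynomial (σ ⊕ Fin 2) ℂ)) :
      MvPolynomial (σ ⊕ Fin 2) ℂ →ₗ[ℂ] MvPolynomial (σ ⊕ Fin 2) ℂ) *
      ((pderiv (Sum.inr 1) : Derivation ℂ (MvPolynomial (σ ⊕ Fin 2) ℂ)
      (MvPolynomial (σ ⊕ Fin 2) ℂ)) :
      MvPolynomial (σ ⊕ Fin 2) ℂ →ₗ[ℂ] MvPolynomial (σ ⊕ Fin 2) ℂ)

theorem lap_mem : lap σ ∈ weylS (σ ⊕ Fin 2) :=
  (weylS _).mul_mem (weylS_pderiv _) (weylS_pderiv _)

theorem lap_apply (h : MvPolynomial σ ℂ) (k : ℕ) :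
    lap σ (rename Sum.inl h * (X (Sum.inr 0) * X (Sum.inr 1)) ^ k :
      MvPolynomial (σ ⊕ Fin 2) ℂ) =
      ((k : ℂ) ^ 2) • (rename Sum.inl h * (X (Sum.inr 0) * X (Sum.inr 1)) ^ (k - 1)) := by
  rw [lap, Module.End.mul_apply, Derivation.coeFn_coe, Derivation.coeFn_coe, pderiv_yt]

/-- The operator of the step. -/
noncomputable def stepOp (P' R : ℕ → Module.End ℂ (MvPolynomial (σ ⊕ Fin 2) ℂ)) :
    ℕ → Module.End ℂ (MvPolynomial (σ ⊕ Fin 2) ℂ) :=
  fun M => P' M + R M * lap σ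

theorem stepOp_mem {P' R : ℕ → Module.End ℂ (MvPolynomial (σ ⊕ Fin 2) ℂ)}
    (hP : P' ∈ fam (σ ⊕ Fin 2)) (hR : R ∈ fam (σ ⊕ Fin 2)) : stepOp P' R ∈ fam (σ ⊕ Fin 2) := by
  have h : stepOp P' R = P' + R * fun _ => lap σ := rfl
  rw [h]
  exact (fam _).add_mem hP ((fam _).mul_mem hR (fam_const lap_mem))

/-- The step: the functional equation of `F + y t`. -/
theorem bs1_step {F : MvPolynomial σ ℂ} {B : Polynomial ℂ} (h : BS1 F B) :
    BS1 (rename Sum.inl F + X (Sum.inr 0) * X (Sum.inr 1) : MvPolynomial (σ ⊕ Fin 2) ℂ)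
      (B.comp (Polynomial.X + 1)) := by
  obtain ⟨P, hP, h⟩ := h
  obtain ⟨P', hP', h'⟩ := fam_subst hP
  obtain ⟨R, hR, h''⟩ := exists_quot σ B
  refine ⟨stepOp P' R, stepOp_mem hP' hR, fun M => ?_⟩
  have key : ∀ m ≤ M, stepOp P' R M
      (rename Sum.inl F ^ m * (X (Sum.inr 0) * X (Sum.inr 1)) ^ (M - m)) =
      C ((m : ℂ) * B.eval ((m : ℂ) - 1)) * rename Sum.inl F ^ (m - 1) *
        (X (Sum.inr 0) * X (Sum.inr 1)) ^ (M - m) +
      C (((M - m : ℕ) : ℂ) * (B.eval (M : ℂ) - B.eval (m : ℂ))) * rename Sum.inl F ^ m *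
        (X (Sum.inr 0) * X (Sum.inr 1)) ^ (M - m - 1) := by
    intro m hm
    rw [stepOp, LinearMap.add_apply, ← map_pow]
    congr 1
    · have h1 := h' m (M - m) (F ^ m)
      rw [Nat.add_sub_cancel' hm] at h1
      rw [h1, h m]
      simp
    · rw [Module.End.mul_apply, lap_apply, map_smul, h'']
      rcases Nat.lt_or_ge m M with hlt | hge
      · obtain ⟨j, hj⟩ : ∃ j, M - m = j + 1 := ⟨M - m - 1, by omega⟩
        have hM : M = m + (j + 1) := by omega
        rw [hj, Nat.add_sub_cancel]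
        have e2 : (M : ℂ) - 1 - (j : ℂ) = m := by
          rw [hM]
          push_cast
          ring
        rw [e2]
        have hj' : ((j : ℂ) + 1) ≠ 0 := by
          have : ((j + 1 : ℕ) : ℂ) ≠ 0 := by
            exact_mod_cast Nat.succ_ne_zero j
          simpa using this
        rw [smul_smul, MvPolynomial.smul_eq_C_mul, ← mul_assoc]
        congr 3
        push_cast
        field_simp
      · have : M - m = 0 := by omega
        rw [this]
        simp
  have hsum : ∀ N : ℕ, (rename Sum.inl F + X (Sum.inr 0) * X (Sum.inr 1) :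
      MvPolynomial (σ ⊕ Fin 2) ℂ) ^ N = ∑ m ∈ Finset.range (N + 1),
      (N.choose m : ℂ) • (rename Sum.inl F ^ m * (X (Sum.inr 0) * X (Sum.inr 1)) ^ (N - m)) := by
    intro N
    rw [add_pow]
    refine Finset.sum_congr rfl fun m _ => ?_
    rw [MvPolynomial.smul_eq_C_mul, map_natCast]
    ring
  rw [hsum M, map_sum]
  have h2 : ∀ m ∈ Finset.range (M + 1), stepOp P' R M
      ((M.choose m : ℂ) •
        (rename Sum.inl F ^ m * (X (Sum.inr 0) * X (Sum.inr 1)) ^ (M - m))) =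
      C ((M.choose m : ℂ)) * (C ((m : ℂ) * B.eval ((m : ℂ) - 1)) * rename Sum.inl F ^ (m - 1) *
        (X (Sum.inr 0) * X (Sum.inr 1)) ^ (M - m)) +
      C ((M.choose m : ℂ)) * (C (((M - m : ℕ) : ℂ) * (B.eval (M : ℂ) - B.eval (m : ℂ))) *
        rename Sum.inl F ^ m * (X (Sum.inr 0) * X (Sum.inr 1)) ^ (M - m - 1)) := by
    intro m hm
    rw [map_smul, key m (by simpa [Nat.lt_succ_iff] using hm), MvPolynomial.smul_eq_C_mul, mul_add]
  rw [Finset.sum_congr rfl h2, Finset.sum_add_distrib]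
  rcases M with _ | N
  · simp
  · rw [Finset.sum_range_succ', Finset.sum_range_succ _ (N + 1)]
    simp only [Nat.cast_zero, zero_mul, map_zero, mul_zero, add_zero, Nat.sub_self,
      Nat.add_sub_cancel, Nat.add_sub_add_right]
    rw [hsum N, Finset.mul_sum, ← Finset.sum_add_distrib]
    refine Finset.sum_congr rfl fun m hm => ?_
    have hmN : m ≤ N := by simpa [Nat.lt_succ_iff] using hm
    have e3 : N + 1 - m - 1 = N - m := by omega
    rw [e3]
    have c1 : (((N + 1).choose (m + 1) : ℕ) : ℂ) * ((m + 1 : ℕ) : ℂ) =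
        ((N : ℂ) + 1) * (N.choose m : ℂ) := by
      have := Nat.add_one_mul_choose_eq N m
      have h3 := congrArg (fun n : ℕ => (n : ℂ)) this
      push_cast at h3 ⊢
      linear_combination -h3
    have c2 : (((N + 1).choose m : ℕ) : ℂ) * ((N + 1 - m : ℕ) : ℂ) =
        ((N : ℂ) + 1) * (N.choose m : ℂ) := by
      have := Nat.choose_mul_succ_eq N m
      have h3 := congrArg (fun n : ℕ => (n : ℂ)) this
      push_cast at h3 ⊢
      linear_combination -h3
    have e4 : (B.comp (Polynomial.X + 1)).eval (((N + 1 : ℕ) : ℂ) - 1) =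
        B.eval (((N + 1 : ℕ) : ℂ)) := by
      simp
    rw [e4]
    have e5 : (((m + 1 : ℕ) : ℂ) - 1) = m := by push_cast; ring
    rw [e5, MvPolynomial.smul_eq_C_mul]
    generalize (rename Sum.inl F : MvPolynomial (σ ⊕ Fin 2) ℂ) ^ m = G1
    generalize (X (Sum.inr 0) * X (Sum.inr 1) : MvPolynomial (σ ⊕ Fin 2) ℂ) ^ (N - m) = G2
    have e6 : C (((N + 1).choose (m + 1) : ℕ) : ℂ) *
        (C (((m + 1 : ℕ) : ℂ) * Polynomial.eval (m : ℂ) B) * G1 * G2) =
        C ((((N + 1).choose (m + 1) : ℕ) : ℂ) * ((m + 1 : ℕ) : ℂ) *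
          Polynomial.eval (m : ℂ) B) * (G1 * G2) := by
      simp only [map_mul]
      ring
    have e7 : C (((N + 1).choose m : ℕ) : ℂ) *
        (C (((N + 1 - m : ℕ) : ℂ) * (Polynomial.eval (((N + 1 : ℕ) : ℂ)) B -
          Polynomial.eval (m : ℂ) B)) * G1 * G2) =
        C ((((N + 1).choose m : ℕ) : ℂ) * ((N + 1 - m : ℕ) : ℂ) *
          (Polynomial.eval (((N + 1 : ℕ) : ℂ)) B - Polynomial.eval (m : ℂ) B)) * (G1 * G2) := by
      simp only [map_mul]
      ring
    rw [e6, e7, c1, c2, ← add_mul, ← map_add]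
    have e8 : C (((N + 1 : ℕ) : ℂ) * Polynomial.eval (((N + 1 : ℕ) : ℂ)) B) *
        (C (N.choose m : ℂ) * (G1 * G2)) = C (((N + 1 : ℕ) : ℂ) *
          Polynomial.eval (((N + 1 : ℕ) : ℂ)) B * (N.choose m : ℂ)) * (G1 * G2) := by
      simp only [map_mul]
      ring
    rw [e8]
    congr 2
    push_cast
    ring

/-- From the shifted equation to a `b`-function. -/
theorem isBFunction_of_bs1 {F : MvPolynomial σ ℂ} {B : Polynomial ℂ} (h : BS1 F B) :
    IsBFunction F ((Polynomial.X + 1) * B) := by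
  rw [isBFunction_iff]
  obtain ⟨P, hP, h⟩ := h
  refine ⟨_, fam_succ hP, fun s => ?_⟩
  rw [h (s + 1)]
  simp

end step

end Pool.Agent.W206.CU
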