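import Mathlib

set_option autoImplicit false

/-! Numbers of solutions of congruences modulo powers of a prime, for `F + y t` and `u f`. -/

namespace Pool.Agent.W206.CU

open MvPolynomial

/-- The number of zeros of `F` in `R ^ ρ`. -/
noncomputable def numIn (R : Type) [CommRing R] {ρ : Type} (F : MvPolynomial ρ ℤ) : ℕ :=
  Nat.card {x : ρ → R // aeval x F = 0}

/-- The number of points of `R ^ ρ` at which `F` is in the kernel of `π`. -/
noncomputable def numIn' {R S : Type} [CommRing R] [CommRing S] (π : R →+* S) {ρ : Type}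
    (F : MvPolynomial ρ ℤ) : ℕ :=
  Nat.card {x : ρ → R // π (aeval x F) = 0}

theorem aeval_aeval_equiv (R : Type) [CommRing R] {ρ ρ' : Type}
    (e : MvPolynomial ρ ℤ ≃ₐ[ℤ] MvPolynomial ρ' ℤ) (x : ρ' → R) (F : MvPolynomial ρ ℤ) :
    aeval (fun i => aeval x (e (X i))) F = aeval x (e F) := by
  have h : (aeval (fun i => aeval x (e (X i))) : MvPolynomial ρ ℤ →ₐ[ℤ] R) =
      (aeval x).comp e.toAlgHom := by
    apply MvPolynomial.algHom_ext
    intro i
    simp
  rw [h]
  rfl

/-- An isomorphism of polynomial rings gives a bijection of the points. -/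
noncomputable def ptsEquiv (R : Type) [CommRing R] {ρ ρ' : Type}
    (e : MvPolynomial ρ ℤ ≃ₐ[ℤ] MvPolynomial ρ' ℤ) : (ρ' → R) ≃ (ρ → R) where
  toFun x i := aeval x (e (X i))
  invFun x j := aeval x (e.symm (X j))
  left_inv x := by
    funext j
    beta_reduce
    rw [aeval_aeval_equiv, AlgEquiv.apply_symm_apply, aeval_X]
  right_inv x := by
    funext j
    beta_reduce
    rw [aeval_aeval_equiv, AlgEquiv.symm_apply_apply, aeval_X]

theorem numIn_iso (R : Type) [CommRing R] {ρ ρ' : Type}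
    (e : MvPolynomial ρ ℤ ≃ₐ[ℤ] MvPolynomial ρ' ℤ) (F : MvPolynomial ρ ℤ) :
    numIn R (e F) = numIn R F := by
  apply Nat.card_congr
  apply (ptsEquiv R e).subtypeEquiv
  intro x
  rw [← aeval_aeval_equiv]
  rfl

theorem card_eq_of_iso {ρ ρ' : Type} [Finite ρ] [Finite ρ']
    (e : MvPolynomial ρ ℤ ≃ₐ[ℤ] MvPolynomial ρ' ℤ) : Nat.card ρ = Nat.card ρ' := by
  have h := Nat.card_congr (ptsEquiv (ZMod 2) e)
  rw [Nat.card_fun, Nat.card_fun] at h
  simp only [Nat.card_zmod] at h
  exact (Nat.pow_right_injective le_rfl h).symm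

section general

variable {R S : Type} [CommRing R] [CommRing S] (π : R →+* S)

/-- The key count. -/
theorem key_count (hmin : ∀ y : R, y ≠ 0 → ∀ c : R, π c = 0 → ∃ z, c = y * z)
    {y : R} (hy : y ≠ 0) (v : R) :
    Nat.card {t : R // π (v + y * t) = 0} =
      Nat.card {c : R // π c = 0} * Nat.card {t : R // v + y * t = 0} := by
  classical
  rw [← Nat.card_prod]
  choose! z hz using hmin y hy
  refine Nat.card_congr
    { toFun := fun t => (⟨v + y * t.1, t.2⟩, ⟨t.1 - z (v + y * t.1), ?_⟩)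
      invFun := fun ct => ⟨ct.2.1 + z ct.1.1, ?_⟩
      left_inv := ?_
      right_inv := ?_ }
  · rw [mul_sub, ← hz _ t.2]
    ring
  · rw [mul_add, ← hz _ ct.1.2]
    have h2 := ct.2.2
    have h1 := ct.1.2
    have e : v + (y * ct.2.1 + ct.1.1) = (v + y * ct.2.1) + ct.1.1 := by ring
    rw [e, h2, zero_add, h1]
  · intro t
    simp
  · rintro ⟨⟨c, hc⟩, ⟨t, ht⟩⟩
    have e : v + y * (t + z c) = c := by
      rw [mul_add, ← hz _ hc, ← add_assoc, ht, zero_add]
    simp only [Prod.mk.injEq, Subtype.mk.injEq]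
    exact ⟨e, by rw [e]; ring⟩

/-- Fibres of the reduction map. -/
theorem numIn'_eq (hs : Function.Surjective π) {ρ : Type} [Finite ρ] (F : MvPolynomial ρ ℤ) :
    numIn' π F = numIn S F * Nat.card {c : R // π c = 0} ^ Nat.card ρ := by
  classical
  rw [← Nat.card_fun, numIn', numIn, ← Nat.card_prod]
  choose s hs using hs
  have hπ : ∀ x : ρ → R, π (aeval x F) = aeval (fun i => π (x i)) F := by
    intro x
    have h : (π.toIntAlgHom).comp (aeval x : MvPolynomial ρ ℤ →ₐ[ℤ] R) =
        aeval (fun i => π (x i)) := by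
      apply MvPolynomial.algHom_ext
      intro i
      simp
    rw [← h]
    rfl
  refine Nat.card_congr
    { toFun := fun x => (⟨fun i => π (x.1 i), by rw [← hπ]; exact x.2⟩,
        fun i => ⟨x.1 i - s (π (x.1 i)), by rw [map_sub, hs, sub_self]⟩)
      invFun := fun yc => ⟨fun i => s (yc.1.1 i) + (yc.2 i).1, ?_⟩
      left_inv := ?_
      right_inv := ?_ }
  · rw [hπ]
    have h2 := yc.1.2
    convert h2 using 3
    funext i
    rw [map_add, hs, (yc.2 _).2, add_zero]
  · intro x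
    simp
  · rintro ⟨⟨y, hy⟩, c⟩
    have e : ∀ i, π (s (y i) + (c i).1) = y i := by
      intro i
      rw [map_add, hs, (c i).2, add_zero]
    simp only [Prod.mk.injEq, Subtype.mk.injEq]
    refine ⟨funext e, funext fun i => ?_⟩
    apply Subtype.ext
    simp only [e]
    ring

theorem aeval_sum_rename {ρ ρ' : Type} (x : ρ → R) (z : ρ' → R) (F : MvPolynomial ρ ℤ) :
    aeval (Sum.elim x z) (rename Sum.inl F) = aeval x F := by
  rw [aeval_rename]
  rfl

theorem natCard_prod_sum {A B : Type} [Fintype A] [Finite B] (P : A → B → Prop) :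
    Nat.card {x : A × B // P x.1 x.2} = ∑ a, Nat.card {b : B // P a b} := by
  classical
  rw [← Nat.card_sigma]
  refine Nat.card_congr
    { toFun := fun x => ⟨x.1.1, ⟨x.1.2, x.2⟩⟩
      invFun := fun x => ⟨(x.1, x.2.1), x.2.2⟩
      left_inv := fun x => rfl
      right_inv := fun x => rfl }

theorem natCard_all {A : Type} (P : A → Prop) (h : ∀ a, P a) : Nat.card {a // P a} = Nat.card A :=
  Nat.card_congr (Equiv.subtypeUnivEquiv h)

theorem natCard_none {A : Type} (P : A → Prop) (h : ∀ a, ¬ P a) : Nat.card {a // P a} = 0 := by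
  have : IsEmpty {a // P a} := ⟨fun a => h a.1 a.2⟩
  exact Nat.card_of_isEmpty

/-- The number of zeros of `u f`. -/
theorem count_start [Finite R] (hmin : ∀ y : R, y ≠ 0 → ∀ c : R, π c = 0 → ∃ z, c = y * z)
    {ρ : Type} [Finite ρ] (f : MvPolynomial ρ ℤ) :
    Nat.card {c : R // π c = 0} * numIn R (X (Sum.inr ()) * rename Sum.inl f :
        MvPolynomial (ρ ⊕ Unit) ℤ) + Nat.card R * numIn R f =
      numIn' π (X (Sum.inr ()) * rename Sum.inl f : MvPolynomial (ρ ⊕ Unit) ℤ) +
        Nat.card {c : R // π c = 0} * Nat.card R * numIn R f := by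
  classical
  have := Fintype.ofFinite R
  have := Fintype.ofFinite ρ
  let E : (ρ → R) × R ≃ (ρ ⊕ Unit → R) :=
    ((Equiv.refl _).prodCongr (Equiv.funUnique Unit R).symm).trans
      (Equiv.sumArrowEquivProdArrow ρ Unit R).symm
  have hE : ∀ x : (ρ → R) × R, aeval (E x) (X (Sum.inr ()) * rename Sum.inl f :
      MvPolynomial (ρ ⊕ Unit) ℤ) = x.2 * aeval x.1 f := by
    intro x
    rw [map_mul, aeval_X]
    congr 1
    exact aeval_sum_rename _ _ _
  have h1 : numIn R (X (Sum.inr ()) * rename Sum.inl f : MvPolynomial (ρ ⊕ Unit) ℤ) =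
      ∑ x : ρ → R, Nat.card {u : R // u * aeval x f = 0} := by
    rw [← natCard_prod_sum fun (x : ρ → R) (u : R) => u * aeval x f = 0]
    refine (Nat.card_congr (E.subtypeEquiv fun x => ?_)).symm
    rw [hE]
  have h2 : numIn' π (X (Sum.inr ()) * rename Sum.inl f : MvPolynomial (ρ ⊕ Unit) ℤ) =
      ∑ x : ρ → R, Nat.card {u : R // π (u * aeval x f) = 0} := by
    rw [← natCard_prod_sum fun (x : ρ → R) (u : R) => π (u * aeval x f) = 0]
    refine (Nat.card_congr (E.subtypeEquiv fun x => ?_)).symm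
    rw [hE]
  have h3 : numIn R f = ∑ x : ρ → R, if aeval x f = 0 then 1 else 0 := by
    rw [numIn, Nat.card_eq_fintype_card, Fintype.card_subtype, Finset.card_filter]
  rw [h1, h2, h3, Finset.mul_sum, Finset.mul_sum, Finset.mul_sum, ← Finset.sum_add_distrib,
    ← Finset.sum_add_distrib]
  refine Finset.sum_congr rfl fun x _ => ?_
  by_cases hx : aeval x f = 0
  · rw [if_pos hx, hx, natCard_all (fun u : R => u * 0 = 0) (fun u => mul_zero u),
      natCard_all (fun u : R => π (u * 0) = 0) (fun u => by rw [mul_zero, map_zero])]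
    ring
  · rw [if_neg hx]
    have h4 := key_count π hmin hx 0
    simp only [zero_add] at h4
    have e1 : Nat.card {u : R // u * aeval x f = 0} = Nat.card {u : R // aeval x f * u = 0} := by
      simp only [mul_comm]
    have e2 : Nat.card {u : R // π (u * aeval x f) = 0} =
        Nat.card {u : R // π (aeval x f * u) = 0} := by
      simp only [mul_comm]
    rw [e1, e2, h4, mul_zero, mul_zero]

/-- The number of zeros of `F + y t`. -/
theorem count_step [Finite R] (hmin : ∀ y : R, y ≠ 0 → ∀ c : R, π c = 0 → ∃ z, c = y * z)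
    {ρ : Type} [Finite ρ] (F : MvPolynomial ρ ℤ) :
    Nat.card {c : R // π c = 0} * numIn R (rename Sum.inl F + X (Sum.inr 0) * X (Sum.inr 1) :
        MvPolynomial (ρ ⊕ Fin 2) ℤ) + Nat.card R * numIn' π F =
      numIn' π (rename Sum.inl F + X (Sum.inr 0) * X (Sum.inr 1) : MvPolynomial (ρ ⊕ Fin 2) ℤ) +
        Nat.card {c : R // π c = 0} * Nat.card R * numIn R F := by
  classical
  have := Fintype.ofFinite R
  have := Fintype.ofFinite ρ
  let E : (ρ → R) × (R × R) ≃ (ρ ⊕ Fin 2 → R) :=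
    ((Equiv.refl _).prodCongr (finTwoArrowEquiv R).symm).trans
      (Equiv.sumArrowEquivProdArrow ρ (Fin 2) R).symm
  have hE : ∀ x : (ρ → R) × (R × R), aeval (E x) (rename Sum.inl F +
      X (Sum.inr 0) * X (Sum.inr 1) : MvPolynomial (ρ ⊕ Fin 2) ℤ) =
      aeval x.1 F + x.2.1 * x.2.2 := by
    intro x
    rw [map_add, map_mul, aeval_X, aeval_X]
    congr 1
    exact aeval_sum_rename _ _ _
  have h1 : numIn R (rename Sum.inl F + X (Sum.inr 0) * X (Sum.inr 1) :
      MvPolynomial (ρ ⊕ Fin 2) ℤ) =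
      ∑ x : ρ → R, ∑ y : R, Nat.card {t : R // aeval x F + y * t = 0} := by
    have h : ∀ x : ρ → R, ∑ y : R, Nat.card {t : R // aeval x F + y * t = 0} =
        Nat.card {yt : R × R // aeval x F + yt.1 * yt.2 = 0} := fun x =>
      (natCard_prod_sum fun (y : R) (t : R) => aeval x F + y * t = 0).symm
    rw [Finset.sum_congr rfl fun x _ => h x,
      ← natCard_prod_sum fun (x : ρ → R) (yt : R × R) => aeval x F + yt.1 * yt.2 = 0]
    refine (Nat.card_congr (E.subtypeEquiv fun x => ?_)).symm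
    rw [hE]
  have h2 : numIn' π (rename Sum.inl F + X (Sum.inr 0) * X (Sum.inr 1) :
      MvPolynomial (ρ ⊕ Fin 2) ℤ) =
      ∑ x : ρ → R, ∑ y : R, Nat.card {t : R // π (aeval x F + y * t) = 0} := by
    have h : ∀ x : ρ → R, ∑ y : R, Nat.card {t : R // π (aeval x F + y * t) = 0} =
        Nat.card {yt : R × R // π (aeval x F + yt.1 * yt.2) = 0} := fun x =>
      (natCard_prod_sum fun (y : R) (t : R) => π (aeval x F + y * t) = 0).symm
    rw [Finset.sum_congr rfl fun x _ => h x,
      ← natCard_prod_sum fun (x : ρ → R) (yt : R × R) => π (aeval x F + yt.1 * yt.2) = 0]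
    refine (Nat.card_congr (E.subtypeEquiv fun x => ?_)).symm
    rw [hE]
  have h3 : numIn R F = ∑ x : ρ → R, if aeval x F = 0 then 1 else 0 := by
    rw [numIn, Nat.card_eq_fintype_card, Fintype.card_subtype, Finset.card_filter]
  have h4 : numIn' π F = ∑ x : ρ → R, if π (aeval x F) = 0 then 1 else 0 := by
    rw [numIn', Nat.card_eq_fintype_card, Fintype.card_subtype, Finset.card_filter]
  rw [h1, h2, h3, h4, Finset.mul_sum, Finset.mul_sum, Finset.mul_sum, ← Finset.sum_add_distrib,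
    ← Finset.sum_add_distrib]
  refine Finset.sum_congr rfl fun x _ => ?_
  rw [← Finset.add_sum_erase _ _ (Finset.mem_univ (0 : R)),
    ← Finset.add_sum_erase Finset.univ (fun y => Nat.card {t : R // π (aeval x F + y * t) = 0})
      (Finset.mem_univ (0 : R)), mul_add, Finset.mul_sum]
  have h5 : ∀ y ∈ Finset.univ.erase (0 : R), Nat.card {c : R // π c = 0} *
      Nat.card {t : R // aeval x F + y * t = 0} =
      Nat.card {t : R // π (aeval x F + y * t) = 0} := by
    intro y hy
    rw [key_count π hmin (Finset.ne_of_mem_erase hy)]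
  rw [Finset.sum_congr rfl h5]
  have h6 : Nat.card {t : R // aeval x F + 0 * t = 0} =
      Nat.card R * (if aeval x F = 0 then 1 else 0) := by
    split_ifs with h
    · rw [natCard_all _ (fun u => by simp [h]), mul_one]
    · rw [natCard_none _ (fun u => by simp [h]), mul_zero]
  have h7 : Nat.card {t : R // π (aeval x F + 0 * t) = 0} =
      Nat.card R * (if π (aeval x F) = 0 then 1 else 0) := by
    split_ifs with h
    · rw [natCard_all _ (fun u => by rw [zero_mul, add_zero, h]), mul_one]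
    · rw [natCard_none _ (fun u => by rw [zero_mul, add_zero]; exact h), mul_zero]
  rw [h6, h7]
  ring

end general

/-! ### Residue rings modulo powers of a prime -/

section prime

variable (p : ℕ) [Fact p.Prime]

instance (k : ℕ) : NeZero (p ^ k) := ⟨pow_ne_zero _ (Fact.out : p.Prime).ne_zero⟩

/-- The reduction map. -/
noncomputable def red (k : ℕ) : ZMod (p ^ (k + 1)) →+* ZMod (p ^ k) :=
  ZMod.castHom (pow_dvd_pow p (Nat.le_succ k)) (ZMod (p ^ k))

theorem red_surjective (k : ℕ) : Function.Surjective (red p k) :=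
  ZMod.ringHom_surjective _

theorem red_card (k : ℕ) : Nat.card {c : ZMod (p ^ (k + 1)) // red p k c = 0} = p := by
  have h := numIn'_eq (red p k) (red_surjective p k) (0 : MvPolynomial Unit ℤ)
  have h1 : numIn' (red p k) (0 : MvPolynomial Unit ℤ) = p ^ (k + 1) := by
    rw [numIn', natCard_all _ (by simp), Nat.card_fun]
    simp
  have h2 : numIn (ZMod (p ^ k)) (0 : MvPolynomial Unit ℤ) = p ^ k := by
    rw [numIn, natCard_all _ (by simp), Nat.card_fun]
    simp
  rw [h1, h2, Nat.card_unique (α := Unit), pow_one] at h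
  have h3 : p ^ k * p = p ^ k * Nat.card {c : ZMod (p ^ (k + 1)) // red p k c = 0} := by
    rw [← h, pow_succ]
  exact (Nat.eq_of_mul_eq_mul_left (pow_pos (Fact.out : p.Prime).pos k) h3).symm

theorem red_min (k : ℕ) (y : ZMod (p ^ (k + 1))) (hy : y ≠ 0) (c : ZMod (p ^ (k + 1)))
    (hc : red p k c = 0) : ∃ z, c = y * z := by
  have hp : p.Prime := Fact.out
  have h1 : p ^ k ∣ c.val := by
    have h2 : ((c.val : ℕ) : ZMod (p ^ k)) = 0 := by
      have h3 : red p k ((c.val : ℕ) : ZMod (p ^ (k + 1))) = 0 := by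
        rw [ZMod.natCast_zmod_val, hc]
      rwa [map_natCast] at h3
    exact (ZMod.natCast_eq_zero_iff _ _).1 h2
  obtain ⟨i, hi, hgi⟩ := (Nat.dvd_prime_pow hp).1 (Nat.gcd_dvd_right y.val (p ^ (k + 1)))
  have hik : i ≤ k := by
    by_contra hcon
    have hik : i = k + 1 := by omega
    subst hik
    have h4 : p ^ (k + 1) ∣ y.val := by
      have := Nat.gcd_dvd_left y.val (p ^ (k + 1))
      rwa [hgi] at this
    have h5 := Nat.le_of_dvd (Nat.pos_of_ne_zero ((ZMod.val_ne_zero y).2 hy)) h4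
    have h6 := ZMod.val_lt y
    omega
  have h7 : Nat.gcd y.val (p ^ (k + 1)) ∣ c.val := by
    rw [hgi]
    exact (pow_dvd_pow p hik).trans h1
  obtain ⟨d, hd⟩ := h7
  have h8 := Nat.gcd_eq_gcd_ab y.val (p ^ (k + 1))
  have h9 : ((Nat.gcd y.val (p ^ (k + 1)) : ℕ) : ZMod (p ^ (k + 1))) =
      y * (((Nat.gcdA y.val (p ^ (k + 1)) : ℤ)) : ZMod (p ^ (k + 1))) := by
    have h10 := congrArg (fun n : ℤ => (n : ZMod (p ^ (k + 1)))) h8
    simp only [Int.cast_natCast, Int.cast_add, Int.cast_mul] at h10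
    rw [h10, ZMod.natCast_zmod_val, ZMod.natCast_self, zero_mul, add_zero]
  refine ⟨(((Nat.gcdA y.val (p ^ (k + 1)) : ℤ)) : ZMod (p ^ (k + 1))) * (d : ZMod _), ?_⟩
  rw [← mul_assoc, ← h9, ← Nat.cast_mul, ← hd, ZMod.natCast_zmod_val]

/-- The density of the zeros of `F` modulo `p ^ k`. -/
noncomputable def dens {ρ : Type} (F : MvPolynomial ρ ℤ) (k : ℕ) : ℚ :=
  (numIn (ZMod (p ^ k)) F : ℚ) / ((p : ℚ) ^ k) ^ Nat.card ρ

theorem dens_iso {ρ ρ' : Type} [Finite ρ] [Finite ρ']
    (e : MvPolynomial ρ ℤ ≃ₐ[ℤ] MvPolynomial ρ' ℤ) (F : MvPolynomial ρ ℤ) (k : ℕ) :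
    dens p (e F) k = dens p F k := by
  rw [dens, dens, numIn_iso, card_eq_of_iso e]

theorem dens_zero {ρ : Type} [Finite ρ] (F : MvPolynomial ρ ℤ) : dens p F 0 = 1 := by
  have : Subsingleton (ZMod (p ^ 0)) := by
    rw [pow_zero]
    infer_instance
  rw [dens, numIn, natCard_all _ (fun x => Subsingleton.elim _ _), Nat.card_fun, Nat.card_zmod]
  simp

theorem dens_start {ρ : Type} [Finite ρ] (f : MvPolynomial ρ ℤ) (k : ℕ) :
    dens p (X (Sum.inr ()) * rename Sum.inl f : MvPolynomial (ρ ⊕ Unit) ℤ) (k + 1) -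
      dens p (X (Sum.inr ()) * rename Sum.inl f : MvPolynomial (ρ ⊕ Unit) ℤ) k / p =
      (1 - 1 / (p : ℚ)) * dens p f (k + 1) := by
  have hp : (p : ℚ) ≠ 0 := by
    exact_mod_cast (Fact.out : p.Prime).ne_zero
  have h := count_start (red p k) (red_min p k) f
  rw [numIn'_eq _ (red_surjective p k), red_card, Nat.card_zmod, Nat.card_sum,
    Nat.card_unique (α := Unit)] at h
  have h' := congrArg (fun n : ℕ => (n : ℚ)) h
  push_cast at h'
  rw [dens, dens, dens, Nat.card_sum, Nat.card_unique (α := Unit)]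
  generalize (numIn (ZMod (p ^ (k + 1))) (X (Sum.inr ()) * rename Sum.inl f :
    MvPolynomial (ρ ⊕ Unit) ℤ) : ℚ) = A at *
  generalize (numIn (ZMod (p ^ k)) (X (Sum.inr ()) * rename Sum.inl f :
    MvPolynomial (ρ ⊕ Unit) ℤ) : ℚ) = B at *
  generalize (numIn (ZMod (p ^ (k + 1))) f : ℚ) = D at *
  generalize Nat.card ρ = n at *
  have hQ : (p : ℚ) ^ k ≠ 0 := pow_ne_zero _ hp
  rw [pow_succ (p : ℚ) k, mul_pow, mul_pow, pow_succ, pow_succ]
  rw [pow_succ (p : ℚ) k, pow_succ (p : ℚ) n] at h'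
  generalize (p : ℚ) ^ k = Q at *
  have hx : Q ^ n ≠ 0 := pow_ne_zero _ hQ
  have hy : (p : ℚ) ^ n ≠ 0 := pow_ne_zero _ hp
  generalize Q ^ n = x at *
  generalize (p : ℚ) ^ n = y at *
  have h'' : A + Q * D = B * y + Q * p * D := mul_left_cancel₀ hp (by linear_combination h')
  field_simp
  linear_combination h''

theorem dens_step {ρ : Type} [Finite ρ] (F : MvPolynomial ρ ℤ) (k : ℕ) :
    dens p (rename Sum.inl F + X (Sum.inr 0) * X (Sum.inr 1) : MvPolynomial (ρ ⊕ Fin 2) ℤ) (k + 1) -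
      dens p (rename Sum.inl F + X (Sum.inr 0) * X (Sum.inr 1) : MvPolynomial (ρ ⊕ Fin 2) ℤ) k / p =
      (1 / (p : ℚ)) ^ (k + 1) * (dens p F (k + 1) - dens p F k / p) := by
  have hp : (p : ℚ) ≠ 0 := by
    exact_mod_cast (Fact.out : p.Prime).ne_zero
  have h := count_step (red p k) (red_min p k) F
  rw [numIn'_eq _ (red_surjective p k), numIn'_eq _ (red_surjective p k), red_card, Nat.card_zmod,
    Nat.card_sum, Nat.card_fin] at h
  have h' := congrArg (fun n : ℕ => (n : ℚ)) h
  push_cast at h'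
  rw [dens, dens, dens, dens, Nat.card_sum, Nat.card_fin]
  generalize (numIn (ZMod (p ^ (k + 1))) (rename Sum.inl F + X (Sum.inr 0) * X (Sum.inr 1) :
    MvPolynomial (ρ ⊕ Fin 2) ℤ) : ℚ) = A at *
  generalize (numIn (ZMod (p ^ k)) (rename Sum.inl F + X (Sum.inr 0) * X (Sum.inr 1) :
    MvPolynomial (ρ ⊕ Fin 2) ℤ) : ℚ) = B at *
  generalize (numIn (ZMod (p ^ (k + 1))) F : ℚ) = D at *
  generalize (numIn (ZMod (p ^ k)) F : ℚ) = E at *
  generalize Nat.card ρ = n at *
  have hQ : (p : ℚ) ^ k ≠ 0 := pow_ne_zero _ hp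
  rw [one_div, inv_pow, pow_succ (p : ℚ) k, mul_pow, mul_pow, pow_add, pow_add]
  rw [pow_succ (p : ℚ) k, pow_add] at h'
  generalize (p : ℚ) ^ k = Q at *
  have hx : Q ^ n ≠ 0 := pow_ne_zero _ hQ
  have hy : (p : ℚ) ^ n ≠ 0 := pow_ne_zero _ hp
  generalize Q ^ n = x at *
  generalize (p : ℚ) ^ n = y at *
  have h'' : A + Q * (E * y) = B * (y * p) + Q * p * D :=
    mul_left_cancel₀ hp (by linear_combination h')
  field_simp
  linear_combination h''

end prime

end Pool.Agent.W206.CU
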