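import Mathlib

set_option autoImplicit false

/-! Reduction of an integer polynomial to a cubic one of the shape `∑ t_j q_j(x)` with `q_j`
quadratic, by the moves `F ↦ F + (y - a) (t + e)` with new variables `y`, `t`. -/

namespace Pool.Agent.W206.CU

open MvPolynomial

/-- The polynomial `∑_j t_j q_j(x)` in the variables `x` and `t`. -/
noncomputable def quadSum {n k : ℕ} (q : Fin k → MvPolynomial (Fin n) ℤ) :
    MvPolynomial (Fin n ⊕ Fin k) ℤ :=
  ∑ j, X (Sum.inr j) * rename Sum.inl (q j)

/-- A property of pairs (number of moves, polynomial) preserved by isomorphisms of polynomial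
rings and by adding the product of two new variables. -/
structure Chain (PP : ∀ (ρ : Type) [Finite ρ], ℕ → MvPolynomial ρ ℤ → Prop) : Prop where
  iso : ∀ (ρ ρ' : Type) [Finite ρ] [Finite ρ'] (e : MvPolynomial ρ ℤ ≃ₐ[ℤ] MvPolynomial ρ' ℤ)
    (m : ℕ) (F : MvPolynomial ρ ℤ), PP ρ m F → PP ρ' m (e F)
  step : ∀ (ρ : Type) [Finite ρ] (m : ℕ) (F : MvPolynomial ρ ℤ), PP ρ m F →
    PP (ρ ⊕ Fin 2) (m + 1) (rename Sum.inl F + X (Sum.inr 0) * X (Sum.inr 1))

theorem aeval_elim_rename {ρ : Type} (v : Fin 2 → MvPolynomial (ρ ⊕ Fin 2) ℤ)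
    (a : MvPolynomial ρ ℤ) :
    aeval (Sum.elim (fun i => X (Sum.inl i)) v) (rename Sum.inl a) = rename Sum.inl a := by
  induction a using MvPolynomial.induction_on with
  | C c => rw [rename_C, ← algebraMap_eq, AlgHom.commutes]
  | add p q hp hq => rw [map_add, map_add, hp, hq]
  | mul_X p i hp => rw [map_mul, map_mul, hp, rename_X, aeval_X, Sum.elim_inl]

/-- The automorphism `y ↦ y - a`, `t ↦ t + e`. -/
noncomputable def shear {ρ : Type} (a e : MvPolynomial ρ ℤ) :
    MvPolynomial (ρ ⊕ Fin 2) ℤ ≃ₐ[ℤ] MvPolynomial (ρ ⊕ Fin 2) ℤ :=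
  AlgEquiv.ofAlgHom
    (aeval (Sum.elim (fun i => X (Sum.inl i))
      ![X (Sum.inr 0) - rename Sum.inl a, X (Sum.inr 1) + rename Sum.inl e]))
    (aeval (Sum.elim (fun i => X (Sum.inl i))
      ![X (Sum.inr 0) + rename Sum.inl a, X (Sum.inr 1) - rename Sum.inl e]))
    (by
      apply MvPolynomial.algHom_ext
      rintro (i | i)
      · rw [AlgHom.comp_apply, aeval_X, Sum.elim_inl, aeval_X, Sum.elim_inl, AlgHom.id_apply]
      · fin_cases i
        · rw [AlgHom.comp_apply, aeval_X, Sum.elim_inr]
          simp only [Fin.zero_eta, Matrix.cons_val_zero, map_add, aeval_elim_rename, aeval_X,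
            Sum.elim_inr, AlgHom.id_apply, sub_add_cancel]
        · rw [AlgHom.comp_apply, aeval_X, Sum.elim_inr]
          simp only [Fin.mk_one, Matrix.cons_val_one, Matrix.cons_val_fin_one, map_sub,
            aeval_elim_rename, aeval_X, Sum.elim_inr, AlgHom.id_apply, add_sub_cancel_right])
    (by
      apply MvPolynomial.algHom_ext
      rintro (i | i)
      · rw [AlgHom.comp_apply, aeval_X, Sum.elim_inl, aeval_X, Sum.elim_inl, AlgHom.id_apply]
      · fin_cases i
        · rw [AlgHom.comp_apply, aeval_X, Sum.elim_inr]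
          simp only [Fin.zero_eta, Matrix.cons_val_zero, map_sub, aeval_elim_rename, aeval_X,
            Sum.elim_inr, AlgHom.id_apply, add_sub_cancel_right]
        · rw [AlgHom.comp_apply, aeval_X, Sum.elim_inr]
          simp only [Fin.mk_one, Matrix.cons_val_one, Matrix.cons_val_fin_one, map_add,
            aeval_elim_rename, aeval_X, Sum.elim_inr, AlgHom.id_apply, sub_add_cancel])

theorem shear_rename {ρ : Type} (a e h : MvPolynomial ρ ℤ) :
    shear a e (rename Sum.inl h) = rename Sum.inl h :=
  aeval_elim_rename _ h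

theorem shear_y {ρ : Type} (a e : MvPolynomial ρ ℤ) :
    shear a e (X (Sum.inr 0)) = X (Sum.inr 0) - rename Sum.inl a := by
  change aeval _ _ = _
  rw [aeval_X]
  rfl

theorem shear_t {ρ : Type} (a e : MvPolynomial ρ ℤ) :
    shear a e (X (Sum.inr 1)) = X (Sum.inr 1) + rename Sum.inl e := by
  change aeval _ _ = _
  rw [aeval_X]
  rfl

variable {PP : ∀ (ρ : Type) [Finite ρ], ℕ → MvPolynomial ρ ℤ → Prop}

theorem Chain.shear (hc : Chain PP) {ρ : Type} [Finite ρ] {m : ℕ} {F : MvPolynomial ρ ℤ}
    (h : PP ρ m F) (a e : MvPolynomial ρ ℤ) :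
    PP (ρ ⊕ Fin 2) (m + 1) (rename Sum.inl F +
      (X (Sum.inr 0) - rename Sum.inl a) * (X (Sum.inr 1) + rename Sum.inl e)) := by
  have h1 := hc.iso _ _ (CU.shear a e) _ _ (hc.step ρ m F h)
  rwa [map_add, map_mul, shear_rename, shear_y, shear_t] at h1

/-- The polynomial of a list of monomials `c t x ⋯ x`. -/
noncomputable def lp {σ τ : Type} (L : List (ℤ × τ × List σ)) : MvPolynomial (σ ⊕ τ) ℤ :=
  (L.map fun c => C c.1 * X (Sum.inr c.2.1) * (c.2.2.map fun i => X (Sum.inl i)).prod).sum

theorem lp_nil {σ τ : Type} : lp ([] : List (ℤ × τ × List σ)) = 0 := by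
  simp [lp]

theorem lp_cons {σ τ : Type} (c : ℤ × τ × List σ) (L : List (ℤ × τ × List σ)) :
    lp (c :: L) = C c.1 * X (Sum.inr c.2.1) * (c.2.2.map fun i => X (Sum.inl i)).prod + lp L := by
  simp [lp]

theorem lp_append {σ τ : Type} (L L' : List (ℤ × τ × List σ)) :
    lp (L ++ L') = lp L + lp L' := by
  simp [lp]

/-- Raising a term to the variables `Option σ`, `Option τ`. -/
def lift {σ τ : Type} (c : ℤ × τ × List σ) : ℤ × Option τ × List (Option σ) :=
  (c.1, some c.2.1, c.2.2.map some)

/-- The renaming `(σ ⊕ τ) ⊕ {y, t} ≃ Option σ ⊕ Option τ`. -/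
def ren (σ τ : Type) : (σ ⊕ τ) ⊕ Fin 2 ≃ Option σ ⊕ Option τ where
  toFun := Sum.elim (Sum.map some some) ![Sum.inl none, Sum.inr none]
  invFun := Sum.elim (fun o => o.elim (Sum.inr 0) fun i => Sum.inl (Sum.inl i))
    (fun o => o.elim (Sum.inr 1) fun i => Sum.inl (Sum.inr i))
  left_inv := by
    rintro ((i | j) | k)
    · rfl
    · rfl
    · fin_cases k <;> rfl
  right_inv := by
    rintro ((_ | i) | (_ | j)) <;> rfl

theorem rename_lp {σ τ : Type} (L : List (ℤ × τ × List σ)) :
    rename (ren σ τ) (rename Sum.inl (lp L)) = lp (L.map lift) := by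
  induction L with
  | nil => simp [lp_nil]
  | cons c L ih =>
    rw [List.map_cons, lp_cons, lp_cons, map_add, map_add, ih]
    congr 1
    simp only [map_mul, rename_C, rename_X, map_list_prod, List.map_map, lift]
    congr 1
    congr 2
    funext i
    simp only [Function.comp_apply, rename_X]
    rfl

theorem Chain.lpStep (hc : Chain PP) {σ τ : Type} [Finite σ] [Finite τ] {m : ℕ}
    {L : List (ℤ × τ × List σ)} (h : PP (σ ⊕ τ) m (lp L)) (a e : MvPolynomial (σ ⊕ τ) ℤ) :
    PP (Option σ ⊕ Option τ) (m + 1) (lp (L.map lift) +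
      (X (Sum.inl none) - rename (ren σ τ) (rename Sum.inl a)) *
      (X (Sum.inr none) + rename (ren σ τ) (rename Sum.inl e))) := by
  have h1 := hc.iso _ _ (renameEquiv ℤ (ren σ τ)) _ _ (hc.shear h a e)
  rw [renameEquiv_apply, map_add, rename_lp, map_mul, map_sub, map_add, rename_X, rename_X] at h1
  exact h1

/-- The coefficients are `1` or `-1`. -/
def Signs {σ τ : Type} (L : List (ℤ × τ × List σ)) : Prop := ∀ c ∈ L, c.1 = 1 ∨ c.1 = -1

/-- The monomial of a term. -/
def key {σ τ : Type} (c : ℤ × τ × List σ) : τ × Multiset σ := (c.2.1, (c.2.2 : Multiset σ))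

/-- The monomials are distinct. -/
def Dist {σ τ : Type} (L : List (ℤ × τ × List σ)) : Prop := (L.map key).Nodup

/-- Raising a monomial. -/
def liftKey {σ τ : Type} (k : τ × Multiset σ) : Option τ × Multiset (Option σ) :=
  (some k.1, k.2.map some)

theorem key_lift {σ τ : Type} (c : ℤ × τ × List σ) : key (lift c) = liftKey (key c) := by
  simp [key, lift, liftKey]

theorem liftKey_injective {σ τ : Type} : Function.Injective (liftKey (σ := σ) (τ := τ)) := by
  rintro ⟨a, b⟩ ⟨a', b'⟩ h
  simp only [liftKey, Prod.mk.injEq, Option.some.injEq] at h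
  rw [h.1, Multiset.map_injective (Option.some_injective _) h.2]

theorem signs_lift {σ τ : Type} {L : List (ℤ × τ × List σ)} (h : Signs L) :
    Signs (L.map lift) := by
  intro c hc
  obtain ⟨d, hd, rfl⟩ := List.mem_map.1 hc
  exact h d hd

theorem dist_lift {σ τ : Type} {L : List (ℤ × τ × List σ)} (h : Dist L) :
    Dist (L.map lift) := by
  rw [Dist, List.map_map] at *
  have e : (key ∘ lift : ℤ × τ × List σ → _) = liftKey ∘ key := by
    funext c
    exact key_lift c
  rw [e, ← List.map_map]
  exact h.map liftKey_injective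

theorem signs_cons {σ τ : Type} {c : ℤ × τ × List σ} {L : List (ℤ × τ × List σ)}
    (hc : c.1 = 1 ∨ c.1 = -1) (h : Signs L) : Signs (c :: L) := by
  intro d hd
  rcases List.mem_cons.1 hd with rfl | hd
  · exact hc
  · exact h d hd

theorem signs_append {σ τ : Type} {L L' : List (ℤ × τ × List σ)} :
    Signs (L ++ L') ↔ Signs L ∧ Signs L' := by
  simp only [Signs, List.mem_append, or_imp, forall_and]

theorem dist_cons {σ τ : Type} {c : ℤ × τ × List σ} {L : List (ℤ × τ × List σ)}
    (hc : ∀ d ∈ L, key d ≠ key c) (h : Dist L) : Dist (c :: L) := by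
  rw [Dist, List.map_cons, List.nodup_cons]
  refine ⟨fun hm => ?_, h⟩
  obtain ⟨d, hd, he⟩ := List.mem_map.1 hm
  exact hc d hd he

theorem none_notMem_lift {σ τ : Type} {L : List (ℤ × τ × List σ)} {d : ℤ × Option τ × List (Option σ)}
    (hd : d ∈ L.map lift) : (none : Option σ) ∉ (key d).2 ∧ (key d).1 ≠ none := by
  obtain ⟨c, _, rfl⟩ := List.mem_map.1 hd
  simp [key, lift]

/-- The total excess of the degrees in `x` over two. -/
def excess {σ τ : Type} (L : List (ℤ × τ × List σ)) : ℕ :=
  (L.map fun c => c.2.2.length - 2).sum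

theorem excess_cons {σ τ : Type} (c : ℤ × τ × List σ) (L : List (ℤ × τ × List σ)) :
    excess (c :: L) = (c.2.2.length - 2) + excess L := by
  simp [excess]

theorem excess_append {σ τ : Type} (L L' : List (ℤ × τ × List σ)) :
    excess (L ++ L') = excess L + excess L' := by
  simp [excess]

theorem excess_lift {σ τ : Type} (L : List (ℤ × τ × List σ)) :
    excess (L.map lift) = excess L := by
  simp [excess, lift, Function.comp_def]

/-- One move lowers the excess. -/
theorem Chain.reduce (hc : Chain PP) {σ τ : Type} [Finite σ] [Finite τ] {m : ℕ}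
    {L : List (ℤ × τ × List σ)} (h : PP (σ ⊕ τ) m (lp L)) (hL : ∃ c ∈ L, 2 < c.2.2.length)
    (hs : Signs L) (hd : Dist L) :
    ∃ L' : List (ℤ × Option τ × List (Option σ)), excess L' < excess L ∧ Signs L' ∧ Dist L' ∧
      PP (Option σ ⊕ Option τ) (m + 1) (lp L') := by
  obtain ⟨⟨c, t, l⟩, hcL, hl⟩ := hL
  obtain ⟨s, s', rfl⟩ := List.append_of_mem hcL
  simp only at hl
  match l, hl with
  | i :: j :: k :: l, hl =>
    refine ⟨(1, none, [none]) :: (-1, none, [some i, some j]) ::
      (c, some t, none :: some k :: l.map some) :: (s ++ s').map lift, ?_, ?_, ?_, ?_⟩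
    · simp only [excess_cons, excess_append, List.map_append, excess_lift, List.length_cons,
        List.length_nil, List.length_map]
      omega
    · have h1 : Signs (s ++ s') := fun d hd' => hs d (by
        rcases List.mem_append.1 hd' with h' | h'
        · exact List.mem_append_left _ h'
        · exact List.mem_append_right _ (List.mem_cons_of_mem _ h'))
      refine signs_cons (Or.inl rfl) (signs_cons (Or.inr rfl) (signs_cons ?_ (signs_lift h1)))
      exact hs (c, t, i :: j :: k :: l) hcL
    · have h1 : Dist (s ++ s') := by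
        rw [Dist] at hd ⊢
        refine hd.sublist ?_
        apply List.Sublist.map
        exact List.Sublist.append (List.Sublist.refl s) (List.sublist_cons_self _ _)
      refine dist_cons ?_ (dist_cons ?_ (dist_cons ?_ (dist_lift h1)))
      · intro d hd' he
        rcases List.mem_cons.1 hd' with rfl | hd'
        · simp [key] at he
        · rcases List.mem_cons.1 hd' with rfl | hd'
          · simp [key] at he
          · exact (none_notMem_lift hd').2 (by rw [he]; rfl)
      · intro d hd' he
        rcases List.mem_cons.1 hd' with rfl | hd'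
        · simp [key] at he
        · exact (none_notMem_lift hd').2 (by rw [he]; rfl)
      · intro d hd' he
        apply (none_notMem_lift hd').1
        rw [he]
        simp [key]
    · have h1 := hc.lpStep h (X (Sum.inl i) * X (Sum.inl j))
        (C c * X (Sum.inr t) * (X (Sum.inl k) * (l.map fun i => X (Sum.inl i)).prod))
      convert h1 using 1
      simp only [List.map_append, List.map_cons, lp_append, lp_cons, lift, List.prod_cons,
        List.prod_nil, List.map_nil, List.map_map, map_mul, rename_C, rename_X, map_list_prod,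
        Function.comp_def]
      simp only [ren, Equiv.coe_fn_mk, Sum.elim_inl, Sum.map_inl, Sum.map_inr, map_one, map_neg]
      ring

/-- A move which replaces a monomial by a new variable. -/
theorem Chain.replace (hc : Chain PP) {σ τ : Type} [Finite σ] [Finite τ] {m : ℕ}
    {c : ℤ × τ × List σ} {U V : List (ℤ × τ × List σ)} (h : PP (σ ⊕ τ) m (lp ((c :: U) ++ V))) :
    PP (Option σ ⊕ Option τ) (m + 1) (lp (U.map lift ++ ((c.1, some c.2.1, [none]) ::
      (1, none, [none]) :: (-1, none, c.2.2.map some) :: V.map lift))) := by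
  have h1 := hc.lpStep h ((c.2.2.map fun i => X (Sum.inl i)).prod) (C c.1 * X (Sum.inr c.2.1))
  convert h1 using 1
  simp only [List.map_append, List.map_cons, lp_append, lp_cons, lift, List.prod_cons,
    List.prod_nil, List.map_nil, List.map_map, map_mul, rename_C, rename_X, map_list_prod,
    Function.comp_def]
  simp only [ren, Equiv.coe_fn_mk, Sum.elim_inl, Sum.map_inl, Sum.map_inr, map_one, map_neg]
  ring

theorem Chain.distinct (hc : Chain PP) (N : ℕ) {σ τ : Type} [Finite σ] [Finite τ] {m : ℕ}
    {U V : List (ℤ × τ × List σ)} (hU : U.length = N) (hs : Signs (U ++ V)) (hd : Dist V)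
    (h : PP (σ ⊕ τ) m (lp (U ++ V))) :
    ∃ (σ' τ' : Type) (_ : Finite σ') (_ : Finite τ') (L' : List (ℤ × τ' × List σ')) (m' : ℕ),
      m ≤ m' ∧ Signs L' ∧ Dist L' ∧ PP (σ' ⊕ τ') m' (lp L') := by
  induction N generalizing σ τ m with
  | zero =>
    rw [List.length_eq_zero_iff] at hU
    subst hU
    exact ⟨σ, τ, inferInstance, inferInstance, V, m, le_rfl, hs, hd, h⟩
  | succ N ih =>
    obtain ⟨c, U', rfl⟩ := List.exists_cons_of_length_eq_add_one hU
    have h1 := hc.replace h
    rw [List.length_cons, Nat.add_right_cancel_iff] at hU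
    have hs' : Signs (U' ++ V) := fun d hd' => hs d (List.mem_cons_of_mem _ hd')
    have hcs : c.1 = 1 ∨ c.1 = -1 := hs c (List.mem_cons_self)
    obtain ⟨h2, h3⟩ := signs_append.1 hs'
    obtain ⟨σ'', τ'', i1, i2, L'', m', hm, h4, h5, h6⟩ := ih (by rw [List.length_map, hU])
      (signs_append.2 ⟨signs_lift h2, signs_cons hcs (signs_cons (Or.inl rfl)
        (signs_cons (Or.inr rfl) (signs_lift h3)))⟩) (by
        refine dist_cons ?_ (dist_cons ?_ (dist_cons ?_ (dist_lift hd)))
        · intro d hd' he
          rcases List.mem_cons.1 hd' with rfl | hd'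
          · simp [key] at he
          · rcases List.mem_cons.1 hd' with rfl | hd'
            · simp [key] at he
            · apply (none_notMem_lift hd').1
              rw [he]
              simp [key]
        · intro d hd' he
          rcases List.mem_cons.1 hd' with rfl | hd'
          · have h8 : (none : Option σ) ∈ (key ((-1 : ℤ), (none : Option τ),
                c.2.2.map some)).2 := by
              rw [he]
              simp [key]
            simp [key] at h8
          · exact (none_notMem_lift hd').2 (by rw [he]; rfl)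
        · intro d hd' he
          exact (none_notMem_lift hd').2 (by rw [he]; rfl)) h1
    exact ⟨σ'', τ'', i1, i2, L'', m', by omega, h4, h5, h6⟩

/-- A move which only adds the product `y t`. -/
theorem Chain.dummy (hc : Chain PP) {σ τ : Type} [Finite σ] [Finite τ] {m : ℕ}
    {L : List (ℤ × τ × List σ)} (hs : Signs L) (h : PP (σ ⊕ τ) m (lp L)) :
    ∃ L' : List (ℤ × Option τ × List (Option σ)),
      Signs L' ∧ PP (Option σ ⊕ Option τ) (m + 1) (lp L') := by
  refine ⟨(1, none, [none]) :: L.map lift, signs_cons (Or.inl rfl) (signs_lift hs), ?_⟩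
  have h1 := hc.lpStep h 0 0
  convert h1 using 1
  simp only [lp_cons, List.map_cons, List.map_nil, List.prod_cons, List.prod_nil, map_one,
    map_zero]
  ring

theorem Chain.dummies (hc : Chain PP) (N : ℕ) {σ τ : Type} [Finite σ] [Finite τ] {m : ℕ}
    {L : List (ℤ × τ × List σ)} (hs : Signs L) (h : PP (σ ⊕ τ) m (lp L)) :
    ∃ (σ' τ' : Type) (_ : Finite σ') (_ : Finite τ') (L' : List (ℤ × τ' × List σ')),
      Signs L' ∧ PP (σ' ⊕ τ') (m + N) (lp L') := by
  induction N generalizing σ τ m with
  | zero => exact ⟨σ, τ, inferInstance, inferInstance, L, hs, h⟩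
  | succ N ih =>
    obtain ⟨L', hs', h'⟩ := hc.dummy hs h
    obtain ⟨σ'', τ'', i1, i2, L'', hs'', h''⟩ := ih hs' h'
    refine ⟨σ'', τ'', i1, i2, L'', hs'', ?_⟩
    have e : m + (N + 1) = m + 1 + N := by ring
    rw [e]
    exact h''

theorem Chain.quadratic (hc : Chain PP) {σ τ : Type} [Finite σ] [Finite τ] {m : ℕ}
    {L : List (ℤ × τ × List σ)} (hs : Signs L) (hd : Dist L) (h : PP (σ ⊕ τ) m (lp L)) :
    ∃ (σ' τ' : Type) (_ : Finite σ') (_ : Finite τ') (L' : List (ℤ × τ' × List σ')) (m' : ℕ),
      m ≤ m' ∧ (∀ c ∈ L', c.2.2.length ≤ 2) ∧ Signs L' ∧ Dist L' ∧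
        PP (σ' ⊕ τ') m' (lp L') := by
  induction hN : excess L using Nat.strong_induction_on generalizing σ τ m with
  | _ N ih =>
    by_cases hL : ∃ c ∈ L, 2 < c.2.2.length
    · obtain ⟨L', hlt, hs', hd', h'⟩ := hc.reduce h hL hs hd
      obtain ⟨σ'', τ'', i1, i2, L'', m', hm, h2, h3, h4, h5⟩ := ih _ (hN ▸ hlt) hs' hd' h' rfl
      exact ⟨σ'', τ'', i1, i2, L'', m', by omega, h2, h3, h4, h5⟩
    · push Not at hL
      exact ⟨σ, τ, inferInstance, inferInstance, L, m, le_rfl, hL, hs, hd, h⟩

/-- The exponent of a list of variables. -/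
noncomputable def expo {n : ℕ} (l : List (Fin n)) : Fin n →₀ ℕ :=
  Multiset.toFinsupp (l : Multiset (Fin n))

theorem C_mul_prod {n : ℕ} (c : ℤ) (l : List (Fin n)) :
    (C c * (l.map fun i => X i).prod : MvPolynomial (Fin n) ℤ) = monomial (expo l) c := by
  induction l with
  | nil =>
    rw [List.map_nil, List.prod_nil, mul_one, expo, Multiset.coe_nil, map_zero]
    rfl
  | cons i l ih =>
    rw [List.map_cons, List.prod_cons, mul_left_comm, ih, X, monomial_mul, one_mul]
    congr 1
    rw [expo, expo, ← Multiset.cons_coe, ← Multiset.singleton_add, map_add,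
      Multiset.toFinsupp_singleton]

/-- The sum of the coefficients of the terms with a given monomial. -/
theorem sum_match {σ τ : Type} (M : τ × Multiset σ → Prop) [DecidablePred M]
    (hM : ∀ k k', M k → M k' → k = k') (L : List (ℤ × τ × List σ)) (hs : Signs L) (hd : Dist L) :
    (L.map fun c => if M (key c) then c.1 else 0).sum = 0 ∨
      (L.map fun c => if M (key c) then c.1 else 0).sum = 1 ∨
      (L.map fun c => if M (key c) then c.1 else 0).sum = -1 := by
  induction L with
  | nil => simp
  | cons c L ih =>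
    have hs' : Signs L := fun d hd' => hs d (List.mem_cons_of_mem _ hd')
    rw [Dist, List.map_cons, List.nodup_cons] at hd
    rw [List.map_cons, List.sum_cons]
    by_cases hc : M (key c)
    · have h0 : (L.map fun c => if M (key c) then c.1 else 0).sum = 0 := by
        apply List.sum_eq_zero
        intro x hx
        obtain ⟨d, hd', rfl⟩ := List.mem_map.1 hx
        rw [if_neg]
        intro hMd
        apply hd.1
        rw [hM _ _ hc hMd]
        exact List.mem_map_of_mem hd'
      rw [h0, if_pos hc, add_zero]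
      right
      exact hs c (List.mem_cons_self)
    · rw [if_neg hc, zero_add]
      exact ih hs' hd.2

/-- A list with monomials of degree at most two in `x` gives a sum `∑ t_j q_j(x)`. -/
theorem exists_quadSum {σ τ : Type} {n k : ℕ} (e : σ → Fin n) (e' : τ → Fin k)
    (he : Function.Injective e) (he' : Function.Injective e')
    (L : List (ℤ × τ × List σ)) (hL : ∀ c ∈ L, c.2.2.length ≤ 2) (hs : Signs L) (hd : Dist L) :
    ∃ q : Fin k → MvPolynomial (Fin n) ℤ, (∀ j, (q j).totalDegree ≤ 2) ∧
      (∀ j d, (q j).coeff d = 0 ∨ (q j).coeff d = 1 ∨ (q j).coeff d = -1) ∧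
      rename (Sum.map e e') (lp L) = quadSum q := by
  classical
  suffices H : ∃ q : Fin k → MvPolynomial (Fin n) ℤ, (∀ j, (q j).totalDegree ≤ 2) ∧
      (∀ j d, (q j).coeff d =
        (L.map fun c => if e' c.2.1 = j ∧ expo (c.2.2.map e) = d then c.1 else 0).sum) ∧
      rename (Sum.map e e') (lp L) = quadSum q by
    obtain ⟨q, h1, h2, h3⟩ := H
    refine ⟨q, h1, fun j d => ?_, h3⟩
    rw [h2]
    have h4 := sum_match (fun k : τ × Multiset σ => e' k.1 = j ∧
      Multiset.toFinsupp (k.2.map e) = d) (by
        rintro ⟨t, l⟩ ⟨t', l'⟩ ⟨h5, h6⟩ ⟨h7, h8⟩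
        simp only at h5 h6 h7 h8
        have h9 : t = t' := he' (h5.trans h7.symm)
        have h10 : l.map e = l'.map e := by
          apply Multiset.toFinsupp.injective
          rw [h6, h8]
        rw [h9, Multiset.map_injective he h10]) L hs hd
    have h5 : (L.map fun c => if e' c.2.1 = j ∧ expo (c.2.2.map e) = d then c.1 else 0) =
        L.map fun c => if (fun k : τ × Multiset σ => e' k.1 = j ∧
          Multiset.toFinsupp (k.2.map e) = d) (key c) then c.1 else 0 := by
      refine List.map_congr_left fun c _ => ?_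
      have h6 : (e' c.2.1 = j ∧ expo (c.2.2.map e) = d) ↔
          (fun k : τ × Multiset σ => e' k.1 = j ∧
          Multiset.toFinsupp (k.2.map e) = d) (key c) := by
        simp only [key, Multiset.map_coe, expo]
      by_cases h7 : e' c.2.1 = j ∧ expo (c.2.2.map e) = d
      · rw [if_pos h7, if_pos (h6.1 h7)]
      · rw [if_neg h7, if_neg (fun h8 => h7 (h6.2 h8))]
    rw [h5]
    exact h4
  clear hs hd
  induction L with
  | nil => exact ⟨0, by simp, by simp, by simp [quadSum, lp_nil]⟩
  | cons c L ih =>
    obtain ⟨q, hq, hco, hq'⟩ := ih fun c hc => hL c (List.mem_cons_of_mem _ hc)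
    refine ⟨fun j => (if j = e' c.2.1 then monomial (expo (c.2.2.map e)) c.1 else 0) + q j,
      fun j => ?_, fun j d => ?_, ?_⟩
    · refine (totalDegree_add _ _).trans (max_le ?_ (hq j))
      split_ifs
      · rw [← C_mul_prod]
        refine (totalDegree_mul _ _).trans ?_
        rw [totalDegree_C, zero_add]
        refine (totalDegree_list_prod _).trans ?_
        rw [List.map_map]
        refine le_trans ?_ (hL c (List.mem_cons_self))
        have : ∀ l : List (Fin n),
            (l.map (totalDegree ∘ fun i => (X i : MvPolynomial (Fin n) ℤ))).sum ≤ l.length := by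
          intro l
          induction l with
          | nil => simp
          | cons a l ih =>
            simp only [List.map_cons, List.sum_cons, List.length_cons, Function.comp_apply,
              totalDegree_X] at ih ⊢
            omega
        exact (this _).trans (by rw [List.length_map])
      · simp
    · rw [coeff_add, hco, List.map_cons, List.sum_cons]
      congr 1
      by_cases hj : j = e' c.2.1
      · rw [if_pos hj, coeff_monomial]
        simp [hj]
      · rw [if_neg hj, coeff_zero, if_neg]
        rintro ⟨h, _⟩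
        exact hj h.symm
    · rw [lp_cons, map_add, hq', quadSum, quadSum]
      simp only [map_add, mul_add, Finset.sum_add_distrib]
      congr 1
      rw [Finset.sum_eq_single (e' c.2.1)]
      · rw [if_pos rfl, ← C_mul_prod]
        simp only [map_mul, rename_C, rename_X, map_list_prod, List.map_map,
          Function.comp_def, Sum.map_inl, Sum.map_inr]
        ring
      · intro j _ hj
        rw [if_neg hj]
        simp
      · simp

theorem signList_add {n : ℕ} {f g : MvPolynomial (Fin n) ℤ}
    (hf : ∃ L : List (ℤ × Unit × List (Fin n)), Signs L ∧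
      X (Sum.inr ()) * rename Sum.inl f = lp L)
    (hg : ∃ L : List (ℤ × Unit × List (Fin n)), Signs L ∧
      X (Sum.inr ()) * rename Sum.inl g = lp L) :
    ∃ L : List (ℤ × Unit × List (Fin n)), Signs L ∧
      X (Sum.inr ()) * rename Sum.inl (f + g) = lp L := by
  obtain ⟨L, hs, hL⟩ := hf
  obtain ⟨L', hs', hL'⟩ := hg
  exact ⟨L ++ L', signs_append.2 ⟨hs, hs'⟩, by rw [lp_append, ← hL, ← hL', map_add, mul_add]⟩

/-- Every polynomial is given by a list of monomials with coefficients `1` and `-1`. -/
theorem exists_lp {n : ℕ} (f : MvPolynomial (Fin n) ℤ) :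
    ∃ L : List (ℤ × Unit × List (Fin n)), Signs L ∧
      X (Sum.inr ()) * rename Sum.inl f = lp L := by
  induction f using MvPolynomial.induction_on with
  | C a =>
    induction a using Int.induction_on with
    | zero => exact ⟨[], by simp [Signs], by simp [lp_nil]⟩
    | succ a ih =>
      rw [map_add]
      refine signList_add ih ⟨[(1, (), [])], by simp [Signs], by simp [lp]⟩
    | pred a ih =>
      rw [sub_eq_add_neg, map_add]
      refine signList_add ih ⟨[(-1, (), [])], by simp [Signs], by simp [lp]⟩
  | add p q hp hq => exact signList_add hp hq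
  | mul_X p i hp =>
    obtain ⟨L, hs, hL⟩ := hp
    refine ⟨L.map fun c => (c.1, c.2.1, i :: c.2.2), ?_, ?_⟩
    · intro c hc
      obtain ⟨d, hd, rfl⟩ := List.mem_map.1 hc
      exact hs d hd
    · rw [map_mul, ← mul_assoc, hL, rename_X]
      clear hL hs
      induction L with
      | nil => simp [lp_nil]
      | cons c L ih =>
        rw [List.map_cons, lp_cons, lp_cons, add_mul, ih]
        simp only [List.map_cons, List.prod_cons]
        ring

/-- The reduction principle: a property preserved by the moves and satisfied by `u f` holds for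
some `∑ t_j q_j(x)` where the `q_j` have degree at most two and coefficients `0`, `1`, `-1`,
after any large enough number of moves. -/
theorem Chain.main (hc : Chain PP) {n : ℕ} (f : MvPolynomial (Fin n) ℤ)
    (h : PP (Fin n ⊕ Unit) 0 (X (Sum.inr ()) * rename Sum.inl f)) (N : ℕ) :
    ∃ (n' k m : ℕ) (q : Fin k → MvPolynomial (Fin n') ℤ), N ≤ m ∧
      (∀ j, (q j).totalDegree ≤ 2) ∧
      (∀ j d, (q j).coeff d = 0 ∨ (q j).coeff d = 1 ∨ (q j).coeff d = -1) ∧
      PP (Fin n' ⊕ Fin k) m (quadSum q) := by
  obtain ⟨L, hs, hL⟩ := exists_lp f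
  rw [hL] at h
  obtain ⟨σ, τ, i1, i2, L1, hs1, h1⟩ := hc.dummies N hs h
  obtain ⟨σ2, τ2, i3, i4, L2, m2, hm2, hs2, hd2, h2⟩ :=
    hc.distinct L1.length (U := L1) (V := []) rfl (by rwa [List.append_nil])
      (by simp [Dist]) (by rwa [List.append_nil])
  obtain ⟨σ', τ', i5, i6, L3, m, hm, hq3, hs3, hd3, h3⟩ := hc.quadratic hs2 hd2 h2
  obtain ⟨n', ⟨e⟩⟩ := Finite.exists_equiv_fin σ'
  obtain ⟨k, ⟨e'⟩⟩ := Finite.exists_equiv_fin τ'
  obtain ⟨q, hq, hco, hq'⟩ := exists_quadSum e e' e.injective e'.injective L3 hq3 hs3 hd3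
  refine ⟨n', k, m, q, by omega, hq, hco, ?_⟩
  have h4 := hc.iso _ _ (renameEquiv ℤ (Equiv.sumCongr e e')) _ _ h3
  have h5 : ⇑(e.sumCongr e') = Sum.map e e' := rfl
  rw [renameEquiv_apply, h5, hq'] at h4
  exact h4

end Pool.Agent.W206.CU
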