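import Pool.Agent.W206.CU.BF2
import Pool.Agent.W206.CU.Red
import Pool.Agent.W206.CU.Cnt

set_option autoImplicit false

/-! The chain of moves for `b`-functions and for numbers of solutions of congruences. -/

namespace Pool.Agent.W206.CU

open MvPolynomial
open Pool.Agent.H628R4.TP (weylS IsBFunction IsBernsteinSatoOf)

/-- An integer polynomial viewed as a complex polynomial. -/
noncomputable def toC {ρ : Type} (F : MvPolynomial ρ ℤ) : MvPolynomial ρ ℂ :=
  map (Int.castRingHom ℂ) F

theorem toC_aeval {ρ ρ' : Type} (v : ρ → MvPolynomial ρ' ℤ) (F : MvPolynomial ρ ℤ) :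
    aeval (fun i => toC (v i)) (toC F) = toC (aeval v F) := by
  induction F using MvPolynomial.induction_on with
  | C c =>
    rw [toC, map_C, ← algebraMap_eq, AlgHom.commutes, ← algebraMap_eq, AlgHom.commutes,
      algebraMap_eq, algebraMap_eq, toC, map_C]
  | add p q hp hq =>
    simp only [toC, map_add] at hp hq ⊢
    rw [hp, hq]
  | mul_X p i hp =>
    simp only [toC, map_mul] at hp ⊢
    rw [hp, map_X, aeval_X, aeval_X]

/-- The complexification of an isomorphism. -/
noncomputable def isoC {ρ ρ' : Type} (e : MvPolynomial ρ ℤ ≃ₐ[ℤ] MvPolynomial ρ' ℤ) :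
    MvPolynomial ρ ℂ ≃ₐ[ℂ] MvPolynomial ρ' ℂ :=
  AlgEquiv.ofAlgHom (aeval fun i => toC (e (X i))) (aeval fun i => toC (e.symm (X i)))
    (by
      apply MvPolynomial.algHom_ext
      intro i
      rw [AlgHom.comp_apply, aeval_X, toC_aeval]
      have h : (aeval fun i => e (X i)) (e.symm (X i)) = e (e.symm (X i)) := by
        have h1 : (aeval fun i => e (X i) : MvPolynomial ρ ℤ →ₐ[ℤ] MvPolynomial ρ' ℤ) =
            e.toAlgHom := by
          apply MvPolynomial.algHom_ext
          intro i
          simp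
        rw [h1]
        rfl
      rw [h, AlgEquiv.apply_symm_apply, toC, map_X]
      rfl)
    (by
      apply MvPolynomial.algHom_ext
      intro i
      rw [AlgHom.comp_apply, aeval_X, toC_aeval]
      have h : (aeval fun i => e.symm (X i)) (e (X i)) = e.symm (e (X i)) := by
        have h1 : (aeval fun i => e.symm (X i) : MvPolynomial ρ' ℤ →ₐ[ℤ] MvPolynomial ρ ℤ) =
            e.symm.toAlgHom := by
          apply MvPolynomial.algHom_ext
          intro i
          simp
        rw [h1]
        rfl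
      rw [h, AlgEquiv.symm_apply_apply, toC, map_X]
      rfl)

theorem isoC_toC {ρ ρ' : Type} (e : MvPolynomial ρ ℤ ≃ₐ[ℤ] MvPolynomial ρ' ℤ)
    (F : MvPolynomial ρ ℤ) : isoC e (toC F) = toC (e F) := by
  have h1 : (aeval fun i => e (X i) : MvPolynomial ρ ℤ →ₐ[ℤ] MvPolynomial ρ' ℤ) =
      e.toAlgHom := by
    apply MvPolynomial.algHom_ext
    intro i
    simp
  change aeval (fun i => toC (e (X i))) (toC F) = _
  rw [toC_aeval, h1]
  rfl

/-- The property which is followed along the moves which start at `u f`. -/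
def Follow {n : ℕ} (f : MvPolynomial (Fin n) ℤ) (ρ : Type) [Finite ρ] (m : ℕ)
    (F : MvPolynomial ρ ℤ) : Prop :=
  (∀ b : Polynomial ℂ, IsBFunction (toC f) b →
    BS1 (toC F) (b.comp (Polynomial.X + Polynomial.C (m : ℂ)))) ∧
  (∀ (p : ℕ) [Fact p.Prime] (k : ℕ), dens p F (k + 1) - dens p F k / p =
    (1 - 1 / (p : ℚ)) * ((1 / (p : ℚ)) ^ m) ^ (k + 1) * dens p f (k + 1)) ∧
  (∀ c : ℤ, F ≠ C c)

theorem follow_chain {n : ℕ} (f : MvPolynomial (Fin n) ℤ) : Chain (Follow f) where
  iso := by
    intro ρ ρ' _ _ e m F ⟨h1, h2, h3⟩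
    refine ⟨fun b hb => ?_, fun p _ k => ?_, fun c hc => h3 c ?_⟩
    · rw [← isoC_toC]
      exact bs1_iso (isoC e) (h1 b hb)
    · rw [dens_iso, dens_iso, h2 p k]
    · have h := congrArg e.symm hc
      rwa [AlgEquiv.symm_apply_apply, ← algebraMap_eq, AlgEquiv.commutes, algebraMap_eq] at h
  step := by
    intro ρ _ m F ⟨h1, h2, h3⟩
    refine ⟨fun b hb => ?_, fun p _ k => ?_, fun c hc => ?_⟩
    · have h := bs1_step (h1 b hb)
      have e1 : toC (rename Sum.inl F + X (Sum.inr 0) * X (Sum.inr 1) :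
          MvPolynomial (ρ ⊕ Fin 2) ℤ) =
          rename Sum.inl (toC F) + X (Sum.inr 0) * X (Sum.inr 1) := by
        simp [toC, map_rename]
      have e2 : b.comp (Polynomial.X + Polynomial.C (((m + 1 : ℕ) : ℂ))) =
          (b.comp (Polynomial.X + Polynomial.C (m : ℂ))).comp (Polynomial.X + 1) := by
        rw [Polynomial.comp_assoc]
        congr 1
        simp only [Polynomial.add_comp, Polynomial.X_comp, Polynomial.C_comp, Nat.cast_add,
          Nat.cast_one, map_add, map_one]
        ring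
      rw [e1, e2]
      exact h
    · rw [dens_step, h2 p k]
      rw [← pow_mul, ← pow_mul]
      ring
    · have h := congrArg (pderiv (Sum.inr 0)) hc
      rw [map_add, pderiv_rename_of_not Sum.inl (Sum.inr 0) (by simp), Derivation.leibniz,
        pderiv_X_self, pderiv_X_of_ne (by simp), pderiv_C] at h
      simp at h

theorem follow_start {n : ℕ} (f : MvPolynomial (Fin n) ℤ) (hf : f ≠ 0) :
    Follow f (Fin n ⊕ Unit) 0 (X (Sum.inr ()) * rename Sum.inl f) := by
  refine ⟨fun b hb => ?_, fun p _ k => ?_, fun c hc => ?_⟩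
  · have h := bs1_start hb
    have e1 : toC (X (Sum.inr ()) * rename Sum.inl f : MvPolynomial (Fin n ⊕ Unit) ℤ) =
        X (Sum.inr ()) * rename Sum.inl (toC f) := by
      simp [toC, map_rename]
    rw [e1]
    simpa using h
  · rw [dens_start]
    simp
  · have h := congrArg (pderiv (Sum.inr ())) hc
    rw [Derivation.leibniz, pderiv_rename_of_not Sum.inl (Sum.inr ()) (by simp),
      pderiv_X_self, pderiv_C] at h
    simp only [smul_eq_mul, mul_zero, mul_one, zero_add] at h
    exact hf (rename_injective _ Sum.inl_injective (by rw [h, map_zero]))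

/-- The reduction to cubic polynomials `∑ t_j q_j(x)`. -/
theorem exists_follow {n : ℕ} (f : MvPolynomial (Fin n) ℤ) (hf : f ≠ 0) (N : ℕ) :
    ∃ (n' k m : ℕ) (q : Fin k → MvPolynomial (Fin n') ℤ), N ≤ m ∧
      (∀ j, (q j).totalDegree ≤ 2) ∧
      (∀ j d, (q j).coeff d = 0 ∨ (q j).coeff d = 1 ∨ (q j).coeff d = -1) ∧
      Follow f (Fin n' ⊕ Fin k) m (quadSum q) :=
  (follow_chain f).main f (follow_start f hf) N

/-! ### Bernstein-Sato polynomials -/

theorem rootMultiplicity_comp (b : Polynomial ℂ) (x c : ℂ) :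
    (b.comp (Polynomial.X + Polynomial.C c)).rootMultiplicity x = b.rootMultiplicity (x + c) := by
  rw [Polynomial.rootMultiplicity_eq_rootMultiplicity,
    Polynomial.rootMultiplicity_eq_rootMultiplicity (p := b), Polynomial.comp_assoc]
  congr 2
  simp only [Polynomial.add_comp, Polynomial.X_comp, Polynomial.C_comp, map_add]
  ring

theorem comp_ne_zero {b : Polynomial ℂ} (hb : b ≠ 0) (c : ℂ) :
    b.comp (Polynomial.X + Polynomial.C c) ≠ 0 := by
  intro h
  apply hb
  have h2 := congrArg (fun q : Polynomial ℂ => q.comp (Polynomial.X + Polynomial.C (-c))) h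
  simpa [Polynomial.comp_assoc] using h2

/-- What the Bernstein-Sato polynomial of the cubic says about that of `f`. -/
theorem exists_bernsteinSato {n : ℕ} {f : MvPolynomial (Fin n) ℤ} {ρ : Type} [Finite ρ] {m : ℕ}
    {F : MvPolynomial ρ ℤ} (h : Follow f ρ m F) {b : Polynomial ℂ}
    (hb : IsBernsteinSatoOf (toC f) b) :
    ∃ b' : Polynomial ℂ, IsBernsteinSatoOf (toC F) b' ∧
      ∀ x : ℂ, x ≠ -1 → b'.rootMultiplicity x ≤ b.rootMultiplicity (x + m) := by
  have h1 := isBFunction_of_bs1 (h.1 b hb.2.1)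
  have hne : b.comp (Polynomial.X + Polynomial.C (m : ℂ)) ≠ 0 := comp_ne_zero hb.1.ne_zero _
  have hX : (Polynomial.X + 1 : Polynomial ℂ) ≠ 0 := Polynomial.X_add_C_ne_zero 1
  obtain ⟨b', hb'⟩ := exists_isBernsteinSatoOf h1 (mul_ne_zero hX hne)
  refine ⟨b', hb', fun x hx => ?_⟩
  have h2 := isBernsteinSatoOf_dvd hb' h1
  refine (Polynomial.rootMultiplicity_le_rootMultiplicity_of_dvd (mul_ne_zero hX hne) h2 x).trans ?_
  rw [Polynomial.rootMultiplicity_mul (mul_ne_zero hX hne), rootMultiplicity_comp]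
  have h3 : (Polynomial.X + 1 : Polynomial ℂ).rootMultiplicity x = 0 := by
    apply Polynomial.rootMultiplicity_eq_zero
    intro hroot
    apply hx
    rw [Polynomial.IsRoot.def] at hroot
    simp only [Polynomial.eval_add, Polynomial.eval_X, Polynomial.eval_one] at hroot
    linear_combination hroot
  rw [h3, zero_add]

end Pool.Agent.W206.CU
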