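import Pool.Agent.W206.CU.Main

set_option autoImplicit false

/-! Poles of the Poincaré series. -/

namespace Pool.Agent.W206.CU

open MvPolynomial
open Pool.Agent.H628R4.TP (weylS IsBFunction IsBernsteinSatoOf)

/-- Igusa's Poincaré series `∑_m a_m (p ^ (-n) T) ^ m`, where `a_m` is the number of zeros of `F`
modulo `p ^ m` and `n` is the number of variables. -/
noncomputable def poincare (p : ℕ) {ρ : Type} (F : MvPolynomial ρ ℤ) : PowerSeries ℂ :=
  PowerSeries.mk fun m =>
    (Nat.card {x : ρ → ZMod (p ^ m) // aeval x F = 0} : ℂ) / ((p : ℂ) ^ m) ^ Nat.card ρ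

/-- The power series `P` is the expansion of a rational function `A / ((T - T₀) ^ r B)` with
`A(T₀) ≠ 0` and `B(T₀) ≠ 0`; for `r > 0` this says that `T₀` is a pole of order `r`. -/
def IsPoleOfOrder (P : PowerSeries ℂ) (T₀ : ℂ) (r : ℕ) : Prop :=
  ∃ A B : Polynomial ℂ, A.eval T₀ ≠ 0 ∧ B.eval T₀ ≠ 0 ∧
    (((Polynomial.X - Polynomial.C T₀) ^ r * B : Polynomial ℂ) : PowerSeries ℂ) * P =
      (A : PowerSeries ℂ)

theorem pole_ne_zero {P : PowerSeries ℂ} {T₀ : ℂ} {r : ℕ} (hr : 0 < r)
    (h : IsPoleOfOrder P T₀ r) : T₀ ≠ 0 := by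
  rintro rfl
  obtain ⟨A, B, hA, hB, h⟩ := h
  apply hA
  have h1 := congrArg (PowerSeries.constantCoeff (R := ℂ)) h
  rw [map_mul, Polynomial.constantCoeff_coe, Polynomial.constantCoeff_coe] at h1
  rw [← Polynomial.coeff_zero_eq_eval_zero, ← h1]
  simp [Polynomial.coeff_zero_eq_eval_zero, hr.ne']

theorem rescale_coe (a : ℂ) (B : Polynomial ℂ) :
    PowerSeries.rescale a (B : PowerSeries ℂ) =
      ((B.comp (Polynomial.C a * Polynomial.X) : Polynomial ℂ) : PowerSeries ℂ) := by
  ext k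
  rw [PowerSeries.coeff_rescale, Polynomial.coeff_coe, Polynomial.coeff_coe,
    Polynomial.comp_C_mul_X_coeff]
  ring

theorem pole_transfer {P G : PowerSeries ℂ} {a s c d : ℂ} (ha : a ≠ 0) (hs : s ≠ 0) (hd : d ≠ 0)
    (h : ((1 - Polynomial.C a * Polynomial.X : Polynomial ℂ) : PowerSeries ℂ) * G =
      ((Polynomial.C c : Polynomial ℂ) : PowerSeries ℂ) +
      ((Polynomial.C d : Polynomial ℂ) : PowerSeries ℂ) * PowerSeries.rescale s P)
    {T₀ : ℂ} {r : ℕ} (hr : 0 < r) (hP : IsPoleOfOrder P T₀ r) :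
    ∃ r', r ≤ r' ∧ IsPoleOfOrder G (T₀ / s) r' := by
  obtain ⟨A, B, hA, hB, h1⟩ := hP
  have h2 := congrArg (PowerSeries.rescale s) h1
  rw [map_mul, rescale_coe, rescale_coe] at h2
  set A' := A.comp (Polynomial.C s * Polynomial.X) with hA'
  set B' := B.comp (Polynomial.C s * Polynomial.X) with hB'
  have e1 : ((Polynomial.X - Polynomial.C T₀) ^ r * B).comp (Polynomial.C s * Polynomial.X) =
      (Polynomial.X - Polynomial.C (T₀ / s)) ^ r * (Polynomial.C (s ^ r) * B') := by
    rw [Polynomial.mul_comp, Polynomial.pow_comp, Polynomial.sub_comp, Polynomial.X_comp,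
      Polynomial.C_comp]
    have e2 : (Polynomial.C s * Polynomial.X - Polynomial.C T₀ : Polynomial ℂ) =
        Polynomial.C s * (Polynomial.X - Polynomial.C (T₀ / s)) := by
      rw [mul_sub, ← Polynomial.C_mul, mul_div_cancel₀ _ hs]
    rw [e2, mul_pow, ← Polynomial.C_pow]
    ring
  rw [e1] at h2
  have hA2 : A'.eval (T₀ / s) ≠ 0 := by
    rw [hA', Polynomial.eval_comp]
    simpa [mul_div_cancel₀ _ hs] using hA
  have hB2 : B'.eval (T₀ / s) ≠ 0 := by
    rw [hB', Polynomial.eval_comp]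
    simpa [mul_div_cancel₀ _ hs] using hB
  -- the identity for `G`
  set D : Polynomial ℂ := (Polynomial.X - Polynomial.C (T₀ / s)) ^ r * (Polynomial.C (s ^ r) * B')
    with hD
  have h3 : ((D * (1 - Polynomial.C a * Polynomial.X) : Polynomial ℂ) : PowerSeries ℂ) * G =
      ((Polynomial.C c * D + Polynomial.C d * A' : Polynomial ℂ) : PowerSeries ℂ) := by
    have e3 : ((D * (1 - Polynomial.C a * Polynomial.X) : Polynomial ℂ) : PowerSeries ℂ) =
        (D : PowerSeries ℂ) * ((1 - Polynomial.C a * Polynomial.X : Polynomial ℂ) :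
          PowerSeries ℂ) := Polynomial.coe_mul _ _
    have e4 : ((Polynomial.C c * D + Polynomial.C d * A' : Polynomial ℂ) : PowerSeries ℂ) =
        ((Polynomial.C c : Polynomial ℂ) : PowerSeries ℂ) * (D : PowerSeries ℂ) +
        ((Polynomial.C d : Polynomial ℂ) : PowerSeries ℂ) * (A' : PowerSeries ℂ) := by
      rw [Polynomial.coe_add, Polynomial.coe_mul (Polynomial.C c) D,
        Polynomial.coe_mul (Polynomial.C d) A']
    rw [e3, e4, mul_assoc, h, ← h2]
    ring
  have hnum : (Polynomial.C c * D + Polynomial.C d * A').eval (T₀ / s) ≠ 0 := by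
    have e3 : D.eval (T₀ / s) = 0 := by
      rw [hD]
      simp [hr.ne']
    rw [Polynomial.eval_add, Polynomial.eval_mul, e3, Polynomial.eval_mul, Polynomial.eval_C,
      Polynomial.eval_C, mul_zero, zero_add]
    exact mul_ne_zero hd hA2
  by_cases hT : 1 - a * (T₀ / s) = 0
  · refine ⟨r + 1, by omega, Polynomial.C c * D + Polynomial.C d * A',
      -Polynomial.C a * (Polynomial.C (s ^ r) * B'), hnum, ?_, ?_⟩
    · rw [Polynomial.eval_mul, Polynomial.eval_mul, Polynomial.eval_neg, Polynomial.eval_C,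
        Polynomial.eval_C]
      exact mul_ne_zero (neg_ne_zero.2 ha) (mul_ne_zero (pow_ne_zero _ hs) hB2)
    · rw [← h3]
      congr 2
      have e4 : (1 - Polynomial.C a * Polynomial.X : Polynomial ℂ) =
          -Polynomial.C a * (Polynomial.X - Polynomial.C (T₀ / s)) := by
        have e5 : (1 : Polynomial ℂ) = Polynomial.C (a * (T₀ / s)) := by
          rw [← Polynomial.C_1]
          congr 1
          linear_combination hT
        rw [e5, Polynomial.C_mul]
        ring
      rw [e4, hD]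
      ring
  · refine ⟨r, le_rfl, Polynomial.C c * D + Polynomial.C d * A',
      (1 - Polynomial.C a * Polynomial.X) * (Polynomial.C (s ^ r) * B'), hnum, ?_, ?_⟩
    · rw [Polynomial.eval_mul, Polynomial.eval_mul]
      refine mul_ne_zero ?_ (mul_ne_zero ?_ hB2)
      · simpa using hT
      · simpa using pow_ne_zero r hs
    · rw [← h3]
      congr 2
      rw [hD]
      ring

/-- The functional equation of the Poincaré series. -/
theorem poincare_eq {n : ℕ} {f : MvPolynomial (Fin n) ℤ} {ρ : Type} [Finite ρ] {m : ℕ}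
    {F : MvPolynomial ρ ℤ} (h : Follow f ρ m F) (p : ℕ) [Fact p.Prime] :
    ((1 - Polynomial.C ((p : ℂ)⁻¹) * Polynomial.X : Polynomial ℂ) : PowerSeries ℂ) *
      poincare p F = ((Polynomial.C ((p : ℂ)⁻¹) : Polynomial ℂ) : PowerSeries ℂ) +
      ((Polynomial.C (1 - (p : ℂ)⁻¹) : Polynomial ℂ) : PowerSeries ℂ) *
        PowerSeries.rescale (((p : ℂ)⁻¹) ^ m) (poincare p f) := by
  have hd : ∀ {ρ : Type} (F : MvPolynomial ρ ℤ) (k : ℕ),
      PowerSeries.coeff k (poincare p F) = ((dens p F k : ℚ) : ℂ) := by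
    intro ρ F k
    rw [poincare, PowerSeries.coeff_mk, dens, numIn]
    push_cast
    rfl
  ext k
  rcases k with _ | k
  · rw [Polynomial.coe_sub, Polynomial.coe_one, Polynomial.coe_mul, Polynomial.coe_X,
      Polynomial.coe_C, Polynomial.coe_C, map_add, sub_mul, one_mul, map_sub, hd, dens_zero,
      PowerSeries.coeff_C_mul, PowerSeries.coeff_rescale, hd, dens_zero,
      mul_assoc, PowerSeries.coeff_C_mul, PowerSeries.coeff_zero_X_mul]
    simp
  · have h1 := h.2.1 p k
    have h2 := congrArg (fun x : ℚ => (x : ℂ)) h1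
    push_cast at h2
    rw [Polynomial.coe_sub, Polynomial.coe_one, Polynomial.coe_mul, Polynomial.coe_X,
      Polynomial.coe_C, Polynomial.coe_C, map_add, sub_mul, one_mul, map_sub, hd,
      PowerSeries.coeff_C_mul, PowerSeries.coeff_rescale, hd, mul_assoc, PowerSeries.coeff_C_mul,
      PowerSeries.coeff_succ_X_mul, hd, PowerSeries.coeff_C]
    simp only [Nat.add_eq_zero_iff, one_ne_zero, and_false, if_false, zero_add]
    rw [one_div] at h2
    linear_combination h2

/-! ### Invariance under isomorphisms of polynomial rings -/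

theorem isBFunction_iso {σ τ : Type} [Finite σ] [Finite τ]
    (e : MvPolynomial σ ℂ ≃ₐ[ℂ] MvPolynomial τ ℂ) {F : MvPolynomial σ ℂ} {b : Polynomial ℂ}
    (h : IsBFunction F b) : IsBFunction (e F) b := by
  rw [isBFunction_iff] at h ⊢
  obtain ⟨P, hP, h⟩ := h
  refine ⟨_, fam_conj e hP, fun M => ?_⟩
  simp only [LinearMap.comp_apply, LinearEquiv.coe_coe, AlgEquiv.toLinearEquiv_apply, map_pow,
    AlgEquiv.symm_apply_apply]
  have h1 : ∀ c : ℂ, e (C c) = C c := fun c => e.commutes c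
  rw [← h M, map_mul, map_pow, h1]

theorem isBernsteinSatoOf_iso {σ τ : Type} [Finite σ] [Finite τ]
    (e : MvPolynomial σ ℂ ≃ₐ[ℂ] MvPolynomial τ ℂ) {F : MvPolynomial σ ℂ} {b : Polynomial ℂ}
    (h : IsBernsteinSatoOf (e F) b) : IsBernsteinSatoOf F b := by
  obtain ⟨h1, h2, h3⟩ := h
  refine ⟨h1, ?_, fun b' hb' hb'' => h3 b' hb' (isBFunction_iso e hb'')⟩
  have h4 := isBFunction_iso e.symm h2
  rwa [AlgEquiv.symm_apply_apply] at h4

theorem poincare_iso (p : ℕ) {ρ ρ' : Type} [Finite ρ] [Finite ρ']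
    (e : MvPolynomial ρ ℤ ≃ₐ[ℤ] MvPolynomial ρ' ℤ) (F : MvPolynomial ρ ℤ) :
    poincare p (e F) = poincare p F := by
  ext k
  rw [poincare, poincare, PowerSeries.coeff_mk, PowerSeries.coeff_mk, card_eq_of_iso e]
  congr 2
  exact numIn_iso (ZMod (p ^ k)) e F

end Pool.Agent.W206.CU
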