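import Pool.Agent.W206.CU.Zeta2

set_option autoImplicit false

/-! Polynomials with rational coefficients. -/

namespace Pool.Agent.W206.CU

open MvPolynomial MeasureTheory Filter Topology
open Pool.Agent.H628R4.TP (weylS IsBFunction IsBernsteinSatoOf)
open Pool.Agent.W427.SMC (igusaZeta)

/-- Igusa's `p`-adic zeta function `∫_{ℤ_p ^ V} |f(x)| ^ s dx` of a polynomial `f` with rational
coefficients; the Haar measure has total mass `1`. -/
noncomputable def igusaZetaQ (p : ℕ) [Fact p.Prime] {V : Type} [Fintype V] (f : MvPolynomial V ℚ)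
    (s : ℂ) : ℂ :=
  letI : MeasurableSpace (V → ℤ_[p]) := borel _
  haveI : BorelSpace (V → ℤ_[p]) := ⟨rfl⟩
  ∫ x : V → ℤ_[p], ((‖(aeval (fun i => ((x i : ℤ_[p]) : ℚ_[p])) f : ℚ_[p])‖ : ℝ) : ℂ) ^ s
    ∂(Measure.addHaarMeasure (⊤ : TopologicalSpace.PositiveCompacts (V → ℤ_[p])))

theorem aeval_map_coe (p : ℕ) [Fact p.Prime] {V : Type} (F : MvPolynomial V ℤ)
    (x : V → ℤ_[p]) :
    (aeval (fun i => ((x i : ℤ_[p]) : ℚ_[p])) (map (Int.castRingHom ℚ) F) : ℚ_[p]) =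
      ((aeval x F : ℤ_[p]) : ℚ_[p]) := by
  induction F using MvPolynomial.induction_on with
  | C a => simp
  | add P Q hP hQ => rw [map_add, map_add, map_add, hP, hQ, PadicInt.coe_add]
  | mul_X P i hP => rw [map_mul, map_mul, map_mul, hP, PadicInt.coe_mul, map_X, aeval_X, aeval_X]

theorem igusaZetaQ_eq (p : ℕ) [hp : Fact p.Prime] {V : Type} [Fintype V] {f : MvPolynomial V ℚ}
    {F : MvPolynomial V ℤ} {N : ℕ} (h : map (Int.castRingHom ℚ) F = C (N : ℚ) * f)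
    (hN : ¬ p ∣ N) (s : ℂ) : igusaZetaQ p f s = igusaZeta p F s := by
  unfold igusaZetaQ igusaZeta
  congr 1
  funext x
  congr 2
  have h1 := aeval_map_coe p F x
  rw [h, map_mul, aeval_C] at h1
  have h2 : ‖((N : ℕ) : ℚ_[p])‖ = 1 := by
    rw [Padic.norm_natCast_eq_one_iff]
    exact (hp.out.coprime_iff_not_dvd).2 hN
  have h6 := congrArg norm h1
  rw [norm_mul, PadicInt.norm_def] at *
  rw [← h6]
  have h7 : ‖(algebraMap ℚ ℚ_[p]) (N : ℚ)‖ = 1 := by
    rw [map_natCast]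
    exact h2
  rw [h7, one_mul]

theorem isBFunction_smul {σ : Type} {f : MvPolynomial σ ℂ} {b : Polynomial ℂ} {c : ℂ} (hc : c ≠ 0)
    (h : IsBFunction f b) : IsBFunction (C c * f) b := by
  rw [isBFunction_iff] at h ⊢
  obtain ⟨P, hP, h⟩ := h
  refine ⟨_, (fam σ).smul_mem hP (c⁻¹), fun s => ?_⟩
  have e1 : (C c * f) ^ (s + 1) = (c ^ (s + 1)) • f ^ (s + 1) := by
    rw [MvPolynomial.smul_eq_C_mul, mul_pow, map_pow]
  have e2 : (C c * f) ^ s = (c ^ s) • f ^ s := by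
    rw [MvPolynomial.smul_eq_C_mul, mul_pow, map_pow]
  rw [e1, e2, Pi.smul_apply, LinearMap.smul_apply, map_smul, ← h s, smul_smul, pow_succ]
  have e3 : c⁻¹ * (c ^ s * c) = c ^ s := by
    field_simp
  rw [e3, mul_smul_comm]

theorem isBernsteinSatoOf_smul {σ : Type} {f : MvPolynomial σ ℂ} {b : Polynomial ℂ} {c : ℂ}
    (hc : c ≠ 0) (h : IsBernsteinSatoOf f b) : IsBernsteinSatoOf (C c * f) b := by
  obtain ⟨h1, h2, h3⟩ := h
  refine ⟨h1, isBFunction_smul hc h2, fun b' hb' hb'' => h3 b' hb' ?_⟩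
  have h4 := isBFunction_smul (inv_ne_zero hc) hb''
  rwa [← mul_assoc, ← map_mul, inv_mul_cancel₀ hc, map_one, one_mul] at h4

theorem exists_integral {V : Type} (f : MvPolynomial V ℚ) :
    ∃ (N : ℕ) (F : MvPolynomial V ℤ), 0 < N ∧ map (Int.castRingHom ℚ) F = C (N : ℚ) * f := by
  induction f using MvPolynomial.induction_on with
  | C a =>
    refine ⟨a.den, C a.num, a.den_pos, ?_⟩
    rw [map_C, ← map_mul]
    congr 1
    rw [mul_comm, Rat.mul_den_eq_num]
    rfl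
  | add P Q hP hQ =>
    obtain ⟨N, F, hN, hF⟩ := hP
    obtain ⟨M, G, hM, hG⟩ := hQ
    refine ⟨N * M, C (M : ℤ) * F + C (N : ℤ) * G, Nat.mul_pos hN hM, ?_⟩
    rw [map_add, map_mul, map_mul, hF, hG, map_C, map_C]
    push_cast
    simp only [map_mul, map_natCast, Int.cast_natCast]
    ring
  | mul_X P i hP =>
    obtain ⟨N, F, hN, hF⟩ := hP
    exact ⟨N, F * X i, hN, by rw [map_mul, hF, map_X, mul_assoc]⟩

theorem toC_eq {V : Type} (F : MvPolynomial V ℤ) :
    toC F = map (algebraMap ℚ ℂ) (map (Int.castRingHom ℚ) F) := by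
  rw [MvPolynomial.map_map, toC]
  congr 1

end Pool.Agent.W206.CU
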