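import Pool.Agent.W206.CU.BF2

set_option autoImplicit false

/-! The reduced Bernstein-Sato polynomial. -/

namespace Pool.Agent.W206.CU

open MvPolynomial
open Pool.Agent.H628R4.TP (weylS IsBFunction IsBernsteinSatoOf)

theorem mul_pderiv_pow {σ : Type} (i : σ) (f : MvPolynomial σ ℂ) (k : ℕ) :
    f * pderiv i (f ^ k) = (k : MvPolynomial σ ℂ) * f ^ k * pderiv i f := by
  rw [Derivation.leibniz_pow]
  rcases k with _ | k
  · simp
  · rw [Nat.add_sub_cancel, nsmul_eq_mul, smul_eq_mul]
    ring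

theorem pderiv_eval_nat {σ : Type} (i : σ) (G : Polynomial (MvPolynomial σ ℂ)) (N : ℕ) :
    pderiv i (G.eval (N : MvPolynomial σ ℂ)) =
      (G.sum fun k a => Polynomial.C (pderiv i a) * Polynomial.X ^ k).eval
        (N : MvPolynomial σ ℂ) := by
  rw [Polynomial.eval_eq_sum, Polynomial.sum, Polynomial.sum, map_sum, Polynomial.eval_finsetSum]
  refine Finset.sum_congr rfl fun k _ => ?_
  rw [Derivation.leibniz, Derivation.leibniz_pow, Derivation.map_natCast]
  simp only [Polynomial.eval_mul, Polynomial.eval_C, Polynomial.eval_pow,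
    Polynomial.eval_X, smul_eq_mul]
  ring

/-- `f ^ d Q (f ^ (N - e) G(N)) = f ^ N H(N)`. -/
theorem weylS_eval {σ : Type} (f : MvPolynomial σ ℂ)
    {Q : Module.End ℂ (MvPolynomial σ ℂ)} (hQ : Q ∈ weylS σ) :
    ∀ (e : ℕ) (G : Polynomial (MvPolynomial σ ℂ)), ∃ (d : ℕ) (H : Polynomial (MvPolynomial σ ℂ)),
      ∀ (N : ℕ) (u : MvPolynomial σ ℂ), f ^ e * u = f ^ N * G.eval (N : MvPolynomial σ ℂ) →
        f ^ d * Q u = f ^ N * H.eval (N : MvPolynomial σ ℂ) := by
  induction hQ using Algebra.adjoin_induction with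
  | mem x hx =>
    rcases hx with ⟨i, rfl⟩ | ⟨i, rfl⟩
    · intro e G
      refine ⟨e, Polynomial.C (X i) * G, fun N u h => ?_⟩
      rw [LinearMap.mulLeft_apply, Polynomial.eval_mul, Polynomial.eval_C]
      linear_combination (X i) * h
    · intro e G
      refine ⟨e + 1, Polynomial.X * Polynomial.C (pderiv i f) * G +
        Polynomial.C f * (G.sum fun k a => Polynomial.C (pderiv i a) * Polynomial.X ^ k) -
        Polynomial.C ((e : MvPolynomial σ ℂ) * pderiv i f) * G, fun N u h => ?_⟩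
      have h1 := congrArg (fun g => f * pderiv i g) h
      simp only [Derivation.leibniz, smul_eq_mul, mul_add] at h1
      have h2 := mul_pderiv_pow i f e
      have h3 := mul_pderiv_pow i f N
      have h4 := pderiv_eval_nat i G N
      rw [Derivation.coeFn_coe, Polynomial.eval_sub, Polynomial.eval_add, Polynomial.eval_mul,
        Polynomial.eval_mul, Polynomial.eval_mul, Polynomial.eval_mul, ← h4, Polynomial.eval_X,
        Polynomial.eval_C, Polynomial.eval_C, Polynomial.eval_C]
      linear_combination h1 - u * h2 + (G.eval (N : MvPolynomial σ ℂ)) * h3 -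
        (e : MvPolynomial σ ℂ) * pderiv i f * h
  | algebraMap r =>
    intro e G
    refine ⟨e, Polynomial.C (C r) * G, fun N u h => ?_⟩
    rw [Module.algebraMap_end_apply, MvPolynomial.smul_eq_C_mul, Polynomial.eval_mul,
      Polynomial.eval_C]
    linear_combination (C r) * h
  | add x y hx hy ihx ihy =>
    intro e G
    obtain ⟨d1, H1, h1⟩ := ihx e G
    obtain ⟨d2, H2, h2⟩ := ihy e G
    refine ⟨d1 + d2, Polynomial.C (f ^ d2) * H1 + Polynomial.C (f ^ d1) * H2, fun N u h => ?_⟩
    rw [LinearMap.add_apply, Polynomial.eval_add, Polynomial.eval_mul, Polynomial.eval_mul,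
      Polynomial.eval_C, Polynomial.eval_C, pow_add]
    linear_combination f ^ d2 * h1 N u h + f ^ d1 * h2 N u h
  | mul x y hx hy ihx ihy =>
    intro e G
    obtain ⟨d2, H2, h2⟩ := ihy e G
    obtain ⟨d1, H1, h1⟩ := ihx d2 H2
    exact ⟨d1, H1, fun N u h => h1 N _ (h2 N u h)⟩

/-- The values on `f ^ N` of a family. -/
theorem fam_eval {σ : Type} (f : MvPolynomial σ ℂ)
    {P : ℕ → Module.End ℂ (MvPolynomial σ ℂ)} (hP : P ∈ fam σ) :
    ∃ (d : ℕ) (H : Polynomial (MvPolynomial σ ℂ)), ∀ N : ℕ,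
      f ^ d * P N (f ^ N) = f ^ N * H.eval (N : MvPolynomial σ ℂ) := by
  obtain ⟨c, hc⟩ := exists_of_mem_fam hP
  have h1 : ∀ s : Finset ℕ, ∃ (d : ℕ) (H : Polynomial (MvPolynomial σ ℂ)), ∀ N : ℕ,
      f ^ d * (∑ m ∈ s, ((N : ℂ) ^ m) • (c m : Module.End ℂ (MvPolynomial σ ℂ)) (f ^ N)) =
        f ^ N * H.eval (N : MvPolynomial σ ℂ) := by
    intro s
    induction s using Finset.induction_on with
    | empty => exact ⟨0, 0, fun N => by simp⟩
    | insert a s ha ih =>
      obtain ⟨d1, H1, h1⟩ := ih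
      obtain ⟨d2, H2, h2⟩ := weylS_eval f (c a).2 0 1
      refine ⟨d1 + d2, Polynomial.C (f ^ d2) * H1 + Polynomial.C (f ^ d1) * Polynomial.X ^ a * H2,
        fun N => ?_⟩
      have h3 := h2 N (f ^ N) (by simp)
      rw [Finset.sum_insert ha, Polynomial.eval_add, Polynomial.eval_mul, Polynomial.eval_mul,
        Polynomial.eval_mul, Polynomial.eval_C, Polynomial.eval_C, Polynomial.eval_pow,
        Polynomial.eval_X, MvPolynomial.smul_eq_C_mul, map_pow, map_natCast, pow_add]
      linear_combination f ^ d2 * h1 N + f ^ d1 * (N : MvPolynomial σ ℂ) ^ a * h3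
  obtain ⟨d, H, h⟩ := h1 c.support
  refine ⟨d, H, fun N => ?_⟩
  rw [← h N, hc]
  simp [Finsupp.sum]

/-- For non-constant `f`: `b(-1) = 0` and `P(-1) 1 = 0`. -/
theorem bs1_reduced {σ : Type} {f : MvPolynomial σ ℂ} {b : Polynomial ℂ} (h : IsBFunction f b)
    (hf : f.totalDegree ≠ 0) : b.eval (-1) = 0 ∧ ∀ B : Polynomial ℂ,
      b = (Polynomial.X + 1) * B → BS1 f B := by
  rw [isBFunction_iff] at h
  obtain ⟨P, hP, h⟩ := h
  obtain ⟨P', hP', h'⟩ := fam_sub_one hP
  obtain ⟨d, H, hH⟩ := fam_eval f hP'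
  have hf0 : f ≠ 0 := by
    rintro rfl
    simp at hf
  -- the polynomial identity
  have key : Polynomial.C (f ^ d) * (b.comp (Polynomial.X - 1)).map (C : ℂ →+* MvPolynomial σ ℂ) =
      Polynomial.C f * H := by
    refine Polynomial.eq_of_infinite_eval_eq _ _ ?_
    refine Set.Infinite.mono (s := Set.range fun N : ℕ => ((N + 1 : ℕ) : MvPolynomial σ ℂ)) ?_ ?_
    · rintro _ ⟨N, rfl⟩
      simp only [Set.mem_ofPred_eq]
      have h1 := hH (N + 1)
      rw [h' N, ← h N] at h1
      have h2 : ((b.comp (Polynomial.X - 1)).map (C : ℂ →+* MvPolynomial σ ℂ)).eval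
          ((N + 1 : ℕ) : MvPolynomial σ ℂ) = C (b.eval (N : ℂ)) := by
        have h3 : ((N + 1 : ℕ) : MvPolynomial σ ℂ) = C ((N : ℂ) + 1) := by
          push_cast
          simp
        rw [h3, Polynomial.eval_map, Polynomial.eval₂_at_apply, Polynomial.eval_comp]
        simp
      rw [Polynomial.eval_mul, Polynomial.eval_C, h2, Polynomial.eval_mul, Polynomial.eval_C]
      have h4 : f ^ N ≠ 0 := pow_ne_zero _ hf0
      apply mul_left_cancel₀ h4
      linear_combination h1
    · refine Set.infinite_range_of_injective fun a b hab => ?_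
      have := Nat.cast_injective (R := MvPolynomial σ ℂ) hab
      omega
  have h0 : f ^ d * C (b.eval (-1)) = f ^ d * (f * P' 0 1) := by
    have h1 := congrArg (Polynomial.eval (0 : MvPolynomial σ ℂ)) key
    have h2 := hH 0
    rw [Polynomial.eval_mul, Polynomial.eval_C, Polynomial.eval_mul, Polynomial.eval_C] at h1
    have h3 : ((b.comp (Polynomial.X - 1)).map (C : ℂ →+* MvPolynomial σ ℂ)).eval
          (0 : MvPolynomial σ ℂ) = C (b.eval (-1)) := by
      rw [← map_zero (C : ℂ →+* MvPolynomial σ ℂ), Polynomial.eval_map, Polynomial.eval₂_at_apply,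
        Polynomial.eval_comp]
      simp
    rw [h3] at h1
    rw [pow_zero, one_mul, Nat.cast_zero] at h2
    rw [h1, ← h2]
    ring
  have h5 : C (b.eval (-1)) = f * P' 0 1 := mul_left_cancel₀ (pow_ne_zero _ hf0) h0
  have h6 : P' 0 1 = 0 := by
    by_contra hne
    have h7 := congrArg totalDegree h5
    rw [totalDegree_C, totalDegree_mul_of_isDomain hf0 hne] at h7
    omega
  rw [h6, mul_zero] at h5
  refine ⟨C_injective σ ℂ (by rw [h5, map_zero]), ?_⟩
  rintro B rfl
  refine ⟨P', hP', fun M => ?_⟩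
  rcases M with _ | M
  · rw [pow_zero, h6]
    simp
  · rw [h' M, ← h M]
    simp

end Pool.Agent.W206.CU
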