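import Mathlib

set_option autoImplicit false

/-! Reduction of a polynomial over a field to a cubic one, by the moves `F ↦ F + (y - a) (t + e)`
with new variables `y`, `t`. -/

namespace Pool.Agent.W206.CU.KR

open MvPolynomial

variable {K : Type} [Field K]

/-- A property of pairs (number of moves, polynomial) preserved by isomorphisms of polynomial
rings and by adding the product of two new variables. -/
structure Chain (PP : ∀ (ρ : Type) [Fintype ρ], ℕ → MvPolynomial ρ K → Prop) : Prop where
  iso : ∀ (ρ ρ' : Type) [Fintype ρ] [Fintype ρ'] (e : MvPolynomial ρ K ≃ₐ[K] MvPolynomial ρ' K)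
    (m : ℕ) (F : MvPolynomial ρ K), PP ρ m F → PP ρ' m (e F)
  step : ∀ (ρ : Type) [Fintype ρ] (m : ℕ) (F : MvPolynomial ρ K), PP ρ m F →
    PP (ρ ⊕ Fin 2) (m + 1) (rename Sum.inl F + X (Sum.inr 0) * X (Sum.inr 1))

theorem aeval_elim_rename {ρ : Type} (v : Fin 2 → MvPolynomial (ρ ⊕ Fin 2) K)
    (a : MvPolynomial ρ K) :
    aeval (Sum.elim (fun i => X (Sum.inl i)) v) (rename Sum.inl a) = rename Sum.inl a := by
  induction a using MvPolynomial.induction_on with
  | C c => rw [rename_C, ← algebraMap_eq, AlgHom.commutes]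
  | add p q hp hq => rw [map_add, map_add, hp, hq]
  | mul_X p i hp => rw [map_mul, map_mul, hp, rename_X, aeval_X, Sum.elim_inl]

/-- The automorphism `y ↦ y - a`, `t ↦ t + e`. -/
noncomputable def shear {ρ : Type} (a e : MvPolynomial ρ K) :
    MvPolynomial (ρ ⊕ Fin 2) K ≃ₐ[K] MvPolynomial (ρ ⊕ Fin 2) K :=
  AlgEquiv.ofAlgHom
    (aeval (Sum.elim (fun i => X (Sum.inl i))
      ![X (Sum.inr 0) - rename Sum.inl a, X (Sum.inr 1) + rename Sum.inl e]))
    (aeval (Sum.elim (fun i => X (Sum.inl i))
      ![X (Sum.inr 0) + rename Sum.inl a, X (Sum.inr 1) - rename Sum.inl e]))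
    (by
      apply MvPolynomial.algHom_ext
      rintro (i | i)
      · rw [AlgHom.comp_apply, aeval_X, Sum.elim_inl, aeval_X, Sum.elim_inl, AlgHom.id_apply]
      · fin_cases i
        · rw [AlgHom.comp_apply, aeval_X, Sum.elim_inr]
          simp only [Fin.zero_eta, Matrix.cons_val_zero, map_add, aeval_elim_rename, aeval_X,
            Sum.elim_inr, AlgHom.id_apply, sub_add_cancel]
        · rw [AlgHom.comp_apply, aeval_X, Sum.elim_inr]
          simp only [Fin.mk_one, Matrix.cons_val_one, Matrix.cons_val_fin_one, map_sub,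
            aeval_elim_rename, aeval_X, Sum.elim_inr, AlgHom.id_apply, add_sub_cancel_right])
    (by
      apply MvPolynomial.algHom_ext
      rintro (i | i)
      · rw [AlgHom.comp_apply, aeval_X, Sum.elim_inl, aeval_X, Sum.elim_inl, AlgHom.id_apply]
      · fin_cases i
        · rw [AlgHom.comp_apply, aeval_X, Sum.elim_inr]
          simp only [Fin.zero_eta, Matrix.cons_val_zero, map_sub, aeval_elim_rename, aeval_X,
            Sum.elim_inr, AlgHom.id_apply, add_sub_cancel_right]
        · rw [AlgHom.comp_apply, aeval_X, Sum.elim_inr]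
          simp only [Fin.mk_one, Matrix.cons_val_one, Matrix.cons_val_fin_one, map_add,
            aeval_elim_rename, aeval_X, Sum.elim_inr, AlgHom.id_apply, sub_add_cancel])

theorem shear_rename {ρ : Type} (a e h : MvPolynomial ρ K) :
    shear a e (rename Sum.inl h) = rename Sum.inl h :=
  aeval_elim_rename _ h

theorem shear_y {ρ : Type} (a e : MvPolynomial ρ K) :
    shear a e (X (Sum.inr 0)) = X (Sum.inr 0) - rename Sum.inl a := by
  change aeval _ _ = _
  rw [aeval_X]
  rfl

theorem shear_t {ρ : Type} (a e : MvPolynomial ρ K) :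
    shear a e (X (Sum.inr 1)) = X (Sum.inr 1) + rename Sum.inl e := by
  change aeval _ _ = _
  rw [aeval_X]
  rfl

variable {PP : ∀ (ρ : Type) [Fintype ρ], ℕ → MvPolynomial ρ K → Prop}

theorem Chain.shear (hc : Chain PP) {ρ : Type} [Fintype ρ] {m : ℕ} {F : MvPolynomial ρ K}
    (h : PP ρ m F) (a e : MvPolynomial ρ K) :
    PP (ρ ⊕ Fin 2) (m + 1) (rename Sum.inl F +
      (X (Sum.inr 0) - rename Sum.inl a) * (X (Sum.inr 1) + rename Sum.inl e)) := by
  have h1 := hc.iso _ _ (Pool.Agent.W206.CU.KR.shear a e) _ _ (hc.step ρ m F h)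
  rwa [map_add, map_mul, shear_rename, shear_y, shear_t] at h1

/-- The polynomial of a list of monomials. -/
noncomputable def lp {σ : Type} (L : List (K × List σ)) : MvPolynomial σ K :=
  (L.map fun c => C c.1 * (c.2.map fun i => X i).prod).sum

theorem lp_nil {σ : Type} : lp ([] : List (K × List σ)) = 0 := by
  simp [lp]

theorem lp_cons {σ : Type} (c : K × List σ) (L : List (K × List σ)) :
    lp (c :: L) = C c.1 * (c.2.map fun i => X i).prod + lp L := by
  simp [lp]

theorem lp_append {σ : Type} (L L' : List (K × List σ)) : lp (L ++ L') = lp L + lp L' := by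
  simp [lp]

/-- Raising a term to the variables `σ ⊕ Fin 2`. -/
def lift {σ : Type} (c : K × List σ) : K × List (σ ⊕ Fin 2) := (c.1, c.2.map Sum.inl)

theorem rename_lp {σ : Type} (L : List (K × List σ)) :
    rename Sum.inl (lp L) = lp (L.map lift) := by
  induction L with
  | nil => simp [lp_nil]
  | cons c L ih =>
    rw [List.map_cons, lp_cons, lp_cons, map_add, ih]
    congr 1
    simp only [map_mul, rename_C, map_list_prod, List.map_map, lift]
    congr 1
    congr 2
    funext i
    simp only [Function.comp_apply, rename_X]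

/-- The total excess of the degrees over three. -/
def excess {σ : Type} (L : List (K × List σ)) : ℕ := (L.map fun c => c.2.length - 3).sum

omit [Field K] in
theorem excess_cons {σ : Type} (c : K × List σ) (L : List (K × List σ)) :
    excess (c :: L) = (c.2.length - 3) + excess L := by
  simp [excess]

omit [Field K] in
theorem excess_append {σ : Type} (L L' : List (K × List σ)) :
    excess (L ++ L') = excess L + excess L' := by
  simp [excess]

omit [Field K] in
theorem excess_lift {σ : Type} (L : List (K × List σ)) : excess (L.map lift) = excess L := by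
  simp [excess, lift, Function.comp_def]

/-- One move lowers the excess. -/
theorem Chain.reduce (hc : Chain PP) {σ : Type} [Fintype σ] {m : ℕ} {L : List (K × List σ)}
    (h : PP σ m (lp L)) (hL : ∃ c ∈ L, 3 < c.2.length) :
    ∃ L' : List (K × List (σ ⊕ Fin 2)), excess L' < excess L ∧
      PP (σ ⊕ Fin 2) (m + 1) (lp L') := by
  obtain ⟨⟨c, l⟩, hcL, hl⟩ := hL
  obtain ⟨s, s', rfl⟩ := List.append_of_mem hcL
  simp only at hl
  match l, hl with
  | i :: j :: k :: k' :: l, hl =>
    refine ⟨(1, [Sum.inr 0, Sum.inr 1]) :: (-1, [Sum.inr 1, Sum.inl i, Sum.inl j]) ::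
      (c, Sum.inr 0 :: Sum.inl k :: Sum.inl k' :: l.map Sum.inl) :: (s ++ s').map lift, ?_, ?_⟩
    · simp only [excess_cons, excess_append, List.map_append, excess_lift, List.length_cons,
        List.length_nil, List.length_map]
      omega
    · have h1 := hc.shear h (X i * X j) (C c * (X k * (X k' * (l.map fun i => X i).prod)))
      convert h1 using 1
      simp only [List.map_append, List.map_cons, lp_append, lp_cons, map_add, rename_lp,
        List.prod_cons, List.prod_nil, List.map_nil, List.map_map, map_mul, rename_C, rename_X,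
        map_list_prod, Function.comp_def]
      simp only [map_one, map_neg]
      ring

theorem Chain.dummy (hc : Chain PP) {σ : Type} [Fintype σ] {m : ℕ} {L : List (K × List σ)}
    (h : PP σ m (lp L)) : ∃ L' : List (K × List (σ ⊕ Fin 2)), PP (σ ⊕ Fin 2) (m + 1) (lp L') := by
  refine ⟨(1, [Sum.inr 0, Sum.inr 1]) :: L.map lift, ?_⟩
  have h1 := hc.shear h 0 0
  convert h1 using 1
  simp only [lp_cons, rename_lp, List.map_cons, List.map_nil, List.prod_cons, List.prod_nil,
    map_one, map_zero]
  ring

theorem Chain.dummies (hc : Chain PP) (N : ℕ) {σ : Type} [Fintype σ] {m : ℕ}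
    {L : List (K × List σ)} (h : PP σ m (lp L)) :
    ∃ (σ' : Type) (_ : Fintype σ') (L' : List (K × List σ')), PP σ' (m + N) (lp L') := by
  induction N generalizing σ m with
  | zero => exact ⟨σ, inferInstance, L, h⟩
  | succ N ih =>
    obtain ⟨L', h'⟩ := hc.dummy h
    obtain ⟨σ'', i1, L'', h''⟩ := ih h'
    refine ⟨σ'', i1, L'', ?_⟩
    have e : m + (N + 1) = m + 1 + N := by ring
    rw [e]
    exact h''

theorem Chain.cubic (hc : Chain PP) {σ : Type} [Fintype σ] {m : ℕ} {L : List (K × List σ)}
    (h : PP σ m (lp L)) :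
    ∃ (σ' : Type) (_ : Fintype σ') (L' : List (K × List σ')) (m' : ℕ),
      m ≤ m' ∧ (∀ c ∈ L', c.2.length ≤ 3) ∧ PP σ' m' (lp L') := by
  induction hN : excess L using Nat.strong_induction_on generalizing σ m with
  | _ N ih =>
    by_cases hL : ∃ c ∈ L, 3 < c.2.length
    · obtain ⟨L', hlt, h'⟩ := hc.reduce h hL
      obtain ⟨σ'', i1, L'', m', hm, h2, h3⟩ := ih _ (hN ▸ hlt) h' rfl
      exact ⟨σ'', i1, L'', m', by omega, h2, h3⟩
    · push Not at hL
      exact ⟨σ, inferInstance, L, m, le_rfl, hL, h⟩

theorem totalDegree_lp {σ : Type} (N : ℕ) (L : List (K × List σ)) (hL : ∀ c ∈ L, c.2.length ≤ N) :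
    (lp L).totalDegree ≤ N := by
  induction L with
  | nil => simp [lp_nil]
  | cons c L ih =>
    rw [lp_cons]
    refine (totalDegree_add _ _).trans (max_le ?_ (ih fun c hc => hL c (List.mem_cons_of_mem _ hc)))
    refine (totalDegree_mul _ _).trans ?_
    rw [totalDegree_C, zero_add]
    refine (totalDegree_list_prod _).trans ?_
    rw [List.map_map]
    refine le_trans ?_ (hL c (List.mem_cons_self))
    have : ∀ l : List σ, (l.map (totalDegree ∘ fun i => (X i : MvPolynomial σ K))).sum
        ≤ l.length := by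
      intro l
      induction l with
      | nil => simp
      | cons a l ih =>
        simp only [List.map_cons, List.sum_cons, List.length_cons, Function.comp_apply,
          totalDegree_X] at ih ⊢
        omega
    exact this _

theorem exists_lp {σ : Type} (f : MvPolynomial σ K) : ∃ L : List (K × List σ), f = lp L := by
  induction f using MvPolynomial.induction_on with
  | C a => exact ⟨[(a, [])], by simp [lp]⟩
  | add p q hp hq =>
    obtain ⟨L, rfl⟩ := hp
    obtain ⟨L', rfl⟩ := hq
    exact ⟨L ++ L', by rw [lp_append]⟩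
  | mul_X p i hp =>
    obtain ⟨L, rfl⟩ := hp
    refine ⟨L.map fun c => (c.1, i :: c.2), ?_⟩
    induction L with
    | nil => simp [lp_nil]
    | cons c L ih =>
      rw [List.map_cons, lp_cons, lp_cons, add_mul, ih]
      simp only [List.map_cons, List.prod_cons]
      ring

/-- The reduction principle: a property preserved by the moves and satisfied by `f` holds for
some polynomial of degree at most three, after any large enough number of moves. -/
theorem Chain.main (hc : Chain PP) {σ : Type} [Fintype σ] (f : MvPolynomial σ K)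
    (h : PP σ 0 f) (N : ℕ) :
    ∃ (n m : ℕ) (g : MvPolynomial (Fin n) K), N ≤ m ∧ g.totalDegree ≤ 3 ∧ PP (Fin n) m g := by
  obtain ⟨L, rfl⟩ := exists_lp f
  obtain ⟨σ1, i1, L1, h1⟩ := hc.dummies N h
  obtain ⟨σ2, i2, L2, m, hm, hq, h2⟩ := hc.cubic h1
  refine ⟨Fintype.card σ2, m, renameEquiv K (Fintype.equivFin σ2) (lp L2), by omega, ?_,
    hc.iso _ _ (renameEquiv K (Fintype.equivFin σ2)) _ _ h2⟩
  rw [renameEquiv_apply]
  exact (totalDegree_rename_le _ _).trans (totalDegree_lp 3 L2 hq)

end Pool.Agent.W206.CU.KR
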