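import Pool.Agent.W206.CU.RedK

set_option autoImplicit false

/-! Reduction of `u f`, `f` a polynomial over a field, to a cubic one of the shape `∑ t_j q_j(x)`
with `q_j` quadratic, by the moves `F ↦ F + (y - a) (t + e)` with new variables `y`, `t`. -/

namespace Pool.Agent.W206.CU.KP

open MvPolynomial
open Pool.Agent.W206.CU.KR (Chain)

variable {K : Type} [Field K]

/-- The polynomial `∑_j t_j q_j(x)` in the variables `x` and `t`. -/
noncomputable def quadSum {n k : ℕ} (q : Fin k → MvPolynomial (Fin n) K) :
    MvPolynomial (Fin n ⊕ Fin k) K :=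
  ∑ j, X (Sum.inr j) * rename Sum.inl (q j)

variable {PP : ∀ (ρ : Type) [Fintype ρ], ℕ → MvPolynomial ρ K → Prop}

/-- The polynomial of a list of monomials `c t x ⋯ x`. -/
noncomputable def lp {σ τ : Type} (L : List (K × τ × List σ)) : MvPolynomial (σ ⊕ τ) K :=
  (L.map fun c => C c.1 * X (Sum.inr c.2.1) * (c.2.2.map fun i => X (Sum.inl i)).prod).sum

theorem lp_nil {σ τ : Type} : lp ([] : List (K × τ × List σ)) = 0 := by
  simp [lp]

theorem lp_cons {σ τ : Type} (c : K × τ × List σ) (L : List (K × τ × List σ)) :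
    lp (c :: L) = C c.1 * X (Sum.inr c.2.1) * (c.2.2.map fun i => X (Sum.inl i)).prod + lp L := by
  simp [lp]

theorem lp_append {σ τ : Type} (L L' : List (K × τ × List σ)) :
    lp (L ++ L') = lp L + lp L' := by
  simp [lp]

/-- Raising a term to the variables `Option σ`, `Option τ`. -/
def lift {σ τ : Type} (c : K × τ × List σ) : K × Option τ × List (Option σ) :=
  (c.1, some c.2.1, c.2.2.map some)

/-- The renaming `(σ ⊕ τ) ⊕ {y, t} ≃ Option σ ⊕ Option τ`. -/
def ren (σ τ : Type) : (σ ⊕ τ) ⊕ Fin 2 ≃ Option σ ⊕ Option τ where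
  toFun := Sum.elim (Sum.map some some) ![Sum.inl none, Sum.inr none]
  invFun := Sum.elim (fun o => o.elim (Sum.inr 0) fun i => Sum.inl (Sum.inl i))
    (fun o => o.elim (Sum.inr 1) fun i => Sum.inl (Sum.inr i))
  left_inv := by
    rintro ((i | j) | k)
    · rfl
    · rfl
    · fin_cases k <;> rfl
  right_inv := by
    rintro ((_ | i) | (_ | j)) <;> rfl

theorem rename_lp {σ τ : Type} (L : List (K × τ × List σ)) :
    rename (ren σ τ) (rename Sum.inl (lp L)) = lp (L.map lift) := by
  induction L with
  | nil => simp [lp_nil]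
  | cons c L ih =>
    rw [List.map_cons, lp_cons, lp_cons, map_add, map_add, ih]
    congr 1
    simp only [map_mul, rename_C, rename_X, map_list_prod, List.map_map, lift]
    congr 1
    congr 2
    funext i
    simp only [Function.comp_apply, rename_X]
    rfl

theorem lpStep (hc : Chain PP) {σ τ : Type} [Fintype σ] [Fintype τ] {m : ℕ}
    {L : List (K × τ × List σ)} (h : PP (σ ⊕ τ) m (lp L))
    (a e : MvPolynomial (σ ⊕ τ) K) :
    PP (Option σ ⊕ Option τ) (m + 1) (lp (L.map lift) +
      (X (Sum.inl none) - rename (ren σ τ) (rename Sum.inl a)) *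
      (X (Sum.inr none) + rename (ren σ τ) (rename Sum.inl e))) := by
  have h1 := hc.iso _ _ (renameEquiv K (ren σ τ)) _ _ (hc.shear h a e)
  rw [renameEquiv_apply, map_add, rename_lp, map_mul, map_sub, map_add,
    rename_X, rename_X] at h1
  exact h1

/-- The total excess of the degrees in `x` over two. -/
def excess {σ τ : Type} (L : List (K × τ × List σ)) : ℕ :=
  (L.map fun c => c.2.2.length - 2).sum

omit [Field K] in
theorem excess_cons {σ τ : Type} (c : K × τ × List σ) (L : List (K × τ × List σ)) :
    excess (c :: L) = (c.2.2.length - 2) + excess L := by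
  simp [excess]

omit [Field K] in
theorem excess_append {σ τ : Type} (L L' : List (K × τ × List σ)) :
    excess (L ++ L') = excess L + excess L' := by
  simp [excess]

omit [Field K] in
theorem excess_lift {σ τ : Type} (L : List (K × τ × List σ)) :
    excess (L.map lift) = excess L := by
  simp [excess, lift, Function.comp_def]

/-- One move lowers the excess. -/
theorem reduce (hc : Chain PP) {σ τ : Type} [Fintype σ] [Fintype τ] {m : ℕ}
    {L : List (K × τ × List σ)} (h : PP (σ ⊕ τ) m (lp L))
    (hL : ∃ c ∈ L, 2 < c.2.2.length) :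
    ∃ L' : List (K × Option τ × List (Option σ)), excess L' < excess L ∧
      PP (Option σ ⊕ Option τ) (m + 1) (lp L') := by
  obtain ⟨⟨c, t, l⟩, hcL, hl⟩ := hL
  obtain ⟨s, s', rfl⟩ := List.append_of_mem hcL
  simp only at hl
  match l, hl with
  | i :: j :: k :: l, hl =>
    refine ⟨(1, none, [none]) :: (-1, none, [some i, some j]) ::
      (c, some t, none :: some k :: l.map some) :: (s ++ s').map lift, ?_, ?_⟩
    · simp only [excess_cons, excess_append, List.map_append, excess_lift, List.length_cons,
        List.length_nil, List.length_map]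
      omega
    · have h1 := lpStep hc h (X (Sum.inl i) * X (Sum.inl j))
        (C c * X (Sum.inr t) * (X (Sum.inl k) * (l.map fun i => X (Sum.inl i)).prod))
      convert h1 using 1
      simp only [List.map_append, List.map_cons, lp_append, lp_cons, lift, List.prod_cons,
        List.prod_nil, List.map_nil, List.map_map, map_mul, rename_C, rename_X, map_list_prod,
        Function.comp_def]
      simp only [ren, Equiv.coe_fn_mk, Sum.elim_inl, Sum.map_inl, Sum.map_inr, map_one, map_neg]
      ring

/-- A move which only adds the product `y t`. -/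
theorem dummy (hc : Chain PP) {σ τ : Type} [Fintype σ] [Fintype τ] {m : ℕ}
    {L : List (K × τ × List σ)} (h : PP (σ ⊕ τ) m (lp L)) :
    ∃ L' : List (K × Option τ × List (Option σ)),
      PP (Option σ ⊕ Option τ) (m + 1) (lp L') := by
  refine ⟨(1, none, [none]) :: L.map lift, ?_⟩
  have h1 := lpStep hc h 0 0
  convert h1 using 1
  simp only [lp_cons, List.map_cons, List.map_nil, List.prod_cons, List.prod_nil, map_one,
    map_zero]
  ring

theorem dummies (hc : Chain PP) (N : ℕ) {σ τ : Type} [Fintype σ] [Fintype τ] {m : ℕ}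
    {L : List (K × τ × List σ)} (h : PP (σ ⊕ τ) m (lp L)) :
    ∃ (σ' τ' : Type) (_ : Fintype σ') (_ : Fintype τ') (L' : List (K × τ' × List σ')),
      PP (σ' ⊕ τ') (m + N) (lp L') := by
  induction N generalizing σ τ m with
  | zero => exact ⟨σ, τ, inferInstance, inferInstance, L, h⟩
  | succ N ih =>
    obtain ⟨L', h'⟩ := dummy hc h
    obtain ⟨σ'', τ'', i1, i2, L'', h''⟩ := ih h'
    refine ⟨σ'', τ'', i1, i2, L'', ?_⟩
    have e : m + (N + 1) = m + 1 + N := by ring
    rw [e]
    exact h''

theorem quadratic (hc : Chain PP) {σ τ : Type} [Fintype σ] [Fintype τ] {m : ℕ}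
    {L : List (K × τ × List σ)} (h : PP (σ ⊕ τ) m (lp L)) :
    ∃ (σ' τ' : Type) (_ : Fintype σ') (_ : Fintype τ') (L' : List (K × τ' × List σ'))
      (m' : ℕ), m ≤ m' ∧ (∀ c ∈ L', c.2.2.length ≤ 2) ∧
        PP (σ' ⊕ τ') m' (lp L') := by
  induction hN : excess L using Nat.strong_induction_on generalizing σ τ m with
  | _ N ih =>
    by_cases hL : ∃ c ∈ L, 2 < c.2.2.length
    · obtain ⟨L', hlt, h'⟩ := reduce hc h hL
      obtain ⟨σ'', τ'', i1, i2, L'', m', hm, h2, h3⟩ := ih _ (hN ▸ hlt) h' rfl
      exact ⟨σ'', τ'', i1, i2, L'', m', by omega, h2, h3⟩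
    · push Not at hL
      exact ⟨σ, τ, inferInstance, inferInstance, L, m, le_rfl, hL, h⟩

/-- A list with monomials of degree at most two in `x` gives a sum `∑ t_j q_j(x)`. -/
theorem exists_quad {σ τ : Type} {n k : ℕ} (e : σ → Fin n) (e' : τ → Fin k)
    (L : List (K × τ × List σ)) (hL : ∀ c ∈ L, c.2.2.length ≤ 2) :
    ∃ q : Fin k → MvPolynomial (Fin n) K, (∀ j, (q j).totalDegree ≤ 2) ∧
      rename (Sum.map e e') (lp L) = ∑ j, X (Sum.inr j) * rename Sum.inl (q j) := by
  classical
  induction L with
  | nil => exact ⟨0, by simp, by simp [lp_nil]⟩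
  | cons c L ih =>
    obtain ⟨q, hq, hq'⟩ := ih fun c hc => hL c (List.mem_cons_of_mem _ hc)
    refine ⟨fun j => (if j = e' c.2.1 then C c.1 * ((c.2.2.map e).map fun i => X i).prod else 0) +
      q j, fun j => ?_, ?_⟩
    · refine (totalDegree_add _ _).trans (max_le ?_ (hq j))
      split_ifs
      · refine (totalDegree_mul _ _).trans ?_
        rw [totalDegree_C, zero_add]
        refine (totalDegree_list_prod _).trans ?_
        rw [List.map_map]
        refine le_trans ?_ (hL c (List.mem_cons_self))
        have : ∀ l : List (Fin n),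
            (l.map (totalDegree ∘ fun i => (X i : MvPolynomial (Fin n) K))).sum ≤ l.length := by
          intro l
          induction l with
          | nil => simp
          | cons a l ih =>
            simp only [List.map_cons, List.sum_cons, List.length_cons, Function.comp_apply,
              totalDegree_X] at ih ⊢
            omega
        exact (this _).trans (by rw [List.length_map])
      · simp
    · rw [lp_cons, map_add, hq']
      simp only [map_add, mul_add, Finset.sum_add_distrib]
      congr 1
      rw [Finset.sum_eq_single (e' c.2.1)]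
      · rw [if_pos rfl]
        simp only [map_mul, rename_C, rename_X, map_list_prod, List.map_map,
          Function.comp_def, Sum.map_inl, Sum.map_inr]
        ring
      · intro j _ hj
        rw [if_neg hj]
        simp
      · simp

theorem exists_lp1 {n r : ℕ} (j : Fin r) (f : MvPolynomial (Fin n) K) :
    ∃ L : List (K × Fin r × List (Fin n)),
      X (Sum.inr j) * rename Sum.inl f = lp L := by
  induction f using MvPolynomial.induction_on with
  | C a => exact ⟨[(a, j, [])], by simp [lp, mul_comm]⟩
  | add p q hp hq =>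
    obtain ⟨L, hL⟩ := hp
    obtain ⟨L', hL'⟩ := hq
    exact ⟨L ++ L', by rw [lp_append, ← hL, ← hL', map_add, mul_add]⟩
  | mul_X p i hp =>
    obtain ⟨L, hL⟩ := hp
    refine ⟨L.map fun c => (c.1, c.2.1, i :: c.2.2), ?_⟩
    rw [map_mul, ← mul_assoc, hL, rename_X]
    clear hL
    induction L with
    | nil => simp [lp_nil]
    | cons c L ih =>
      rw [List.map_cons, lp_cons, lp_cons, add_mul, ih]
      simp only [List.map_cons, List.prod_cons]
      ring

/-- The polynomials `∑_j t_j f_j(x)` are given by lists. -/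
theorem exists_lp {n r : ℕ} (f : Fin r → MvPolynomial (Fin n) K) :
    ∃ L : List (K × Fin r × List (Fin n)), quadSum f = lp L := by
  rw [quadSum]
  have : ∀ s : Finset (Fin r), ∃ L : List (K × Fin r × List (Fin n)),
      ∑ j ∈ s, X (Sum.inr j) * rename Sum.inl (f j) = lp L := by
    classical
    intro s
    induction s using Finset.induction_on with
    | empty => exact ⟨[], by rw [Finset.sum_empty, lp_nil]⟩
    | insert j s hj ih =>
      obtain ⟨L, hL⟩ := ih
      obtain ⟨L', hL'⟩ := exists_lp1 j (f j)
      exact ⟨L' ++ L, by rw [Finset.sum_insert hj, lp_append, hL, hL']⟩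
  exact this _

/-- The reduction principle: a property preserved by the moves and satisfied by `∑ t_j f_j(x)`
holds for some polynomial `∑ t_j q_j(x)` with `q_j` quadratic, after any large enough number of
moves. -/
theorem main (hc : Chain PP) {n r : ℕ} (f : Fin r → MvPolynomial (Fin n) K)
    (h : PP (Fin n ⊕ Fin r) 0 (quadSum f)) (N : ℕ) :
    ∃ (n' k m : ℕ) (q : Fin k → MvPolynomial (Fin n') K), N ≤ m ∧
      (∀ j, (q j).totalDegree ≤ 2) ∧ PP (Fin n' ⊕ Fin k) m (quadSum q) := by
  obtain ⟨L, hL⟩ := exists_lp f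
  rw [hL] at h
  obtain ⟨σ1, τ1, i1, i2, L1, h1⟩ := dummies hc N h
  obtain ⟨σ', τ', i5, i6, L3, m, hm, hq3, h3⟩ := quadratic hc h1
  let e := Fintype.equivFin σ'
  let e' := Fintype.equivFin τ'
  obtain ⟨q, hq, hq'⟩ := exists_quad e e' L3 hq3
  refine ⟨_, _, m, q, by omega, hq, ?_⟩
  have h4 := hc.iso _ _ (renameEquiv K (Equiv.sumCongr e e')) _ _ h3
  have h5 : ⇑(e.sumCongr e') = Sum.map e e' := rfl
  rw [renameEquiv_apply, h5, hq'] at h4
  exact h4

end Pool.Agent.W206.CU.KP
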