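import Pool.Agent.W206.CU.Pole
import Pool.Agent.W427.SMC.Defs

set_option autoImplicit false

/-! Igusa's zeta function as a power series in `p ^ (-s)`. -/

namespace Pool.Agent.W206.CU

open MvPolynomial MeasureTheory
open Pool.Agent.H628R4.TP (weylS IsBFunction IsBernsteinSatoOf)
open Pool.Agent.W427.SMC (igusaZeta)

theorem cpow_of_pos {a : ℝ} (ha : 0 < a) (s : ℂ) :
    (a : ℂ) ^ s = Complex.exp ((Real.log a : ℝ) * s) := by
  rw [Complex.cpow_def_of_ne_zero (by exact_mod_cast ha.ne'), Complex.ofReal_log ha.le]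

section measure

variable {p : ℕ} [hp : Fact p.Prime] {V : Type} [Fintype V]
  [MeasurableSpace (V → ℤ_[p])] [BorelSpace (V → ℤ_[p])]

/-- The Haar measure of total mass one. -/
noncomputable def hm (p : ℕ) [Fact p.Prime] (V : Type) [Fintype V]
    [MeasurableSpace (V → ℤ_[p])] [BorelSpace (V → ℤ_[p])] : Measure (V → ℤ_[p]) :=
  Measure.addHaarMeasure (⊤ : TopologicalSpace.PositiveCompacts (V → ℤ_[p]))

instance : IsProbabilityMeasure (hm p V) :=
  ⟨Measure.addHaarMeasure_self (K₀ := (⊤ : TopologicalSpace.PositiveCompacts (V → ℤ_[p])))⟩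

instance : (hm p V).IsAddLeftInvariant := by
  unfold hm
  infer_instance

theorem toZModPow_aeval (F : MvPolynomial V ℤ) (M : ℕ) (x : V → ℤ_[p]) :
    PadicInt.toZModPow M (aeval x F) = aeval (fun i => PadicInt.toZModPow M (x i)) F := by
  rw [aeval_def, aeval_def, hom_eval₂ F (algebraMap ℤ ℤ_[p]) (PadicInt.toZModPow M) x]
  congr 1
  exact RingHom.ext_int _ _

theorem dvd_iff (F : MvPolynomial V ℤ) (M : ℕ) (x : V → ℤ_[p]) :
    (p : ℤ_[p]) ^ M ∣ aeval x F ↔ aeval (fun i => PadicInt.toZModPow M (x i)) F = 0 := by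
  rw [← toZModPow_aeval, ← RingHom.mem_ker, PadicInt.ker_toZModPow, Ideal.mem_span_singleton]

theorem continuous_aeval_padic (F : MvPolynomial V ℤ) :
    Continuous fun x : V → ℤ_[p] => aeval x F := by
  have : (fun x : V → ℤ_[p] => aeval x F) =
      fun x => eval x (map (Int.castRingHom ℤ_[p]) F) := by
    funext x
    rw [aeval_def, eval_map]
    rfl
  rw [this]
  exact MvPolynomial.continuous_eval _

/-- The set where `p ^ M` divides `F`. -/
def lev (F : MvPolynomial V ℤ) (M : ℕ) : Set (V → ℤ_[p]) :=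
  {x | (p : ℤ_[p]) ^ M ∣ aeval x F}

theorem lev_eq (F : MvPolynomial V ℤ) (M : ℕ) :
    lev (p := p) F M = {x | ‖(aeval x F : ℤ_[p])‖ ≤ (p : ℝ) ^ (-(M : ℤ))} := by
  ext x
  rw [lev, Set.mem_ofPred_eq, Set.mem_ofPred_eq, PadicInt.norm_le_pow_iff_mem_span_pow,
    Ideal.mem_span_singleton]

theorem measurableSet_lev (F : MvPolynomial V ℤ) (M : ℕ) : MeasurableSet (lev (p := p) F M) := by
  rw [lev_eq]
  exact (isClosed_le (continuous_norm.comp (continuous_aeval_padic F))
    continuous_const).measurableSet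

/-- The fibre of the reduction modulo `p ^ M`. -/
def fib (M : ℕ) (z : V → ZMod (p ^ M)) : Set (V → ℤ_[p]) :=
  {x | ∀ i, PadicInt.toZModPow M (x i) = z i}

theorem measurableSet_fib (M : ℕ) (z : V → ZMod (p ^ M)) :
    MeasurableSet (fib (p := p) M z) := by
  have h : fib (p := p) M z = ⋂ i, (fun x : V → ℤ_[p] => x i) ⁻¹'
      {a | PadicInt.toZModPow M a = z i} := by
    ext x
    simp [fib]
  rw [h]
  refine IsClosed.measurableSet (isClosed_iInter fun i => IsClosed.preimage (continuous_apply i) ?_)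
  obtain ⟨a, ha⟩ := ZMod.ringHom_surjective (PadicInt.toZModPow (p := p) M) (z i)
  have h2 : {b | PadicInt.toZModPow M b = z i} = {b : ℤ_[p] | ‖b - a‖ ≤ (p : ℝ) ^ (-(M : ℤ))} := by
    ext b
    rw [Set.mem_ofPred_eq, Set.mem_ofPred_eq, PadicInt.norm_le_pow_iff_mem_span_pow,
      ← PadicInt.ker_toZModPow, RingHom.mem_ker, map_sub, ha, sub_eq_zero]
  rw [h2]
  exact isClosed_le (continuous_norm.comp (continuous_id.sub continuous_const)) continuous_const

theorem measure_fib_eq (M : ℕ) (z : V → ZMod (p ^ M)) :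
    hm p V (fib M z) = hm p V (fib M 0) := by
  choose a ha using fun i => ZMod.ringHom_surjective (PadicInt.toZModPow (p := p) M) (z i)
  have h : fib (p := p) M z = (fun y => -a + y) ⁻¹' fib M 0 := by
    ext x
    simp only [fib, Set.mem_ofPred_eq, Set.mem_preimage, Pi.add_apply, Pi.neg_apply, map_add,
      map_neg, ha, Pi.zero_apply]
    refine forall_congr' fun i => ?_
    rw [neg_add_eq_zero]
    exact eq_comm
  rw [h, measure_preimage_add]

theorem measure_sol (F : MvPolynomial V ℤ) (M : ℕ) :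
    (hm p V (lev F M)).toReal = ((dens p F M : ℚ) : ℝ) := by
  classical
  have : NeZero (p ^ M) := ⟨pow_ne_zero _ hp.out.ne_zero⟩
  have hsum : ∀ S : Finset (V → ZMod (p ^ M)),
      hm p V (⋃ z ∈ S, fib M z) = S.card * hm p V (fib M 0) := by
    intro S
    rw [measure_biUnion_finset ?_ fun z _ => measurableSet_fib M z]
    · rw [Finset.sum_congr rfl fun z _ => measure_fib_eq M z, Finset.sum_const, nsmul_eq_mul]
    · intro z _ z' _ hne
      rw [Function.onFun, Set.disjoint_left]
      intro x hx hx'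
      exact hne (funext fun i => (hx i).symm.trans (hx' i))
  have h1 : hm p V (⋃ z ∈ (Finset.univ : Finset (V → ZMod (p ^ M))), fib M z) = 1 := by
    have : (⋃ z ∈ (Finset.univ : Finset (V → ZMod (p ^ M))), fib (p := p) M z) = Set.univ := by
      ext x
      simp only [Finset.mem_univ, Set.iUnion_true, Set.mem_iUnion, Set.mem_univ, iff_true]
      exact ⟨fun i => PadicInt.toZModPow M (x i), fun i => rfl⟩
    rw [this, measure_univ]
  have h2 : lev (p := p) F M =
      ⋃ z ∈ (Finset.univ.filter fun z : V → ZMod (p ^ M) => aeval z F = 0), fib M z := by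
    ext x
    simp only [lev, Set.mem_ofPred_eq, dvd_iff, Finset.mem_filter, Finset.mem_univ, true_and,
      Set.mem_iUnion, exists_prop]
    constructor
    · intro h
      exact ⟨_, h, fun i => rfl⟩
    · rintro ⟨z, hz, hx⟩
      have : (fun i => PadicInt.toZModPow M (x i)) = z := funext hx
      rw [this, hz]
  rw [hsum] at h1
  rw [h2, hsum, ENNReal.toReal_mul]
  have h3 := congrArg ENNReal.toReal h1
  rw [ENNReal.toReal_mul] at h3
  simp only [ENNReal.toReal_natCast, ENNReal.toReal_one, Finset.card_univ, Fintype.card_fun,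
    ZMod.card] at h3
  rw [ENNReal.toReal_natCast, dens, numIn, Nat.card_eq_fintype_card, Fintype.card_subtype,
    Nat.card_eq_fintype_card]
  push_cast at h3 ⊢
  rw [eq_div_iff (pow_ne_zero _ (pow_ne_zero _ (by exact_mod_cast hp.out.ne_zero)))]
  linear_combination ((Finset.univ.filter fun z : V → ZMod (p ^ M) => aeval z F = 0).card : ℝ) * h3

/-- The integral, as a power series in `p ^ (-s)`. -/
theorem hasSum_integral (F : MvPolynomial V ℤ) {s : ℂ} (hs : 0 < s.re) :
    HasSum (fun M : ℕ => (((dens p F M - dens p F (M + 1) : ℚ)) : ℂ) * ((p : ℂ) ^ (-s)) ^ M)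
      (∫ x : V → ℤ_[p], ((‖(aeval x F : ℤ_[p])‖ : ℝ) : ℂ) ^ s ∂(hm p V)) := by
  have hs0 : s ≠ 0 := by
    rintro rfl
    simp at hs
  have hp0 : (p : ℝ) ≠ 0 := by exact_mod_cast hp.out.ne_zero
  have hcont : Continuous fun x : V → ℤ_[p] => ((‖(aeval x F : ℤ_[p])‖ : ℝ) : ℂ) ^ s :=
    (Complex.continuous_ofReal_cpow_const hs).comp
      (continuous_norm.comp (continuous_aeval_padic F))
  have hint : Integrable (fun x : V → ℤ_[p] => ((‖(aeval x F : ℤ_[p])‖ : ℝ) : ℂ) ^ s)
      (hm p V) := by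
    refine Integrable.of_bound (C := 1) hcont.aestronglyMeasurable ?_
    refine Filter.Eventually.of_forall fun x => ?_
    by_cases h : (aeval x F : ℤ_[p]) = 0
    · simp [h, Complex.zero_cpow hs0]
    · rw [Complex.norm_cpow_eq_rpow_re_of_pos (norm_pos_iff.2 h)]
      exact Real.rpow_le_one (norm_nonneg _) (PadicInt.norm_le_one _) hs.le
  set S : ℕ → Set (V → ℤ_[p]) := fun M => lev F M \ lev F (M + 1) with hS
  have hSmeas : ∀ M, MeasurableSet (S M) := fun M =>
    (measurableSet_lev F M).diff (measurableSet_lev F (M + 1))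
  have hmono : ∀ M N, M ≤ N → lev (p := p) F N ⊆ lev F M := fun M N h x hx =>
    (pow_dvd_pow _ h).trans hx
  have hdisj : Pairwise (Function.onFun Disjoint S) := by
    intro M N hne
    rw [Function.onFun, Set.disjoint_left]
    rintro x ⟨h1, h2⟩ ⟨h3, h4⟩
    rcases lt_or_gt_of_ne hne with h | h
    · exact h2 (hmono _ _ h h3)
    · exact h4 (hmono _ _ h h1)
  have hval : ∀ M, ∀ x ∈ S M, ((‖(aeval x F : ℤ_[p])‖ : ℝ) : ℂ) ^ s = ((p : ℂ) ^ (-s)) ^ M := by
    rintro M x ⟨h1, h2⟩
    have hne : (aeval x F : ℤ_[p]) ≠ 0 := by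
      intro h
      apply h2
      rw [lev, Set.mem_ofPred_eq, h]
      exact dvd_zero _
    have hv : ((aeval x F : ℤ_[p])).valuation = M := by
      rw [lev, Set.mem_ofPred_eq, ← Ideal.mem_span_singleton,
        PadicInt.mem_span_pow_iff_le_valuation _ hne] at h1 h2
      omega
    have hpp : (0 : ℝ) < p := by exact_mod_cast hp.out.pos
    have e1 : ((p : ℂ) ^ (-s)) = Complex.exp ((Real.log p : ℝ) * (-s)) := by
      have := cpow_of_pos hpp (-s)
      rwa [Complex.ofReal_natCast] at this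
    rw [PadicInt.norm_eq_zpow_neg_valuation hne, hv, zpow_neg, zpow_natCast,
      cpow_of_pos (inv_pos.2 (pow_pos hpp M)), e1, ← Complex.exp_nat_mul, Real.log_inv,
      Real.log_pow]
    congr 1
    push_cast
    ring
  have hcompl : ∀ x, x ∉ (⋃ M, S M) → ((‖(aeval x F : ℤ_[p])‖ : ℝ) : ℂ) ^ s = 0 := by
    intro x hx
    have h0 : (aeval x F : ℤ_[p]) = 0 := by
      by_contra hne
      apply hx
      rw [Set.mem_iUnion]
      refine ⟨((aeval x F : ℤ_[p])).valuation, ?_, ?_⟩
      · rw [lev, Set.mem_ofPred_eq, ← Ideal.mem_span_singleton,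
          PadicInt.mem_span_pow_iff_le_valuation _ hne]
      · rw [lev, Set.mem_ofPred_eq, ← Ideal.mem_span_singleton,
          PadicInt.mem_span_pow_iff_le_valuation _ hne]
        omega
    rw [h0, norm_zero, Complex.ofReal_zero, Complex.zero_cpow hs0]
  have h1 := hasSum_integral_iUnion (μ := hm p V) hSmeas hdisj hint.integrableOn
  rw [setIntegral_eq_integral_of_forall_compl_eq_zero hcompl] at h1
  have h2 : (fun M : ℕ => ∫ x in S M, ((‖(aeval x F : ℤ_[p])‖ : ℝ) : ℂ) ^ s ∂(hm p V)) =
      fun M : ℕ => (((dens p F M - dens p F (M + 1) : ℚ)) : ℂ) * ((p : ℂ) ^ (-s)) ^ M := by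
    funext M
    have h3 : (hm p V (S M)).toReal = ((dens p F M - dens p F (M + 1) : ℚ) : ℝ) := by
      rw [hS]
      beta_reduce
      rw [measure_sdiff (hmono M (M + 1) (Nat.le_succ M))
        (measurableSet_lev F (M + 1)).nullMeasurableSet
        (measure_ne_top _ _), ENNReal.toReal_sub_of_le
        (measure_mono (hmono M (M + 1) (Nat.le_succ M)))
        (measure_ne_top _ _), measure_sol, measure_sol]
      push_cast
      rfl
    rw [setIntegral_congr_fun (hSmeas M) (hval M), setIntegral_const, Measure.real, h3,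
      Complex.real_smul]
    push_cast
    rfl
  rw [h2] at h1
  exact h1

end measure

end Pool.Agent.W206.CU
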