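import Pool.Agent.W206.CU.Zeta

set_option autoImplicit false

/-! The relation between the zeta functions of `f` and of the cubic, and their poles. -/

namespace Pool.Agent.W206.CU

open MvPolynomial MeasureTheory Filter Topology
open Pool.Agent.H628R4.TP (weylS IsBFunction IsBernsteinSatoOf)
open Pool.Agent.W427.SMC (igusaZeta)

variable (p : ℕ) [hp : Fact p.Prime]

theorem hasSum_igusa {V : Type} [Fintype V] (F : MvPolynomial V ℤ) {s : ℂ} (hs : 0 < s.re) :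
    HasSum (fun M : ℕ => (((dens p F M - dens p F (M + 1) : ℚ)) : ℂ) * ((p : ℂ) ^ (-s)) ^ M)
      (igusaZeta p F s) := by
  let _ : MeasurableSpace (V → ℤ_[p]) := borel _
  have _ : BorelSpace (V → ℤ_[p]) := ⟨rfl⟩
  exact hasSum_integral F hs

theorem igusa_iso {ρ ρ' : Type} [Fintype ρ] [Fintype ρ']
    (e : MvPolynomial ρ ℤ ≃ₐ[ℤ] MvPolynomial ρ' ℤ) (F : MvPolynomial ρ ℤ) {s : ℂ}
    (hs : 0 < s.re) : igusaZeta p (e F) s = igusaZeta p F s := by
  refine (hasSum_igusa p (e F) hs).unique ?_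
  simp only [dens_iso]
  exact hasSum_igusa p F hs

theorem norm_igusa_le {V : Type} [Fintype V] (F : MvPolynomial V ℤ) {s : ℂ} (hs : 0 < s.re) :
    ‖igusaZeta p F s‖ ≤ 1 := by
  let _ : MeasurableSpace (V → ℤ_[p]) := borel _
  have _ : BorelSpace (V → ℤ_[p]) := ⟨rfl⟩
  have h : igusaZeta p F s =
      ∫ x : V → ℤ_[p], ((‖(aeval x F : ℤ_[p])‖ : ℝ) : ℂ) ^ s ∂(hm p V) := rfl
  rw [h]
  have hs0 : s ≠ 0 := by
    rintro rfl
    simp at hs
  have h1 : ∀ x : V → ℤ_[p], ‖((‖(aeval x F : ℤ_[p])‖ : ℝ) : ℂ) ^ s‖ ≤ 1 := by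
    intro x
    by_cases h : (aeval x F : ℤ_[p]) = 0
    · simp [h, Complex.zero_cpow hs0]
    · rw [Complex.norm_cpow_eq_rpow_re_of_pos (norm_pos_iff.2 h)]
      exact Real.rpow_le_one (norm_nonneg _) (PadicInt.norm_le_one _) hs.le
  have h2 := norm_integral_le_of_norm_le_const (μ := hm p V) (Eventually.of_forall h1)
  simpa using h2

theorem dens_nonneg {V : Type} (F : MvPolynomial V ℤ) (M : ℕ) : 0 ≤ dens p F M := by
  unfold dens
  positivity

theorem dens_le_one {V : Type} [Fintype V] (F : MvPolynomial V ℤ) (M : ℕ) : dens p F M ≤ 1 := by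
  have hp0 : (0 : ℚ) < p := by exact_mod_cast hp.out.pos
  rw [dens, div_le_one (by positivity), numIn]
  have h : Nat.card {x : V → ZMod (p ^ M) // aeval x F = 0} ≤ Nat.card (V → ZMod (p ^ M)) :=
    Nat.card_le_card_of_injective _ Subtype.val_injective
  rw [Nat.card_fun, Nat.card_zmod] at h
  exact_mod_cast h

theorem summable_dens {V : Type} [Fintype V] (F : MvPolynomial V ℤ) {T : ℂ} (hT : ‖T‖ < 1) :
    Summable fun M : ℕ => ((dens p F M : ℚ) : ℂ) * T ^ M := by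
  refine Summable.of_norm_bounded (summable_geometric_of_lt_one (norm_nonneg _) hT) fun M => ?_
  rw [norm_mul, norm_pow]
  have h : ‖((dens p F M : ℚ) : ℂ)‖ ≤ 1 := by
    have e : ((dens p F M : ℚ) : ℂ) = (((dens p F M : ℚ) : ℝ) : ℂ) := by push_cast; rfl
    rw [e, Complex.norm_real, Real.norm_of_nonneg (by exact_mod_cast dens_nonneg p F M)]
    exact_mod_cast dens_le_one p F M
  exact mul_le_of_le_one_left (pow_nonneg (norm_nonneg _) _) h

/-- The generating function of the densities. -/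
noncomputable def gen {V : Type} (F : MvPolynomial V ℤ) (T : ℂ) : ℂ :=
  ∑' M : ℕ, ((dens p F M : ℚ) : ℂ) * T ^ M

theorem gen_succ {V : Type} [Fintype V] (F : MvPolynomial V ℤ) {T : ℂ} (hT : ‖T‖ < 1) :
    gen p F T = 1 + T * ∑' M : ℕ, ((dens p F (M + 1) : ℚ) : ℂ) * T ^ M := by
  rw [gen, (summable_dens p F hT).tsum_eq_zero_add, dens_zero, ← tsum_mul_left]
  simp only [Rat.cast_one, pow_zero, mul_one]
  congr 1
  refine tsum_congr fun M => ?_
  ring

theorem summable_dens_succ {V : Type} [Fintype V] (F : MvPolynomial V ℤ) {T : ℂ} (hT : ‖T‖ < 1) :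
    Summable fun M : ℕ => ((dens p F (M + 1) : ℚ) : ℂ) * T ^ M := by
  refine Summable.of_norm_bounded (summable_geometric_of_lt_one (norm_nonneg _) hT) fun M => ?_
  rw [norm_mul, norm_pow]
  have h : ‖((dens p F (M + 1) : ℚ) : ℂ)‖ ≤ 1 := by
    have e : ((dens p F (M + 1) : ℚ) : ℂ) = (((dens p F (M + 1) : ℚ) : ℝ) : ℂ) := by
      push_cast; rfl
    rw [e, Complex.norm_real, Real.norm_of_nonneg (by exact_mod_cast dens_nonneg p F (M + 1))]
    exact_mod_cast dens_le_one p F (M + 1)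
  exact mul_le_of_le_one_left (pow_nonneg (norm_nonneg _) _) h

theorem gen_igusa {V : Type} [Fintype V] (F : MvPolynomial V ℤ) {s : ℂ} (hs : 0 < s.re)
    (hT : ‖(p : ℂ) ^ (-s)‖ < 1) :
    (1 - (p : ℂ) ^ (-s)) * gen p F ((p : ℂ) ^ (-s)) = 1 - (p : ℂ) ^ (-s) * igusaZeta p F s := by
  have h1 := (hasSum_igusa p F hs).tsum_eq
  have h2 := gen_succ p F hT
  have h3 : ∑' M : ℕ, (((dens p F M - dens p F (M + 1) : ℚ)) : ℂ) * ((p : ℂ) ^ (-s)) ^ M =
      gen p F ((p : ℂ) ^ (-s)) -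
        ∑' M : ℕ, ((dens p F (M + 1) : ℚ) : ℂ) * ((p : ℂ) ^ (-s)) ^ M := by
    rw [gen, ← (summable_dens p F hT).tsum_sub (summable_dens_succ p F hT)]
    refine tsum_congr fun M => ?_
    push_cast
    ring
  rw [← h1, h3]
  linear_combination h2

/-- The functional equation, for the generating functions. -/
theorem gen_follow {n : ℕ} {f : MvPolynomial (Fin n) ℤ} {ρ : Type} [Fintype ρ] {m : ℕ}
    {F : MvPolynomial ρ ℤ} (h : Follow f ρ m F) {T : ℂ} (hT : ‖T‖ < 1) :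
    (1 - (p : ℂ)⁻¹ * T) * gen p F T =
      (p : ℂ)⁻¹ + (1 - (p : ℂ)⁻¹) * gen p f (((p : ℂ)⁻¹) ^ m * T) := by
  have hp1 : ‖((p : ℂ)⁻¹) ^ m‖ ≤ 1 := by
    rw [norm_pow, norm_inv, Complex.norm_natCast]
    exact pow_le_one₀ (by positivity) (inv_le_one_of_one_le₀ (by exact_mod_cast hp.out.one_lt.le))
  have hT' : ‖((p : ℂ)⁻¹) ^ m * T‖ < 1 := by
    rw [norm_mul]
    exact lt_of_le_of_lt (mul_le_of_le_one_left (norm_nonneg _) hp1) hT
  have h1 := gen_succ p F hT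
  have h2 := gen_succ p f hT'
  have h3 : ∑' M : ℕ, ((dens p F (M + 1) : ℚ) : ℂ) * T ^ M - (p : ℂ)⁻¹ * gen p F T =
      (1 - (p : ℂ)⁻¹) * (((p : ℂ)⁻¹) ^ m *
        ∑' M : ℕ, ((dens p f (M + 1) : ℚ) : ℂ) * (((p : ℂ)⁻¹) ^ m * T) ^ M) := by
    rw [gen, ← tsum_mul_left, ← (summable_dens_succ p F hT).tsum_sub
      ((summable_dens p F hT).mul_left _), ← tsum_mul_left, ← tsum_mul_left]
    refine tsum_congr fun M => ?_
    have h4 := congrArg (fun x : ℚ => (x : ℂ)) (h.2.1 p M)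
    push_cast at h4
    rw [one_div] at h4
    rw [mul_pow]
    linear_combination T ^ M * h4
  rw [h2]
  linear_combination h1 + T * h3

/-! ### Continuation and poles -/

theorem analyticAt_T (s : ℂ) : AnalyticAt ℂ (fun s : ℂ => (p : ℂ) ^ (-s)) s := by
  have h : Differentiable ℂ fun s : ℂ => (p : ℂ) ^ (-s) := by
    intro s
    exact (differentiableAt_id.neg).const_cpow (Or.inl (by exact_mod_cast hp.out.ne_zero))
  exact h.analyticAt s

theorem norm_T (s : ℂ) : ‖(p : ℂ) ^ (-s)‖ = (p : ℝ) ^ (-s.re) := by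
  have h := Complex.norm_cpow_eq_rpow_re_of_pos (x := (p : ℝ)) (by exact_mod_cast hp.out.pos) (-s)
  rwa [Complex.ofReal_natCast, Complex.neg_re] at h

/-- The additive term of the relation. -/
noncomputable def AA (m : ℕ) (s : ℂ) : ℂ :=
  (1 - (1 - (p : ℂ) ^ (-s)) * (1 - (p : ℂ)⁻¹ * (p : ℂ) ^ (-s))⁻¹ *
    ((p : ℂ)⁻¹ + (1 - (p : ℂ)⁻¹) * (1 - ((p : ℂ)⁻¹) ^ m * (p : ℂ) ^ (-s))⁻¹)) *
    ((p : ℂ) ^ (-s))⁻¹

/-- The factor of the relation. -/
noncomputable def BB (m : ℕ) (s : ℂ) : ℂ :=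
  (1 - (p : ℂ) ^ (-s)) * (1 - (p : ℂ)⁻¹ * (p : ℂ) ^ (-s))⁻¹ *
    ((1 - (p : ℂ)⁻¹) * (1 - ((p : ℂ)⁻¹) ^ m * (p : ℂ) ^ (-s))⁻¹ * ((p : ℂ)⁻¹) ^ m)

theorem T_ne_zero (s : ℂ) : (p : ℂ) ^ (-s) ≠ 0 := by
  rw [Complex.cpow_def_of_ne_zero (by exact_mod_cast hp.out.ne_zero)]
  exact Complex.exp_ne_zero _

theorem sub_ne_zero_of_norm_lt {z : ℂ} (h : ‖z‖ < 1) : 1 - z ≠ 0 := by
  intro h1
  rw [← sub_eq_zero.1 h1, norm_one] at h
  exact lt_irrefl _ h

theorem sub_ne_zero_of_lt_norm {z : ℂ} (h : 1 < ‖z‖) : 1 - z ≠ 0 := by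
  intro h1
  rw [← sub_eq_zero.1 h1, norm_one] at h
  exact lt_irrefl _ h

theorem norm_T_lt {s : ℂ} (hs : 0 < s.re) : ‖(p : ℂ) ^ (-s)‖ < 1 := by
  rw [norm_T]
  exact Real.rpow_lt_one_of_one_lt_of_neg (by exact_mod_cast hp.out.one_lt) (by linarith)

theorem T_add (s : ℂ) (m : ℕ) : (p : ℂ) ^ (-(s + m)) = ((p : ℂ)⁻¹) ^ m * (p : ℂ) ^ (-s) := by
  have hp0 : (p : ℂ) ≠ 0 := by exact_mod_cast hp.out.ne_zero
  rw [neg_add, Complex.cpow_add _ _ hp0, Complex.cpow_neg _ (m : ℂ), Complex.cpow_natCast, inv_pow,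
    mul_comm]

/-- The relation between the zeta functions. -/
theorem igusa_follow {n : ℕ} {f : MvPolynomial (Fin n) ℤ} {ρ : Type} [Fintype ρ] {m : ℕ}
    {F : MvPolynomial ρ ℤ} (h : Follow f ρ m F) {s : ℂ} (hs : 0 < s.re) :
    igusaZeta p F s = AA p m s + BB p m s * igusaZeta p f (s + m) := by
  have hT := norm_T_lt p hs
  have hs' : 0 < (s + m).re := by
    rw [Complex.add_re, Complex.natCast_re]
    positivity
  have hT' := norm_T_lt p hs'
  have h1 := gen_igusa p F hs hT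
  have h2 := gen_igusa p f hs' hT'
  have h3 := gen_follow p h hT
  rw [T_add] at h2 hT'
  have hp1 : ‖((p : ℂ)⁻¹)‖ < 1 := by
    rw [norm_inv, Complex.norm_natCast]
    exact inv_lt_one_of_one_lt₀ (by exact_mod_cast hp.out.one_lt)
  have hA : 1 - (p : ℂ)⁻¹ * (p : ℂ) ^ (-s) ≠ 0 := by
    apply sub_ne_zero_of_norm_lt
    rw [norm_mul]
    exact lt_of_le_of_lt (mul_le_of_le_one_left (norm_nonneg _) hp1.le) hT
  have hB := sub_ne_zero_of_norm_lt hT'
  have hT0 := T_ne_zero p s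
  rw [AA, BB]
  generalize (p : ℂ) ^ (-s) = T at *
  generalize ((p : ℂ)⁻¹) ^ m = r at *
  generalize (p : ℂ)⁻¹ = a at *
  generalize igusaZeta p F s = Z at *
  generalize igusaZeta p f (s + m) = W at *
  generalize gen p F T = g at *
  generalize gen p f (r * T) = w at *
  have e1 : w = (1 - r * T * W) * (1 - r * T)⁻¹ := by
    rw [eq_mul_inv_iff_mul_eq₀ hB]
    linear_combination h2
  have e2 : g = (a + (1 - a) * w) * (1 - a * T)⁻¹ := by
    rw [eq_mul_inv_iff_mul_eq₀ hA]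
    linear_combination h3
  have e3 : Z = (1 - (1 - T) * g) * T⁻¹ := by
    rw [eq_mul_inv_iff_mul_eq₀ hT0]
    linear_combination h1
  have hTz : T * T⁻¹ = 1 := mul_inv_cancel₀ hT0
  rw [e3, e2, e1]
  linear_combination ((1 - T) * (1 - a) * r * W * (1 - a * T)⁻¹ * (1 - r * T)⁻¹) * hTz

theorem meromorphicAt_AA (m : ℕ) (s : ℂ) : MeromorphicAt (AA p m) s := by
  have hT : MeromorphicAt (fun s : ℂ => (p : ℂ) ^ (-s)) s := (analyticAt_T p s).meromorphicAt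
  unfold AA
  fun_prop

theorem meromorphicAt_BB (m : ℕ) (s : ℂ) : MeromorphicAt (BB p m) s := by
  have hT : MeromorphicAt (fun s : ℂ => (p : ℂ) ^ (-s)) s := (analyticAt_T p s).meromorphicAt
  unfold BB
  fun_prop

theorem analyticAt_AA {m : ℕ} {s : ℂ} (h1 : 1 - (p : ℂ)⁻¹ * (p : ℂ) ^ (-s) ≠ 0)
    (h2 : 1 - ((p : ℂ)⁻¹) ^ m * (p : ℂ) ^ (-s) ≠ 0) : AnalyticAt ℂ (AA p m) s := by
  have hT := analyticAt_T p s
  have hT0 := T_ne_zero p s
  have e1 : AnalyticAt ℂ (fun s : ℂ => (1 - (p : ℂ)⁻¹ * (p : ℂ) ^ (-s))⁻¹) s :=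
    (analyticAt_const.sub (analyticAt_const.mul hT)).inv h1
  have e2 : AnalyticAt ℂ (fun s : ℂ => (1 - ((p : ℂ)⁻¹) ^ m * (p : ℂ) ^ (-s))⁻¹) s :=
    (analyticAt_const.sub (analyticAt_const.mul hT)).inv h2
  have e3 : AnalyticAt ℂ (fun s : ℂ => ((p : ℂ) ^ (-s))⁻¹) s := hT.inv hT0
  exact (analyticAt_const.sub (((analyticAt_const.sub hT).mul e1).mul
    (analyticAt_const.add (analyticAt_const.mul e2)))).mul e3

theorem analyticAt_BB {m : ℕ} {s : ℂ} (h1 : 1 - (p : ℂ)⁻¹ * (p : ℂ) ^ (-s) ≠ 0)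
    (h2 : 1 - ((p : ℂ)⁻¹) ^ m * (p : ℂ) ^ (-s) ≠ 0) : AnalyticAt ℂ (BB p m) s := by
  have hT := analyticAt_T p s
  have e1 : AnalyticAt ℂ (fun s : ℂ => (1 - (p : ℂ)⁻¹ * (p : ℂ) ^ (-s))⁻¹) s :=
    (analyticAt_const.sub (analyticAt_const.mul hT)).inv h1
  have e2 : AnalyticAt ℂ (fun s : ℂ => (1 - ((p : ℂ)⁻¹) ^ m * (p : ℂ) ^ (-s))⁻¹) s :=
    (analyticAt_const.sub (analyticAt_const.mul hT)).inv h2
  exact ((analyticAt_const.sub hT).mul e1).mul ((analyticAt_const.mul e2).mul analyticAt_const)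

/-- A pole of the zeta function has negative real part. -/
theorem re_neg_of_pole {V : Type} [Fintype V] (F : MvPolynomial V ℤ) {Z : ℂ → ℂ}
    (hZ : ∀ s : ℂ, 0 < s.re → Z s = igusaZeta p F s) {s₀ : ℂ}
    (h : meromorphicOrderAt Z s₀ < 0) : s₀.re < 0 := by
  by_contra hre
  push Not at hre
  have h1 := tendsto_cobounded_of_meromorphicOrderAt_neg h
  have h2 : ∀ᶠ s in 𝓝[≠] s₀, 1 < ‖Z s‖ := by
    have h3 := (tendsto_norm_cobounded_atTop.comp h1).eventually (eventually_gt_atTop 1)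
    exact h3
  have h4 : Tendsto (fun ε : ℝ => s₀ + (ε : ℂ)) (𝓝[>] 0) (𝓝[≠] s₀) := by
    rw [tendsto_nhdsWithin_iff]
    constructor
    · have h5 : Tendsto (fun ε : ℝ => s₀ + (ε : ℂ)) (𝓝 0) (𝓝 (s₀ + ((0 : ℝ) : ℂ))) :=
        (continuous_const.add Complex.continuous_ofReal).tendsto 0
      rw [Complex.ofReal_zero, add_zero] at h5
      exact h5.mono_left nhdsWithin_le_nhds
    · filter_upwards [self_mem_nhdsWithin] with ε hε
      simp only [Set.mem_compl_iff, Set.mem_singleton_iff, add_eq_left, Complex.ofReal_eq_zero]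
      exact (Set.mem_Ioi.1 hε).ne'
  have h5 := h4.eventually h2
  have h6 : ∀ᶠ ε : ℝ in 𝓝[>] 0, False := by
    filter_upwards [h5, self_mem_nhdsWithin] with ε h7 h8
    have h9 : 0 < (s₀ + (ε : ℂ)).re := by
      rw [Complex.add_re, Complex.ofReal_re]
      have := Set.mem_Ioi.1 h8
      linarith
    rw [hZ _ h9] at h7
    exact absurd (norm_igusa_le p F h9) (not_le.2 h7)
  exact (h6.exists).elim fun _ h => h

/-- The transfer of poles from `f` to the cubic. -/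
theorem pole_transfer_igusa {n : ℕ} {f : MvPolynomial (Fin n) ℤ} {ρ : Type} [Fintype ρ] {m : ℕ}
    {F : MvPolynomial ρ ℤ} (h : Follow f ρ m F) (hm : 1 ≤ m) {Z : ℂ → ℂ}
    (hZ : MeromorphicOn Z Set.univ)
    (hZp : ∀ s : ℂ, 0 < s.re → Z s = igusaZeta p f s) {s₀ : ℂ}
    (hs₀ : meromorphicOrderAt Z s₀ < 0) :
    ∃ W : ℂ → ℂ, MeromorphicOn W Set.univ ∧ (∀ s : ℂ, 0 < s.re → W s = igusaZeta p F s) ∧
      meromorphicOrderAt W (s₀ - m) = meromorphicOrderAt Z s₀ := by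
  have hre := re_neg_of_pole p f hZp hs₀
  set s₁ : ℂ := s₀ - m with hs₁
  have hcomp : ∀ s, MeromorphicAt (Z ∘ (· + (m : ℂ))) s := fun s =>
    meromorphicAt_comp_add_const_iff_meromorphicAt.2 (hZ _ (Set.mem_univ _))
  refine ⟨AA p m + BB p m * (Z ∘ (· + (m : ℂ))), fun s _ => ?_, fun s hs => ?_, ?_⟩
  · exact (meromorphicAt_AA p m s).add ((meromorphicAt_BB p m s).mul (hcomp s))
  · rw [igusa_follow p h hs, Pi.add_apply, Pi.mul_apply, Function.comp_apply, hZp]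
    rw [Complex.add_re, Complex.natCast_re]
    positivity
  · have hp1 : (1 : ℝ) < p := by exact_mod_cast hp.out.one_lt
    have hT : ‖(p : ℂ) ^ (-s₁)‖ = (p : ℝ) ^ ((m : ℝ) - s₀.re) := by
      rw [norm_T, hs₁, Complex.sub_re, Complex.natCast_re]
      congr 1
      ring
    have hpm : ‖((p : ℂ)⁻¹) ^ m‖ = (p : ℝ) ^ (-(m : ℝ)) := by
      rw [norm_pow, norm_inv, Complex.norm_natCast, Real.rpow_neg (by positivity),
        Real.rpow_natCast, inv_pow]
    have hT1 : 1 < ‖(p : ℂ) ^ (-s₁)‖ := by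
      rw [hT]
      apply Real.one_lt_rpow hp1
      have : (0 : ℝ) ≤ m := by positivity
      linarith
    have hT2 : 1 < ‖((p : ℂ)⁻¹) ^ m * (p : ℂ) ^ (-s₁)‖ := by
      rw [norm_mul, hT, hpm, ← Real.rpow_add (by positivity)]
      apply Real.one_lt_rpow hp1
      linarith
    have hT3 : 1 < ‖(p : ℂ)⁻¹ * (p : ℂ) ^ (-s₁)‖ := by
      rw [norm_mul, hT, norm_inv, Complex.norm_natCast, ← Real.rpow_neg_one,
        ← Real.rpow_add (by positivity)]
      apply Real.one_lt_rpow hp1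
      have : (1 : ℝ) ≤ m := by exact_mod_cast hm
      linarith
    have n1 := sub_ne_zero_of_lt_norm hT1
    have n2 := sub_ne_zero_of_lt_norm hT2
    have n3 := sub_ne_zero_of_lt_norm hT3
    have hp0 : (p : ℂ) ≠ 0 := by exact_mod_cast hp.out.ne_zero
    have hBne : BB p m s₁ ≠ 0 := by
      rw [BB]
      have n4 : 1 - (p : ℂ)⁻¹ ≠ 0 := by
        apply sub_ne_zero_of_norm_lt
        rw [norm_inv, Complex.norm_natCast]
        exact inv_lt_one_of_one_lt₀ hp1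
      exact mul_ne_zero (mul_ne_zero n1 (inv_ne_zero n3))
        (mul_ne_zero (mul_ne_zero n4 (inv_ne_zero n2)) (pow_ne_zero _ (inv_ne_zero hp0)))
    have ho : meromorphicOrderAt (BB p m * (Z ∘ (· + (m : ℂ)))) s₁ =
        meromorphicOrderAt Z s₀ := by
      rw [meromorphicOrderAt_mul_of_ne_zero (analyticAt_BB p n3 n2) hBne,
        meromorphicOrderAt_comp_add_const_eq_meromorphicOrderAt, hs₁, sub_add_cancel]
    rw [meromorphicOrderAt_add_eq_right_of_lt (meromorphicAt_AA p m s₁), ho]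
    rw [ho]
    exact lt_of_lt_of_le hs₀ (analyticAt_AA p n3 n2).meromorphicOrderAt_nonneg

end Pool.Agent.W206.CU
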